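import Pool.Agent.ANP.Prob

/-!
# ANQ: boxes (product sets) in the finite product space, conditioning, independence

The information about a configuration `v : Λ → X` is a box `Bx K = {v | ∀ x, v x ∈ K x}`
(for every site the digits already read).  Everything is for the product weights `w` of ANP.
-/

set_option autoImplicit false

open Finset

namespace Pool.Agent.ANQ

open Pool.Agent.ANP

variable {Λ X : Type} [Fintype Λ] [DecidableEq Λ] [Fintype X] [DecidableEq X]
variable {w : Λ → X → ℝ}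

/-- the product set with sides `K x` -/
def Bx (K : Λ → Set X) : Set (Λ → X) := {v | ∀ x, v x ∈ K x}

/-- inside the box `K` the event `E` depends only on the coordinates in `S` -/
def Dep (K : Λ → Set X) (S : Finset Λ) (E : Set (Λ → X)) : Prop :=
  ∀ v ∈ Bx K, ∀ v' ∈ Bx K, (∀ x ∈ S, v x = v' x) → (v ∈ E ↔ v' ∈ E)

omit [Fintype Λ] [DecidableEq Λ] [Fintype X] [DecidableEq X] in
theorem Dep.mono {K : Λ → Set X} {S S' : Finset Λ} {E : Set (Λ → X)} (h : Dep K S E)
    (hS : S ⊆ S') : Dep K S' E :=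
  fun v hv v' hv' hx => h v hv v' hv' fun x hxS => hx x (hS hxS)

omit [Fintype Λ] [Fintype X] [DecidableEq X] in
theorem sw_box {K : Λ → Set X} (S : Finset Λ) {p : (Λ → X) × (Λ → X)}
    (h1 : p.1 ∈ Bx K) (h2 : p.2 ∈ Bx K) : (sw S p).1 ∈ Bx K ∧ (sw S p).2 ∈ Bx K := by
  constructor
  · intro x
    by_cases h : x ∈ S
    · simp only [sw, h, piecewise_eq_of_mem]
      exact h1 x
    · simp only [sw, h, not_false_eq_true, piecewise_eq_of_notMem]
      exact h2 x
  · intro x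
    by_cases h : x ∈ S
    · simp only [sw, h, piecewise_eq_of_mem]
      exact h2 x
    · simp only [sw, h, not_false_eq_true, piecewise_eq_of_notMem]
      exact h1 x

/-- independence inside a box -/
theorem Pr_indep_box {K : Λ → Set X} {S S' : Finset Λ} (hS : Disjoint S S')
    {E F : Set (Λ → X)} (hE : Dep K S E) (hF : Dep K S' F) :
    Pr w (E ∩ F ∩ Bx K) * Pr w (Bx K) = Pr w (E ∩ Bx K) * Pr w (F ∩ Bx K) := by
  classical
  have e1 : ∀ (U V : Set (Λ → X)), Pr w U * Pr w V =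
      ∑ p : (Λ → X) × (Λ → X), if p.1 ∈ U ∧ p.2 ∈ V then wt w p.1 * wt w p.2 else 0 := by
    intro U V
    unfold Pr
    rw [sum_filter, sum_filter, sum_mul_sum, ← univ_product_univ, sum_product]
    refine sum_congr rfl fun a _ => sum_congr rfl fun b _ => ?_
    by_cases ha : a ∈ U <;> by_cases hb : b ∈ V <;> simp [ha, hb]
  rw [e1, e1]
  symm
  refine sum_bij' (fun p _ => sw S p) (fun p _ => sw S p) (fun _ _ => mem_univ _)
    (fun _ _ => mem_univ _) (fun p _ => sw_sw S p) (fun p _ => sw_sw S p) fun p _ => ?_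
  rw [wt_sw]
  have hm : (p.1 ∈ E ∩ Bx K ∧ p.2 ∈ F ∩ Bx K) ↔
      ((sw S p).1 ∈ E ∩ F ∩ Bx K ∧ (sw S p).2 ∈ Bx K) := by
    have key : ∀ p : (Λ → X) × (Λ → X), p.1 ∈ Bx K → p.2 ∈ Bx K →
        ((p.1 ∈ E ↔ (sw S p).1 ∈ E) ∧ (p.2 ∈ F ↔ (sw S p).1 ∈ F)) := by
      intro p h1 h2
      obtain ⟨h3, h4⟩ := sw_box S h1 h2
      refine ⟨hE _ h1 _ h3 fun x hx => ?_, hF _ h2 _ h3 fun x hx => ?_⟩
      · simp [sw, hx]
      · have : x ∉ S := fun h => (Finset.disjoint_left.1 hS h hx).elim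
        simp [sw, this]
    constructor
    · rintro ⟨⟨h1, h2⟩, h3, h4⟩
      obtain ⟨k1, k2⟩ := key p h2 h4
      obtain ⟨h5, h6⟩ := sw_box S h2 h4
      exact ⟨⟨⟨k1.1 h1, k2.1 h3⟩, h5⟩, h6⟩
    · rintro ⟨⟨⟨h1, h2⟩, h3⟩, h4⟩
      have h5 : p.1 ∈ Bx K ∧ p.2 ∈ Bx K := by
        have := sw_box S (p := sw S p) h3 h4
        rwa [sw_sw] at this
      obtain ⟨k1, k2⟩ := key p h5.1 h5.2
      exact ⟨⟨k1.2 h1, h5.1⟩, k2.2 h2, h5.2⟩
  by_cases h : p.1 ∈ E ∩ Bx K ∧ p.2 ∈ F ∩ Bx K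
  · rw [if_pos h, if_pos (hm.1 h)]
  · rw [if_neg h, if_neg fun h' => h (hm.2 h')]

/-- product bound inside a box, with different bounds -/
theorem Pr_prod_box (hw : IsLaw w) {K : Λ → Set X} {ι : Type} [DecidableEq ι] (T : Finset ι)
    (zone : ι → Finset Λ) (E : ι → Set (Λ → X)) (p : ι → ℝ) (hp : ∀ i ∈ T, 0 ≤ p i)
    (hz : ∀ i ∈ T, ∀ i' ∈ T, i ≠ i' → Disjoint (zone i) (zone i'))
    (hE : ∀ i ∈ T, Dep K (zone i) (E i))
    (hpr : ∀ i ∈ T, Pr w (E i ∩ Bx K) ≤ p i * Pr w (Bx K)) :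
    Pr w ({u | ∀ i ∈ T, u ∈ E i} ∩ Bx K) ≤ (∏ i ∈ T, p i) * Pr w (Bx K) := by
  classical
  induction T using Finset.induction_on with
  | empty => simp
  | insert i T hi ih =>
    have ih' := ih (fun a ha => hp a (mem_insert_of_mem ha))
      (fun a ha b hb => hz a (mem_insert_of_mem ha) b (mem_insert_of_mem hb))
      (fun a ha => hE a (mem_insert_of_mem ha)) fun a ha => hpr a (mem_insert_of_mem ha)
    have hdep : Dep K (T.biUnion zone) {u | ∀ i ∈ T, u ∈ E i} := by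
      intro a ha b hb hab
      refine forall₂_congr fun j hj => ?_
      exact hE j (mem_insert_of_mem hj) a ha b hb fun x hx =>
        hab x (mem_biUnion.2 ⟨j, hj, hx⟩)
    have hdis : Disjoint (zone i) (T.biUnion zone) := by
      rw [disjoint_biUnion_right]
      intro j hj
      exact hz i (mem_insert_self _ _) j (mem_insert_of_mem hj) fun h => hi (h ▸ hj)
    have h1 := Pr_indep_box (w := w) hdis (hE i (mem_insert_self _ _)) hdep
    have h2 : {u : Λ → X | ∀ k ∈ insert i T, u ∈ E k} = E i ∩ {u | ∀ i ∈ T, u ∈ E i} := by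
      ext u
      simp
    rw [h2, prod_insert hi]
    have hc := Pr_nonneg hw (Bx K)
    have hpi := hp i (mem_insert_self _ _)
    have hpT : 0 ≤ ∏ i ∈ T, p i := prod_nonneg fun a ha => hp a (mem_insert_of_mem ha)
    rcases hc.eq_or_lt with h0 | h0
    · have h3 : Pr w (E i ∩ {u | ∀ i ∈ T, u ∈ E i} ∩ Bx K) ≤ Pr w (Bx K) :=
        Pr_mono hw fun u hu => hu.2
      rw [← h0] at h3 ⊢
      simpa using h3
    · have h3 : Pr w (E i ∩ {u | ∀ i ∈ T, u ∈ E i} ∩ Bx K) * Pr w (Bx K) ≤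
          (p i * (∏ i ∈ T, p i) * Pr w (Bx K)) * Pr w (Bx K) := by
        rw [h1]
        calc Pr w (E i ∩ Bx K) * Pr w ({u | ∀ i ∈ T, u ∈ E i} ∩ Bx K)
            ≤ (p i * Pr w (Bx K)) * ((∏ i ∈ T, p i) * Pr w (Bx K)) :=
              mul_le_mul (hpr i (mem_insert_self _ _)) ih' (Pr_nonneg hw _)
                (mul_nonneg hpi hc)
          _ = _ := by ring
      exact le_of_mul_le_mul_right h3 h0

/-- the section of a box: coordinates off `s` fixed to those of `u` -/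
def sec (K : Λ → Set X) (s : Finset Λ) (u : Λ → X) : Λ → Set X :=
  fun x => if x ∈ s then K x else {u x}

omit [Fintype Λ] [Fintype X] [DecidableEq X] in
theorem Bx_sec {K : Λ → Set X} {s : Finset Λ} {u : Λ → X} (hu : u ∈ Bx K) :
    Bx (sec K s u) = {v | ∀ x, x ∉ s → v x = u x} ∩ Bx K := by
  ext v
  constructor
  · intro hv
    refine ⟨fun x hx => ?_, fun x => ?_⟩
    · have := hv x
      simpa [sec, hx] using this
    · have := hv x
      by_cases hx : x ∈ s
      · simpa [sec, hx] using this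
      · have h1 : v x = u x := by simpa [sec, hx] using this
        rw [h1]
        exact hu x
  · rintro ⟨h1, h2⟩ x
    by_cases hx : x ∈ s
    · simpa [sec, hx] using h2 x
    · simpa [sec, hx] using h1 x hx

omit [Fintype Λ] [Fintype X] [DecidableEq X] in
theorem Dep_sec {K : Λ → Set X} {s S : Finset Λ} {u : Λ → X} (hu : u ∈ Bx K)
    {E : Set (Λ → X)} (hE : Dep K S E) : Dep (sec K s u) S E := by
  intro v hv v' hv' hx
  rw [Bx_sec hu] at hv hv'
  exact hE v hv.2 v' hv'.2 hx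

/-- conditional probability in a section of an event which depends only on coordinates in `s` -/
theorem Pr_sec_le (hw : IsLaw w) {K : Λ → Set X} {s S : Finset Λ} (hS : S ⊆ s) {u : Λ → X}
    (hu : u ∈ Bx K) {E : Set (Λ → X)} (hE : Dep K S E) {p : ℝ}
    (h : Pr w (E ∩ Bx K) ≤ p * Pr w (Bx K)) :
    Pr w (E ∩ Bx (sec K s u)) ≤ p * Pr w (Bx (sec K s u)) := by
  classical
  have hF : Dep K sᶜ {v : Λ → X | ∀ x, x ∉ s → v x = u x} := by
    intro a _ b _ hab
    constructor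
    · intro h1 x hx
      rw [← hab x (mem_compl.2 hx)]
      exact h1 x hx
    · intro h1 x hx
      rw [hab x (mem_compl.2 hx)]
      exact h1 x hx
  have hd : Disjoint S sᶜ := Finset.disjoint_left.2 fun x hx hx' => (mem_compl.1 hx') (hS hx)
  have h1 := Pr_indep_box (w := w) hd hE hF
  rw [Bx_sec hu]
  have hc := Pr_nonneg hw (Bx K)
  rcases hc.eq_or_lt with h0 | h0
  · have h3 : Pr w (E ∩ ({v : Λ → X | ∀ x, x ∉ s → v x = u x} ∩ Bx K)) ≤ Pr w (Bx K) :=
      Pr_mono hw fun u hu => hu.2.2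
    have h4 : Pr w ({v : Λ → X | ∀ x, x ∉ s → v x = u x} ∩ Bx K) ≤ Pr w (Bx K) :=
      Pr_mono hw fun u hu => hu.2
    have h5 := Pr_nonneg hw ({v : Λ → X | ∀ x, x ∉ s → v x = u x} ∩ Bx K)
    rw [← h0] at h3 h4
    have h6 : Pr w ({v : Λ → X | ∀ x, x ∉ s → v x = u x} ∩ Bx K) = 0 := le_antisymm h4 h5
    rw [h6]
    simpa using h3
  · rw [← Set.inter_assoc]
    have h2 : Pr w (E ∩ {v : Λ → X | ∀ x, x ∉ s → v x = u x} ∩ Bx K) * Pr w (Bx K) ≤
        (p * Pr w ({v : Λ → X | ∀ x, x ∉ s → v x = u x} ∩ Bx K)) * Pr w (Bx K) := by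
      rw [h1]
      calc Pr w (E ∩ Bx K) * Pr w ({v : Λ → X | ∀ x, x ∉ s → v x = u x} ∩ Bx K)
          ≤ (p * Pr w (Bx K)) * Pr w ({v : Λ → X | ∀ x, x ∉ s → v x = u x} ∩ Bx K) :=
            mul_le_mul_of_nonneg_right h (Pr_nonneg hw _)
        _ = _ := by ring
    exact le_of_mul_le_mul_right h2 h0

/-- conditioning on a partition: if `D` is a union of classes of `r` and in every class of `D`
the probability of `E` is at most `p` times the one of `F`, then `Pr (E ∩ D) ≤ p Pr (F ∩ D)`. -/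
theorem cond_le' (r : (Λ → X) → (Λ → X) → Prop) (hr : Equivalence r)
    (D E F : Set (Λ → X)) (hD : ∀ v ∈ D, ∀ v', r v v' → v' ∈ D) (p : ℝ)
    (h : ∀ v ∈ D, Pr w (E ∩ {v' | r v v'}) ≤ p * Pr w (F ∩ {v' | r v v'})) :
    Pr w (E ∩ D) ≤ p * Pr w (F ∩ D) := by
  classical
  let c : (Λ → X) → Finset (Λ → X) := fun v => univ.filter (fun v' => r v v')
  have hc : ∀ v v', r v v' → c v' = c v := by
    intro v v' h'
    ext u
    simp only [c, mem_filter, mem_univ, true_and]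
    exact ⟨fun hu => hr.trans h' hu, fun hu => hr.trans (hr.symm h') hu⟩
  have key : ∀ E : Set (Λ → X), Pr w (E ∩ D) =
      ∑ s ∈ (univ.filter (fun v => v ∈ D)).image c,
        ∑ v ∈ univ.filter (fun v => v ∈ E ∧ v ∈ s), wt w v := by
    intro E
    have h1 : Pr w (E ∩ D) = ∑ v ∈ (univ.filter (fun v => v ∈ D)).filter (fun v => v ∈ E),
        wt w v := by
      unfold Pr
      refine sum_congr ?_ fun _ _ => rfl
      ext v
      simp only [mem_filter, mem_univ, true_and, Set.mem_inter_iff]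
      exact and_comm
    rw [h1, ← sum_fiberwise_of_maps_to (g := c) (t := (univ.filter (fun v => v ∈ D)).image c)
      fun v hv => mem_image_of_mem _ (mem_filter.1 hv).1]
    refine sum_congr rfl fun s hs => sum_congr ?_ fun _ _ => rfl
    obtain ⟨u, hu, rfl⟩ := mem_image.1 hs
    have huD : u ∈ D := (mem_filter.1 hu).2
    ext v
    simp only [mem_filter, mem_univ, true_and]
    constructor
    · rintro ⟨⟨h2, h3⟩, h4⟩
      refine ⟨h3, ?_⟩
      rw [← h4]
      exact mem_filter.2 ⟨mem_univ _, hr.refl v⟩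
    · rintro ⟨h2, h3⟩
      have h4 : r u v := (mem_filter.1 h3).2
      exact ⟨⟨hD u huD v h4, h2⟩, hc u v h4⟩
  rw [key E, key F, mul_sum]
  refine sum_le_sum fun s hs => ?_
  obtain ⟨u, hu, rfl⟩ := mem_image.1 hs
  have huD : u ∈ D := (mem_filter.1 hu).2
  have h1 := h u huD
  have h2 : ∀ E : Set (Λ → X), ∑ v ∈ univ.filter (fun v => v ∈ E ∧ v ∈ c u), wt w v =
      Pr w (E ∩ {v' | r u v'}) := by
    intro E
    unfold Pr
    refine sum_congr ?_ fun _ _ => rfl
    ext v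
    simp [c]
  rw [h2, h2]
  exact h1

theorem cond_le (r : (Λ → X) → (Λ → X) → Prop) (hr : Equivalence r)
    (D E : Set (Λ → X)) (hD : ∀ v ∈ D, ∀ v', r v v' → v' ∈ D) (p : ℝ)
    (h : ∀ v ∈ D, Pr w (E ∩ {v' | r v v'}) ≤ p * Pr w {v' | r v v'}) :
    Pr w (E ∩ D) ≤ p * Pr w D := by
  have h1 := cond_le' (w := w) r hr D E Set.univ hD p (fun v hv => by
    rw [Set.univ_inter]
    exact h v hv)
  rwa [Set.univ_inter] at h1

end Pool.Agent.ANQ
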