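import Pool.Agent.ANP.Prob

/-! # ANQ / RecH: the recursion for the bad cells, Hoelder version

Several kinds `k : κ` of bad events `ev k j L` with UNCONDITIONAL product bounds only: for separated
sets `A` of cells of super-stage `j`, `Pr (all ev k j L, L ∈ A) ≤ (a k j ^ K) ^ |A|`, where
`K = card κ + 1`; nothing is assumed on the joint law of different kinds.  A cell is bad in
super-stage `j + 1` if one of the events happens or if `J` separated bad cells of super-stage `j` are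
in its neighbourhood.  Then `Pr (all L ∈ T bad) ≤ q j ^ |T|` for separated `T` as soon as
`nn * q j ^ J ≤ b (j + 1) ^ K` and `∑ k, a k j + b j ≤ q j`.
-/

set_option autoImplicit false

open Finset

namespace Pool.Agent.ANQ

open Pool.Agent.ANP

variable {Λ X : Type} [Fintype Λ] [DecidableEq Λ] [Fintype X] [DecidableEq X]
variable {w : Λ → X → ℝ}

/-- pairwise `sp` -/
def SepBy {C : Type} (sp : C → C → Prop) (T : Finset C) : Prop :=
  ∀ a ∈ T, ∀ b ∈ T, a ≠ b → sp a b

theorem SepBy.mono {C : Type} {sp : C → C → Prop} {T T' : Finset C} (h : SepBy sp T)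
    (hT : T' ⊆ T) : SepBy sp T' := fun a ha b hb hab => h a (hT ha) b (hT hb) hab

/-- several kinds of events with product bounds -/
theorem holder_union (hw : IsLaw w) {C κ : Type} [DecidableEq C] [Fintype κ] [DecidableEq κ]
    [Nonempty κ] (sp : C → C → Prop) (ev : κ → C → Set (Λ → X)) (a : κ → ℝ)
    (ha : ∀ k, 0 ≤ a k)
    (hp : ∀ k (A : Finset C), SepBy sp A →
      Pr w {u | ∀ L ∈ A, u ∈ ev k L} ≤ (a k ^ Fintype.card κ) ^ A.card)
    (T : Finset C) (hT : SepBy sp T) (bad : C → Set (Λ → X))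
    (hb : ∀ L, ∀ u ∈ bad L, ∃ k, u ∈ ev k L) :
    Pr w {u | ∀ L ∈ T, u ∈ bad L} ≤ (∑ k, a k) ^ T.card := by
  classical
  have hsub : {u : Λ → X | ∀ L ∈ T, u ∈ bad L} ⊆
      ⋃ φ ∈ (univ : Finset (↥T → κ)), {u | ∀ L : ↥T, u ∈ ev (φ L) L.1} := by
    intro u hu
    have h1 : ∀ L : ↥T, ∃ k, u ∈ ev k L.1 := fun L => hb L.1 u (hu L.1 L.2)
    choose φ hφ using h1
    exact Set.mem_iUnion₂.2 ⟨φ, mem_univ _, hφ⟩
  refine (Pr_mono hw hsub).trans ?_
  refine (Pr_iUnion_le hw (univ : Finset (↥T → κ))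
    (fun φ => {u | ∀ L : ↥T, u ∈ ev (φ L) L.1})).trans ?_
  have hone : ∀ φ : ↥T → κ, Pr w {u | ∀ L : ↥T, u ∈ ev (φ L) L.1} ≤ ∏ L : ↥T, a (φ L) := by
    intro φ
    set P := Pr w {u | ∀ L : ↥T, u ∈ ev (φ L) L.1} with hP
    have hP0 : 0 ≤ P := Pr_nonneg hw _
    have hprod0 : 0 ≤ ∏ L : ↥T, a (φ L) := prod_nonneg fun L _ => ha _
    have hcard : ∀ k, P ≤ (a k ^ (univ.filter fun L : ↥T => φ L = k).card) ^ Fintype.card κ := by
      intro k
      set A : Finset C := (univ.filter fun L : ↥T => φ L = k).image fun L => L.1 with hA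
      have hAT : A ⊆ T := by
        intro c hc
        obtain ⟨L, -, rfl⟩ := mem_image.1 hc
        exact L.2
      have hAc : A.card = (univ.filter fun L : ↥T => φ L = k).card :=
        card_image_of_injective _ Subtype.coe_injective
      have h1 := hp k A (hT.mono hAT)
      have h2 : {u : Λ → X | ∀ L : ↥T, u ∈ ev (φ L) L.1} ⊆ {u | ∀ L ∈ A, u ∈ ev k L} := by
        intro u hu c hc
        obtain ⟨L, hL, rfl⟩ := mem_image.1 hc
        have h3 := hu L
        rwa [(mem_filter.1 hL).2] at h3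
      refine ((Pr_mono hw h2).trans h1).trans (le_of_eq ?_)
      rw [hAc, ← pow_mul, ← pow_mul, mul_comm]
    have hpow : P ^ Fintype.card κ ≤ (∏ L : ↥T, a (φ L)) ^ Fintype.card κ := by
      have h1 : P ^ Fintype.card κ = ∏ _k : κ, P := by
        rw [prod_const, card_univ]
      have h2 : (∏ L : ↥T, a (φ L)) =
          ∏ k, a k ^ (univ.filter fun L : ↥T => φ L = k).card := by
        rw [← Finset.prod_fiberwise univ φ (fun L => a (φ L))]
        refine prod_congr rfl fun k _ => ?_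
        rw [prod_congr rfl fun L hL => by rw [(mem_filter.1 hL).2], prod_const]
      rw [h1, h2, ← prod_pow]
      exact prod_le_prod (fun _ _ => hP0) fun k _ => hcard k
    exact le_of_pow_le_pow_left₀ Fintype.card_ne_zero hprod0 hpow
  refine (sum_le_sum fun φ _ => hone φ).trans (le_of_eq ?_)
  have h1 : ∑ φ : ↥T → κ, ∏ L : ↥T, a (φ L) = ∏ _L : ↥T, ∑ k, a k := by
    rw [prod_univ_sum]
    refine sum_congr ?_ fun _ _ => rfl
    ext φ
    simp
  rw [h1, prod_const, card_univ, Fintype.card_coe]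

/-- `J` separated bad cells of the previous super-stage near every `L ∈ S` -/
theorem many_le (hw : IsLaw w) {C : Type} [DecidableEq C] (sp sp' : C → C → Prop)
    (irr : ∀ a, ¬ sp a a) (nb : C → Finset C) (bd : (Λ → X) → Finset C) (J : ℕ) {q nn : ℝ}
    (hq : 0 ≤ q)
    (far : ∀ L L', sp' L L' → ∀ a ∈ nb L, ∀ b ∈ nb L', sp a b)
    (nbc : ∀ L, (((nb L).powersetCard J).card : ℝ) ≤ nn)
    (ih : ∀ T : Finset C, SepBy sp T → Pr w {u | ∀ L ∈ T, L ∈ bd u} ≤ q ^ T.card)
    (S : Finset C) (hS : SepBy sp' S) :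
    Pr w {u | ∀ L ∈ S, ∃ P : Finset C, P ⊆ bd u ∧ P.card = J ∧ SepBy sp P ∧ P ⊆ nb L} ≤
      (nn * q ^ J) ^ S.card := by
  classical
  set W : ∀ _ : ↥S, Finset (Finset C) := fun L =>
    ((nb L.1).powersetCard J).filter fun T => SepBy sp T with hW
  have hsub : {u : Λ → X | ∀ L ∈ S, ∃ P : Finset C, P ⊆ bd u ∧ P.card = J ∧ SepBy sp P ∧
      P ⊆ nb L} ⊆ ⋃ τ ∈ Fintype.piFinset W, {u | ∀ L ∈ (univ.biUnion τ : Finset C),
        L ∈ bd u} := by
    intro u hu
    have h1 : ∀ L : ↥S, ∃ P : Finset C, P ⊆ bd u ∧ P.card = J ∧ SepBy sp P ∧ P ⊆ nb L.1 :=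
      fun L => hu L.1 L.2
    choose τ h2 h3 h4 h5 using h1
    refine Set.mem_iUnion₂.2 ⟨τ, Fintype.mem_piFinset.2 fun L => ?_, ?_⟩
    · exact mem_filter.2 ⟨mem_powersetCard.2 ⟨h5 L, h3 L⟩, h4 L⟩
    · intro L' hL'
      obtain ⟨L, -, hL⟩ := mem_biUnion.1 hL'
      exact h2 L hL
  refine (Pr_mono hw hsub).trans ?_
  refine (Pr_iUnion_le hw (Fintype.piFinset W)
    (fun τ => {u | ∀ L ∈ (univ.biUnion τ : Finset C), L ∈ bd u})).trans ?_
  have hone : ∀ τ ∈ Fintype.piFinset W,
      Pr w {u | ∀ L ∈ (univ.biUnion τ : Finset C), L ∈ bd u} ≤ (q ^ J) ^ S.card := by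
    intro τ hτ
    have hτ' : ∀ L : ↥S, τ L ⊆ nb L.1 ∧ (τ L).card = J ∧ SepBy sp (τ L) := by
      intro L
      have h1 := mem_filter.1 (Fintype.mem_piFinset.1 hτ L)
      have h2 := mem_powersetCard.1 h1.1
      exact ⟨h2.1, h2.2, h1.2⟩
    have hcross : ∀ L L' : ↥S, L ≠ L' → ∀ a ∈ τ L, ∀ b ∈ τ L', sp a b := by
      intro L L' hne a ha b hb
      exact far L.1 L'.1 (hS L.1 L.2 L'.1 L'.2 fun h => hne (Subtype.ext h)) a
        ((hτ' L).1 ha) b ((hτ' L').1 hb)
    have hsep : SepBy sp (univ.biUnion τ : Finset C) := by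
      intro a ha b hb hab
      obtain ⟨L, -, hL⟩ := mem_biUnion.1 ha
      obtain ⟨L', -, hL'⟩ := mem_biUnion.1 hb
      by_cases hLL : L = L'
      · subst hLL
        exact (hτ' L).2.2 a hL b hL' hab
      · exact hcross L L' hLL a hL b hL'
    have hcard : (univ.biUnion τ : Finset C).card = J * S.card := by
      rw [card_biUnion]
      · rw [sum_congr rfl fun L _ => (hτ' L).2.1, sum_const, card_univ, Fintype.card_coe,
          smul_eq_mul, mul_comm]
      · intro L _ L' _ hne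
        rw [Function.onFun, Finset.disjoint_left]
        intro a ha ha'
        exact irr a (hcross L L' hne a ha a ha')
    have h1 := ih _ hsep
    rw [hcard, pow_mul] at h1
    exact h1
  refine (sum_le_sum hone).trans ?_
  rw [sum_const, Fintype.card_piFinset, nsmul_eq_mul, mul_pow]
  apply mul_le_mul_of_nonneg_right _ (by positivity)
  push_cast
  rw [← Fintype.card_coe S, ← card_univ, ← prod_const]
  refine prod_le_prod (fun _ _ => Nat.cast_nonneg _) fun L _ => ?_
  refine le_trans ?_ (nbc L.1)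
  exact_mod_cast card_filter_le _ _

/-- the data of the recursion; `Ms ≤` number of the last super-stage -/
structure HRec {C κ : Type} [DecidableEq C] [Fintype κ] (w : Λ → X → ℝ) (M : ℕ)
    (sp : ℕ → C → C → Prop) (nb : ℕ → C → Finset C) (bd : ℕ → (Λ → X) → Finset C)
    (ev : κ → ℕ → C → Set (Λ → X)) (J : ℕ) (a : κ → ℕ → ℝ) (b q nn : ℕ → ℝ) : Prop where
  irr : ∀ j c, ¬ sp j c c
  far : ∀ j < M, ∀ L L', sp (j + 1) L L' → ∀ c ∈ nb j L, ∀ c' ∈ nb j L', sp j c c'
  nbc : ∀ j < M, ∀ L, (((nb j L).powersetCard J).card : ℝ) ≤ nn (j + 1)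
  bad0 : ∀ v, ∀ L ∈ bd 0 v, ∃ k, v ∈ ev k 0 L
  bad : ∀ j < M, ∀ v, ∀ L ∈ bd (j + 1) v, (∃ k, v ∈ ev k (j + 1) L) ∨
    ∃ P : Finset C, P ⊆ bd j v ∧ P.card = J ∧ SepBy (sp j) P ∧ P ⊆ nb j L
  a0 : ∀ k j, 0 ≤ a k j
  b0 : ∀ j, 0 ≤ b j
  prob : ∀ k, ∀ j ≤ M, ∀ (A : Finset C), SepBy (sp j) A →
    Pr w {u | ∀ L ∈ A, u ∈ ev k j L} ≤ (a k j ^ (Fintype.card κ + 1)) ^ A.card
  many : ∀ j < M, nn (j + 1) * q j ^ J ≤ b (j + 1) ^ (Fintype.card κ + 1)
  sum : ∀ j ≤ M, ∑ k, a k j + b j ≤ q j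

/-- THE RECURSION -/
theorem HRec.le (hw : IsLaw w) {C κ : Type} [DecidableEq C] [Fintype κ] [DecidableEq κ]
    {M : ℕ} {sp : ℕ → C → C → Prop} {nb : ℕ → C → Finset C} {bd : ℕ → (Λ → X) → Finset C}
    {ev : κ → ℕ → C → Set (Λ → X)} {J : ℕ} {a : κ → ℕ → ℝ} {b q nn : ℕ → ℝ}
    (h : HRec w M sp nb bd ev J a b q nn) (j : ℕ) (hj : j ≤ M) (T : Finset C)
    (hT : SepBy (sp j) T) : Pr w {u | ∀ L ∈ T, L ∈ bd j u} ≤ q j ^ T.card := by
  classical
  have hq : ∀ j ≤ M, 0 ≤ q j := fun j hj =>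
    (add_nonneg (sum_nonneg fun k _ => h.a0 k j) (h.b0 j)).trans (h.sum j hj)
  induction j generalizing T with
  | zero =>
    have h1 := holder_union hw (κ := Option κ) (sp 0)
      (fun k L => k.elim (∅ : Set (Λ → X)) fun k => ev k 0 L)
      (fun k => k.elim (b 0) fun k => a k 0)
      (fun k => by cases k; exacts [h.b0 0, h.a0 _ 0])
      (fun k A hA => by
        rw [Fintype.card_option]
        cases k with
        | none =>
          rcases A.eq_empty_or_nonempty with hA' | ⟨c, hc⟩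
          · subst hA'
            simp only [card_empty, pow_zero]
            exact (Pr_mono hw (Set.subset_univ _)).trans (Pr_univ hw).le
          · have h2 : {u : Λ → X | ∀ L ∈ A, u ∈ (Option.elim (none : Option κ)
                (∅ : Set (Λ → X)) fun k => ev k 0 L)} = ∅ := by
              ext u
              rw [Set.mem_empty_iff_false, iff_false]
              exact fun h3 => h3 c hc
            rw [h2, Pr_empty]
            exact pow_nonneg (pow_nonneg (h.b0 0) _) _
        | some k => exact h.prob k 0 hj A hA)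
      T hT (fun L => {u | L ∈ bd 0 u})
      (fun L u hu => by
        obtain ⟨k, hk⟩ := h.bad0 u L hu
        exact ⟨some k, hk⟩)
    have h3 : ∑ k : Option κ, (Option.elim k (b 0) fun k => a k 0) = ∑ k, a k 0 + b 0 := by
      rw [Fintype.sum_option]
      exact add_comm _ _
    rw [h3] at h1
    exact h1.trans (pow_le_pow_left₀
      (add_nonneg (sum_nonneg fun k _ => h.a0 k 0) (h.b0 0)) (h.sum 0 hj) _)
  | succ j ih =>
    have hjM : j < M := hj
    have hqj := hq j (le_of_lt hjM)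
    have hmany := fun S (hS : SepBy (sp (j + 1)) S) => many_le (w := w) hw (sp j) (sp (j + 1))
      (h.irr j) (nb j) (bd j) J hqj (h.far j hjM) (h.nbc j hjM)
      (fun T hT => ih (le_of_lt hjM) T hT) S hS
    have h1 := holder_union hw (κ := Option κ) (sp (j + 1))
      (fun k L => k.elim {u | ∃ P : Finset C, P ⊆ bd j u ∧ P.card = J ∧ SepBy (sp j) P ∧
        P ⊆ nb j L} fun k => ev k (j + 1) L)
      (fun k => k.elim (b (j + 1)) fun k => a k (j + 1))
      (fun k => by cases k; exacts [h.b0 _, h.a0 _ _])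
      (fun k A hA => by
        rw [Fintype.card_option]
        cases k with
        | none =>
          rcases A.eq_empty_or_nonempty with hA' | ⟨c, hc⟩
          · subst hA'
            simp only [card_empty, pow_zero]
            exact (Pr_mono hw (Set.subset_univ _)).trans (Pr_univ hw).le
          · exact (hmany A hA).trans (pow_le_pow_left₀
              (mul_nonneg ((Nat.cast_nonneg _).trans (h.nbc j hjM c)) (pow_nonneg hqj _))
              (h.many j hjM) _)
        | some k => exact h.prob k (j + 1) hj A hA)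
      T hT (fun L => {u | L ∈ bd (j + 1) u})
      (fun L u hu => by
        rcases h.bad j hjM u L hu with ⟨k, hk⟩ | hP
        · exact ⟨some k, hk⟩
        · exact ⟨none, hP⟩)
    have h3 : ∑ k : Option κ, (Option.elim k (b (j + 1)) fun k => a k (j + 1)) =
        ∑ k, a k (j + 1) + b (j + 1) := by
      rw [Fintype.sum_option]
      exact add_comm _ _
    rw [h3] at h1
    exact h1.trans (pow_le_pow_left₀
      (add_nonneg (sum_nonneg fun k _ => h.a0 k _) (h.b0 _)) (h.sum _ hj) _)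

end Pool.Agent.ANQ
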