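import Pool.Agent.ANQ.Box

/-!
# ANQ: the tower property for a refining family of partitions

`R t v v'`: the configurations `v`, `v'` give the same information at time `t`.  `E t` (rejection
of the step at time `t`) is decided at time `t + 1` and has conditional probability at most `p t`
given the information at time `t`.  Then all steps `t ∈ S` are rejected with conditional
probability at most `∏ p t`; `tower_union`: one unknown time in every `S i`, `i ∈ ι`.
-/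

set_option autoImplicit false

open Finset

namespace Pool.Agent.ANQ

open Pool.Agent.ANP

variable {Λ X : Type} [Fintype Λ] [DecidableEq Λ] [Fintype X] [DecidableEq X]
variable {w : Λ → X → ℝ}

/-- a refining family of partitions -/
structure Filt (R : ℕ → (Λ → X) → (Λ → X) → Prop) : Prop where
  eqv : ∀ t, Equivalence (R t)
  anti : ∀ t v v', R (t + 1) v v' → R t v v'

omit [Fintype Λ] [DecidableEq Λ] [Fintype X] [DecidableEq X] in
theorem Filt.le {R : ℕ → (Λ → X) → (Λ → X) → Prop} (hR : Filt R) {s t : ℕ} (hst : s ≤ t)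
    {v v' : Λ → X} (h : R t v v') : R s v v' := by
  induction t, hst using Nat.le_induction with
  | base => exact h
  | succ n _ ih => exact ih (hR.anti _ _ _ h)

theorem tower {R : ℕ → (Λ → X) → (Λ → X) → Prop} (hR : Filt R)
    (S : Finset ℕ) (E : ℕ → Set (Λ → X)) (p : ℕ → ℝ)
    (hp : ∀ t ∈ S, 0 ≤ p t)
    (hm : ∀ t ∈ S, ∀ v ∈ E t, ∀ v', R (t + 1) v v' → v' ∈ E t)
    (hb : ∀ t ∈ S, ∀ v, Pr w (E t ∩ {v' | R t v v'}) ≤ p t * Pr w {v' | R t v v'})
    (t0 : ℕ) (ht0 : ∀ t ∈ S, t0 ≤ t) (v : Λ → X) :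
    Pr w ({u | ∀ t ∈ S, u ∈ E t} ∩ {v' | R t0 v v'}) ≤
      (∏ t ∈ S, p t) * Pr w {v' | R t0 v v'} := by
  classical
  induction S using Finset.induction_on_max with
  | empty => simp
  | insert a S ha ih =>
    have haS : a ∉ S := fun h => lt_irrefl _ (ha a h)
    have ih' := ih (fun t ht => hp t (mem_insert_of_mem ht))
      (fun t ht => hm t (mem_insert_of_mem ht)) (fun t ht => hb t (mem_insert_of_mem ht))
      (fun t ht => ht0 t (mem_insert_of_mem ht))
    have hpa := hp a (mem_insert_self _ _)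
    rw [prod_insert haS]
    have h1 : ({u : Λ → X | ∀ t ∈ insert a S, u ∈ E t} ∩ {v' | R t0 v v'}) =
        E a ∩ ({u | ∀ t ∈ S, u ∈ E t} ∩ {v' | R t0 v v'}) := by
      ext u
      simp [and_assoc]
    have h2 : Pr w (E a ∩ ({u | ∀ t ∈ S, u ∈ E t} ∩ {v' | R t0 v v'})) ≤
        p a * Pr w ({u | ∀ t ∈ S, u ∈ E t} ∩ {v' | R t0 v v'}) := by
      refine cond_le (R a) (hR.eqv a) _ _ ?_ (p a) fun u _ => hb a (mem_insert_self _ _) u
      rintro u ⟨hu1, hu2⟩ u' huu'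
      refine ⟨fun t ht => ?_, ?_⟩
      · exact hm t (mem_insert_of_mem ht) u (hu1 t ht) u' (hR.le (ha t ht) huu')
      · exact (hR.eqv t0).trans hu2 (hR.le (ht0 a (mem_insert_self _ _)) huu')
    rw [h1]
    calc _ ≤ p a * Pr w ({u | ∀ t ∈ S, u ∈ E t} ∩ {v' | R t0 v v'}) := h2
      _ ≤ p a * ((∏ t ∈ S, p t) * Pr w {v' | R t0 v v'}) :=
          mul_le_mul_of_nonneg_left ih' hpa
      _ = _ := by ring

/-- one rejection at some time of `S i` for every `i` -/
theorem tower_union (hw : IsLaw w) {R : ℕ → (Λ → X) → (Λ → X) → Prop} (hR : Filt R)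
    {ι : Type} [Fintype ι] [DecidableEq ι] (S : ι → Finset ℕ)
    (hS : ∀ i j, i ≠ j → Disjoint (S i) (S j)) (E : ℕ → Set (Λ → X)) (p : ℕ → ℝ)
    (hp : ∀ i, ∀ t ∈ S i, 0 ≤ p t)
    (hm : ∀ i, ∀ t ∈ S i, ∀ v ∈ E t, ∀ v', R (t + 1) v v' → v' ∈ E t)
    (hb : ∀ i, ∀ t ∈ S i, ∀ v, Pr w (E t ∩ {v' | R t v v'}) ≤ p t * Pr w {v' | R t v v'})
    (t0 : ℕ) (ht0 : ∀ i, ∀ t ∈ S i, t0 ≤ t) (v : Λ → X) :
    Pr w ({u | ∀ i, ∃ t ∈ S i, u ∈ E t} ∩ {v' | R t0 v v'}) ≤
      (∏ i, ∑ t ∈ S i, p t) * Pr w {v' | R t0 v v'} := by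
  classical
  have hsub : ({u : Λ → X | ∀ i, ∃ t ∈ S i, u ∈ E t} ∩ {v' | R t0 v v'}) ⊆
      ⋃ f ∈ Fintype.piFinset S, ({u | ∀ i, u ∈ E (f i)} ∩ {v' | R t0 v v'}) := by
    rintro u ⟨hu, hu'⟩
    choose f hf hfE using hu
    exact Set.mem_iUnion₂.2 ⟨f, Fintype.mem_piFinset.2 hf, hfE, hu'⟩
  refine (Pr_mono hw hsub).trans ?_
  refine (Pr_iUnion_le hw (Fintype.piFinset S)
    (fun f => {u | ∀ i, u ∈ E (f i)} ∩ {v' | R t0 v v'})).trans ?_
  rw [prod_univ_sum, sum_mul]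
  refine sum_le_sum fun f hf => ?_
  have hf' := Fintype.mem_piFinset.1 hf
  have hinj : Set.InjOn f (univ : Finset ι) := by
    intro i _ j _ hij
    by_contra hne
    exact Finset.disjoint_left.1 (hS i j hne) (hf' i) (hij ▸ hf' j)
  have h1 := tower (w := w) hR (univ.image f) E p
    (fun t ht => by
      obtain ⟨i, -, rfl⟩ := mem_image.1 ht
      exact hp i _ (hf' i))
    (fun t ht => by
      obtain ⟨i, -, rfl⟩ := mem_image.1 ht
      exact hm i _ (hf' i))
    (fun t ht => by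
      obtain ⟨i, -, rfl⟩ := mem_image.1 ht
      exact hb i _ (hf' i)) t0
    (fun t ht => by
      obtain ⟨i, -, rfl⟩ := mem_image.1 ht
      exact ht0 i _ (hf' i)) v
  rw [prod_image (fun i _ j _ h => hinj (mem_coe.2 (mem_univ i)) (mem_coe.2 (mem_univ j)) h)] at h1
  refine le_trans (le_of_eq ?_) h1
  congr 1
  ext u
  simp

end Pool.Agent.ANQ
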