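import Pool.Agent.ANQ.Markov
import Pool.Agent.ANQ.Tower
import Pool.Agent.ANQ.RecH

/-! # ANQ / ProcProb: the probability of bad cells of the process

Input (`ProcIn`): `E1 j i` = the step `i` of super-stage `j` is rejected for analytic reasons
(conditional probability at most `p j i` given the class before the step, in particular it may
contain `¬ ACC` for all good states); `E2 j L` = a percolation event of weak sites near the cell
`L` (only an unconditional product bound); a rejection is of one of these kinds.  Leak tests and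
`PR` enter through product bounds for separated cells.  Output: product bound for the bad cells.
-/

set_option autoImplicit false

open Finset

namespace Pool.Agent.ANQ

open Pool.Agent.ANP (IsLaw Pr wt Pr_mono Pr_univ Pr_nonneg Pr_iUnion_le)
open Pool.Agent.AND (Prof)

variable {T X : Type} [Fintype T] [DecidableEq T] [Fintype X] [DecidableEq X] [Nonempty T]
variable {w : T → X → ℝ}

namespace Geo

variable (g : Geo T) (A : Ana T X)

/-- same information after `i` steps of super-stage `j` -/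
def RR (j i : ℕ) (v v' : T → X) : Prop := v' ∈ Cls A.q (g.crun A j i v).pi v

/-- separated corners -/
def sp (j : ℕ) (a b : T) : Prop := a ≠ b ∧ g.sep j < g.dist a b

open Classical in
/-- the cells of super-stage `j` near the cell `L` of super-stage `j + 1` -/
noncomputable def nb (j : ℕ) (L : T) : Finset T :=
  (g.corners j).filter fun a => g.dist a L ≤ g.nbr (j + 1)

/-- the bad cells of super-stage `j` of the algorithm -/
noncomputable def bdc (j : ℕ) (v : T → X) : Finset T := g.bad A j (g.run A j v) v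

variable {g A}

omit [DecidableEq X] [Fintype X] in
theorem rr_filt (hc : ∀ j x, g.cor j (g.cor j x) = g.cor j x) (hL : Loc g A) (j : ℕ) :
    Filt (g.RR A j) where
  eqv t := by
    refine ⟨fun v => cls_self _ _ _, fun {v v'} h => ?_, fun {v v' v''} h h' => ?_⟩
    · have h1 := crun_eq hc hL j t v v' h
      unfold RR
      rw [h1]
      exact cls_symm h
    · have h1 := crun_eq hc hL j t v v' h
      unfold RR at h' ⊢
      rw [h1] at h'
      exact cls_trans h h'
  anti t v v' h := cls_crun_le hc hL j v v' (Nat.le_succ t) h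

omit [DecidableEq X] [Fintype X] in
/-- frozen cells are frozen at the start or rejected -/
theorem mem_cur_fz (j : ℕ) (S : St T) (v : T → X) (i : ℕ) (L : T) :
    L ∈ (g.cur A j S v i).fz ↔ L ∈ g.preS A j S v ∨ ∃ k < i, g.sL j k = L ∧ g.Rej A j S v k := by
  induction i with
  | zero =>
    have h1 : (g.cur A j S v 0).fz = g.preS A j S v := rfl
    rw [h1]
    exact ⟨Or.inl, fun h => h.elim id fun ⟨k, hk, _⟩ => absurd hk (Nat.not_lt_zero k)⟩
  | succ i ih =>
    have h0 : (∃ k < i + 1, g.sL j k = L ∧ g.Rej A j S v k) ↔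
        (∃ k < i, g.sL j k = L ∧ g.Rej A j S v k) ∨ (g.sL j i = L ∧ g.Rej A j S v i) := by
      constructor
      · rintro ⟨k, hk, h⟩
        rcases Nat.lt_succ_iff_lt_or_eq.1 hk with h1 | h1
        · exact Or.inl ⟨k, h1, h⟩
        · rw [h1] at h
          exact Or.inr h
      · rintro (⟨k, hk, h⟩ | h)
        · exact ⟨k, Nat.lt_succ_of_lt hk, h⟩
        · exact ⟨i, Nat.lt_succ_self i, h⟩
    rw [h0, ← or_assoc, ← ih, cur_succ]
    by_cases h : g.sL j i ∈ (g.cur A j S v i).fz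
    · rw [stp_of_mem h]
      exact ⟨Or.inl, fun h1 => h1.elim id fun h2 => absurd h h2.2.1⟩
    · by_cases h' : A.ACC j i (g.cur A j S v i).pi v
      · rw [stp_of_acc h h']
        exact ⟨Or.inl, fun h1 => h1.elim id fun h2 => absurd h' h2.2.2⟩
      · rw [stp_of_rej h h']
        change L ∈ insert (g.sL j i) (g.cur A j S v i).fz ↔ _
        rw [mem_insert]
        constructor
        · rintro (h1 | h1)
          · exact Or.inr ⟨h1.symm, h, h'⟩
          · exact Or.inl h1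
        · rintro (h1 | h1)
          · exact Or.inr h1
          · exact Or.inl h1.1.symm

omit [DecidableEq X] [Fintype X] in
theorem bad_corners (hc : ∀ j x, g.cor j (g.cor j x) = g.cor j x) (j : ℕ) (S : St T)
    (v : T → X) : g.bad A j S v ⊆ g.corners j := by
  classical
  intro L hL
  rcases mem_union.1 hL with h | h
  · rcases (mem_cur_fz j S v _ L).1 h with h1 | ⟨k, _, h1, _⟩
    · unfold preS at h1
      exact (mem_filter.1 h1).1
    · rw [← h1]
      exact sL_mem hc j k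
  · unfold lkS at h
    exact (mem_filter.1 h).1

end Geo

/-- the input for the probability of the bad cells; super-stages `0, …, M` -/
structure ProcIn (w : T → X → ℝ) (g : Geo T) (A : Ana T X) (M : ℕ)
    (E1 : ℕ → ℕ → Set (T → X)) (E2 : ℕ → T → Set (T → X)) (p : ℕ → ℕ → ℝ)
    (a : Fin 4 → ℕ → ℝ) (b q nn : ℕ → ℝ) : Prop where
  law : IsLaw w
  loc : Loc g A
  cor : ∀ j x, g.cor j (g.cor j x) = g.cor j x
  symm : ∀ x y, g.dist x y = g.dist y x
  tri : ∀ x y z, g.dist x z ≤ g.dist x y + g.dist y z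
  J0 : 0 < g.J
  sep : ∀ j < M, 2 * g.nbr (j + 1) + g.sep j ≤ g.sep (j + 1)
  pos : ∀ j < M, 2 * g.nbr (j + 1) ≤ g.sep (j + 1)
  nbc : ∀ j < M, ∀ L, (((g.nb j L).powersetCard g.J).card : ℝ) ≤ nn (j + 1)
  /-- kinds of rejections -/
  rej : ∀ j ≤ M, ∀ i < g.ns j, ∀ v, g.Rej A j (g.run A j v) v i →
    v ∈ E1 j i ∨ v ∈ E2 j (g.sL j i)
  mE1 : ∀ j ≤ M, ∀ i < g.ns j, ∀ v ∈ E1 j i, ∀ v' ∈ Cls A.q (g.crun A j (i + 1) v).pi v,
    v' ∈ E1 j i
  p0 : ∀ j i, 0 ≤ p j i
  /-- the step theorem -/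
  step : ∀ j ≤ M, ∀ i < g.ns j, ∀ v,
    Pr w (E1 j i ∩ Cls A.q (g.crun A j i v).pi v) ≤ p j i * Pr w (Cls A.q (g.crun A j i v).pi v)
  psum : ∀ j ≤ M, ∀ L, ∑ i ∈ (range (g.ns j)).filter (fun i => g.sL j i = L), p j i ≤
    a 0 j ^ 5
  /-- percolation of weak sites -/
  perc : ∀ j ≤ M, ∀ C : Finset T, SepBy (g.sp j) C →
    Pr w {u | ∀ L ∈ C, u ∈ E2 j L} ≤ (a 1 j ^ 5) ^ C.card
  /-- leak tests -/
  leak : ∀ j ≤ M, ∀ C : Finset T, SepBy (g.sp j) C →
    Pr w {u | ∀ L ∈ C, L ∈ g.lkS A j (g.run A j u) u} ≤ (a 2 j ^ 5) ^ C.card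
  pr : ∀ j ≤ M, ∀ C : Finset T, SepBy (g.sp j) C →
    Pr w {u | ∀ L ∈ C, A.PR j (g.run A j u) L u} ≤ (a 3 j ^ 5) ^ C.card
  a0 : ∀ k j, 0 ≤ a k j
  b0 : ∀ j, 0 ≤ b j
  many : ∀ j < M, nn (j + 1) * q j ^ g.J ≤ b (j + 1) ^ 5
  sum : ∀ j ≤ M, a 0 j + a 1 j + a 2 j + a 3 j + b j ≤ q j

variable {g : Geo T} {A : Ana T X} {M : ℕ} {E1 : ℕ → ℕ → Set (T → X)} {E2 : ℕ → T → Set (T → X)}
  {p : ℕ → ℕ → ℝ} {a : Fin 4 → ℕ → ℝ} {b q nn : ℕ → ℝ}

/-- the kinds of events -/
def evk (g : Geo T) (A : Ana T X) (E1 : ℕ → ℕ → Set (T → X)) (E2 : ℕ → T → Set (T → X))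
    (k : Fin 4) (j : ℕ) (L : T) : Set (T → X) :=
  if k = 0 then {u | ∃ i < g.ns j, g.sL j i = L ∧ u ∈ E1 j i}
  else if k = 1 then E2 j L
  else if k = 2 then {u | L ∈ g.lkS A j (g.run A j u) u}
  else {u | A.PR j (g.run A j u) L u}

/-- the analytic rejections -/
theorem ProcIn.rej1 (h : ProcIn w g A M E1 E2 p a b q nn) (j : ℕ) (hj : j ≤ M) (C : Finset T) :
    Pr w {u | ∀ L ∈ C, ∃ i < g.ns j, g.sL j i = L ∧ u ∈ E1 j i} ≤ (a 0 j ^ 5) ^ C.card := by
  classical
  have hF := Geo.rr_filt (g := g) (A := A) h.cor h.loc j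
  have hone : ∀ v : T → X, Pr w ({u | ∀ L ∈ C, ∃ i < g.ns j, g.sL j i = L ∧ u ∈ E1 j i} ∩
      {v' | g.RR A j 0 v v'}) ≤ (a 0 j ^ 5) ^ C.card * Pr w {v' | g.RR A j 0 v v'} := by
    intro v
    have h1 := tower_union (w := w) h.law hF (ι := ↥C)
      (fun L => (range (g.ns j)).filter fun i => g.sL j i = L.1)
      (fun L L' hne => by
        rw [Finset.disjoint_left]
        intro i hi hi'
        exact hne (Subtype.ext ((mem_filter.1 hi).2.symm.trans (mem_filter.1 hi').2)))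
      (E1 j) (p j) (fun L i _ => h.p0 j i)
      (fun L i hi u hu v' hv' =>
        h.mE1 j hj i (mem_range.1 (mem_filter.1 hi).1) u hu v' hv')
      (fun L i hi u => h.step j hj i (mem_range.1 (mem_filter.1 hi).1) u)
      0 (fun _ _ _ => Nat.zero_le _) v
    have h2 : ({u | ∀ L ∈ C, ∃ i < g.ns j, g.sL j i = L ∧ u ∈ E1 j i} ∩
        {v' | g.RR A j 0 v v'}) ⊆ ({u | ∀ L : ↥C, ∃ t ∈ (range (g.ns j)).filter
          (fun i => g.sL j i = L.1), u ∈ E1 j t} ∩ {v' | g.RR A j 0 v v'}) := by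
      rintro u ⟨hu, hu'⟩
      refine ⟨fun L => ?_, hu'⟩
      obtain ⟨i, hi, hiL, hiE⟩ := hu L.1 L.2
      exact ⟨i, mem_filter.2 ⟨mem_range.2 hi, hiL⟩, hiE⟩
    refine ((Pr_mono h.law h2).trans h1).trans (mul_le_mul_of_nonneg_right ?_
      (Pr_nonneg h.law _))
    calc ∏ L : ↥C, ∑ i ∈ (range (g.ns j)).filter (fun i => g.sL j i = L.1), p j i
        ≤ ∏ _L : ↥C, a 0 j ^ 5 := by
          refine prod_le_prod (fun L _ => sum_nonneg fun i _ => h.p0 j i) fun L _ => ?_
          exact h.psum j hj L.1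
      _ = (a 0 j ^ 5) ^ C.card := by rw [prod_const, card_univ, Fintype.card_coe]
  have h3 := cond_le (w := w) (g.RR A j 0) (hF.eqv 0) Set.univ
    {u | ∀ L ∈ C, ∃ i < g.ns j, g.sL j i = L ∧ u ∈ E1 j i} (fun _ _ _ _ => Set.mem_univ _)
    ((a 0 j ^ 5) ^ C.card) (fun v _ => hone v)
  rw [Set.inter_univ, Pr_univ h.law, mul_one] at h3
  exact h3

theorem ProcIn.hrec (h : ProcIn w g A M E1 E2 p a b q nn) :
    HRec w M g.sp g.nb (g.bdc A) (evk g A E1 E2) g.J a b q nn where
  irr j c hc := hc.1 rfl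
  far j hj L L' hLL c hc c' hc' := by
    classical
    unfold Geo.nb at hc hc'
    have h1 := (mem_filter.1 hc).2
    have h2 := (mem_filter.1 hc').2
    have h3 := h.tri L c L'
    have h4 := h.tri c c' L'
    have h5 := h.symm L c
    have h6 := hLL.2
    have h7 := h.sep j hj
    have h8 : g.sep j < g.dist c c' := by omega
    refine ⟨fun hcc => ?_, h8⟩
    rw [hcc] at h1 h3 h5
    have h9 := h.pos j hj
    omega
  nbc j hj L := h.nbc j hj L
  bad0 v L hL := by
    classical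
    rcases mem_union.1 hL with h1 | h1
    · rcases (Geo.mem_cur_fz 0 _ v _ L).1 h1 with h2 | ⟨i, hi, h2, h3⟩
      · unfold Geo.preS at h2
        rcases (mem_filter.1 h2).2 with h3 | ⟨P, hP, hPc, -⟩
        · exact ⟨3, by simpa [evk] using h3⟩
        · have h4 : (g.run A 0 v).bd = ∅ := rfl
          rw [h4, subset_empty] at hP
          rw [hP, card_empty] at hPc
          exact absurd hPc.symm (Nat.pos_iff_ne_zero.1 h.J0)
      · rcases h.rej 0 (Nat.zero_le _) i hi v h3 with h4 | h4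
        · exact ⟨0, by simpa [evk] using ⟨i, hi, h2, h4⟩⟩
        · rw [h2] at h4
          exact ⟨1, by simpa [evk] using h4⟩
    · exact ⟨2, by simpa [evk] using h1⟩
  bad j hj v L hL := by
    classical
    rcases mem_union.1 hL with h1 | h1
    · rcases (Geo.mem_cur_fz (j + 1) _ v _ L).1 h1 with h2 | ⟨i, hi, h2, h3⟩
      · unfold Geo.preS at h2
        rcases (mem_filter.1 h2).2 with h3 | ⟨P, hP, hPc, hPs, hPn⟩
        · exact Or.inl ⟨3, by simpa [evk] using h3⟩
        · refine Or.inr ⟨P, hP, hPc, fun x hx y hy hxy => ⟨hxy, hPs x hx y hy hxy⟩, ?_⟩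
          intro x hx
          unfold Geo.nb
          exact mem_filter.2 ⟨Geo.bad_corners h.cor j _ v (hP hx), hPn x hx⟩
      · rcases h.rej (j + 1) hj i hi v h3 with h4 | h4
        · exact Or.inl ⟨0, by simpa [evk] using ⟨i, hi, h2, h4⟩⟩
        · rw [h2] at h4
          exact Or.inl ⟨1, by simpa [evk] using h4⟩
    · exact Or.inl ⟨2, by simpa [evk] using h1⟩
  a0 := h.a0
  b0 := h.b0
  prob k j hj C hC := by
    rw [Fintype.card_fin]
    fin_cases k
    · exact h.rej1 j hj C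
    · exact h.perc j hj C hC
    · exact h.leak j hj C hC
    · exact h.pr j hj C hC
  many j hj := by
    rw [Fintype.card_fin]
    exact h.many j hj
  sum j hj := by
    rw [Fin.sum_univ_four]
    exact h.sum j hj

/-- product bound for separated bad cells -/
theorem ProcIn.bad_le (h : ProcIn w g A M E1 E2 p a b q nn) (j : ℕ) (hj : j ≤ M)
    (C : Finset T) (hC : SepBy (g.sp j) C) :
    Pr w {u | ∀ L ∈ C, L ∈ g.bdc A j u} ≤ q j ^ C.card :=
  h.hrec.le h.law j hj C hC

/-- one bad cell -/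
theorem ProcIn.bad_one (h : ProcIn w g A M E1 E2 p a b q nn) (j : ℕ) (hj : j ≤ M) (L : T) :
    Pr w {u | L ∈ g.bdc A j u} ≤ q j := by
  have h1 := h.bad_le j hj {L} (fun x hx y hy hxy => by
    rw [mem_singleton] at hx hy
    exact absurd (hx.trans hy.symm) hxy)
  simpa using h1

/-- some cell of some `N j` is bad in super-stage `j ≤ M` -/
theorem ProcIn.bad_some (h : ProcIn w g A M E1 E2 p a b q nn) (N : ℕ → Finset T) :
    Pr w {u | ∃ j ≤ M, ∃ L ∈ N j, L ∈ g.bdc A j u} ≤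
      ∑ j ∈ range (M + 1), ((N j).card : ℝ) * q j := by
  classical
  have hsub : {u : T → X | ∃ j ≤ M, ∃ L ∈ N j, L ∈ g.bdc A j u} ⊆
      ⋃ j ∈ range (M + 1), ⋃ L ∈ N j, {u | L ∈ g.bdc A j u} := by
    rintro u ⟨j, hj, L, hL, hu⟩
    exact Set.mem_iUnion₂.2 ⟨j, mem_range.2 (by omega), Set.mem_iUnion₂.2 ⟨L, hL, hu⟩⟩
  refine (Pr_mono h.law hsub).trans ?_
  refine (Pr_iUnion_le h.law (range (M + 1))
    (fun j => ⋃ L ∈ N j, {u : T → X | L ∈ g.bdc A j u})).trans ?_
  refine sum_le_sum fun j hj => ?_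
  refine (Pr_iUnion_le h.law (N j) (fun L => {u : T → X | L ∈ g.bdc A j u})).trans ?_
  refine (sum_le_sum fun L _ => h.bad_one j (by rw [mem_range] at hj; omega) L).trans
    (le_of_eq ?_)
  rw [sum_const, nsmul_eq_mul]

end Pool.Agent.ANQ
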