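import Pool.Agent.ANQ.Sepa

/-! # ANQ / Geo: geometry of the sequential algorithm (one configuration)

`GPar`: distance, corner maps of the grids, lengths.  `Hist`: the sets which the algorithm produces
for one configuration.  `st j` static sites at the start of super-stage `j`; `fz j` frozen cells of
grid `j`, `bd j` bad cells of grid `j` (frozen, or meeting a cluster which fails the leak test);
`cand j` sites of `st j` whose cluster is far from the frozen cells, `ins j` the inserted sites.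

* `Hist.near_bd` (G1): static sites of `st (j + 1)` are within `W j` of a bad cell of grid `j`;
* `Hist.few`, `Hist.cluster`, `Hist.card_cluster` (G2): near a site of `st (j + 1)` in a cell which is
  not frozen the set `st (j + 1)` is covered by few small balls, the cluster of the site is small;
* `Hist.sparse` (G3): the holes are sparse in the sense of `ANM.Sparse`;
* `Hist.near_hole` (G4): a point of a hole is near a bad cell.
-/

set_option autoImplicit false

namespace Pool.Agent.ANQ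

open Finset Pool.Agent.ANM

/-- distance, corner maps and lengths -/
structure GPar (T : Type) where
  dist : T → T → ℕ
  cor : ℕ → T → T
  side : ℕ → ℕ
  /-- radius of the holes made at the end of super-stage `j` -/
  R : ℕ → ℕ
  /-- link distance of the clusters of super-stage `j` -/
  rho : ℕ → ℕ
  /-- distance of the candidates from the frozen cells -/
  D : ℕ → ℕ
  /-- separation of the bad cells of grid `j` which are counted in super-stage `j + 1` -/
  sep : ℕ → ℕ
  /-- radius of the neighbourhood of a cell of grid `j` where the bad cells of grid `j - 1` are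
  counted -/
  nbr : ℕ → ℕ
  /-- distance of the static sites of `st (j + 1)` from the bad cells of grid `j` -/
  W : ℕ → ℕ
  J : ℕ
  V : ℕ

namespace GPar

variable {T : Type}

/-- bound of the diameter of the clusters of super-stage `j + 1` -/
def CD (g : GPar T) (j : ℕ) : ℕ := g.J * (2 * (g.W j + g.sep j) + g.rho (j + 1))

/-- the length conditions -/
structure Ok [Fintype T] [DecidableEq T] (g : GPar T) : Prop where
  met : NMet g.dist
  cor_le : ∀ j x, g.dist x (g.cor j x) ≤ g.side j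
  idem : ∀ j x, g.cor j (g.cor j x) = g.cor j x
  cd : ∀ j, g.CD j + g.R (j + 1) ≤ g.side (j + 1)
  w : ∀ j, g.D j + 2 * g.side j ≤ g.W j
  nb : ∀ j, 5 * g.side (j + 1) + g.W j ≤ g.nbr (j + 1)
  cnt : ∀ j x, (univ.filter fun c => g.cor j c = c ∧
    g.dist x c ≤ g.W j + g.sep j + g.side j).card ≤ g.V
  large : ∀ j, 2 ^ (j + 2) * (g.J * g.V + 1) * (2 * g.R (j + 1) + 2 * g.side j + 2) ≤ g.side (j + 1)

end GPar

/-- the sets produced by the algorithm for one configuration -/
structure Hist {T : Type} [DecidableEq T] (g : GPar T) where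
  st : ℕ → Finset T
  fz : ℕ → Finset T
  bd : ℕ → Finset T
  cand : ℕ → Finset T
  ins : ℕ → Finset T
  st0 : st 0 = ∅
  bdc : ∀ j, ∀ c ∈ bd j, g.cor j c = c
  fzbd : ∀ j, fz j ⊆ bd j
  /-- a cell which is not frozen has fewer than `J` separated bad cells of the previous grid near -/
  pre : ∀ j c, g.cor (j + 1) c = c → c ∉ fz (j + 1) → ∀ B ⊆ bd j,
    (∀ b ∈ B, g.dist c b ≤ g.nbr (j + 1)) → Sp g.dist (g.sep j) B → B.card ≠ g.J
  cst : ∀ j, cand j ⊆ st j
  ic : ∀ j, ins j ⊆ cand j
  cl : ∀ j x y, x ∈ cand j → Lk g.dist (g.rho j) (st j : Set T) x y → y ∈ cand j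
  icl : ∀ j x y, x ∈ ins j → Lk g.dist (g.rho j) (st j : Set T) x y → y ∈ ins j
  /-- clusters which are not candidates are near a frozen cell -/
  near : ∀ j, ∀ x ∈ st j, x ∉ cand j → ∃ y z, Lk g.dist (g.rho j) (st j : Set T) x y ∧
    g.cor j z ∈ fz j ∧ g.dist y z ≤ g.D j
  /-- candidates are far from the frozen cells -/
  far : ∀ j, ∀ x ∈ cand j, ∀ z, g.cor j z ∈ fz j → g.D j < g.dist x z
  /-- the cells which meet a cluster which fails the test are bad -/
  fail : ∀ j, ∀ x ∈ cand j, x ∉ ins j → g.cor j x ∈ bd j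
  /-- the static sites at the start of the next super-stage -/
  succ : ∀ j, ∀ x ∈ st (j + 1), g.cor j x ∈ fz j ∨ ∃ y ∈ st j, y ∉ ins j ∧ g.dist x y ≤ g.R j

namespace Hist

variable {T : Type} [Fintype T] [DecidableEq T] {g : GPar T} (h : Hist g)

/-- (G2), one super-stage: few balls cover the static sites near a cell which is not frozen -/
theorem few_of (hg : g.Ok) (j : ℕ)
    (h1 : ∀ x ∈ h.st (j + 1), ∃ c ∈ h.bd j, g.dist x c ≤ g.W j)
    {x : T} (hx : g.cor (j + 1) x ∉ h.fz (j + 1)) :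
    ∃ B ⊆ h.bd j, B.card < g.J ∧ ∀ y ∈ h.st (j + 1), g.dist x y ≤ 4 * g.side (j + 1) →
      ∃ b ∈ B, g.dist y b ≤ g.W j + g.sep j := by
  classical
  have hm := hg.met
  set c := g.cor (j + 1) x with hc
  set B0 : Finset T := (h.bd j).filter fun b => g.dist c b ≤ g.nbr (j + 1) with hB0
  rcases greedy hm (g.sep j) g.J B0 with ⟨B, h2, h3, h4⟩ | ⟨B, h2, h3, _, h5⟩
  · exact absurd h3 (h.pre j c (hg.idem _ _) hx B (fun b hb => (mem_filter.1 (h2 hb)).1)
      (fun b hb => (mem_filter.1 (h2 hb)).2) h4)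
  · refine ⟨B, fun b hb => (mem_filter.1 (h2 hb)).1, h3, fun y hy hxy => ?_⟩
    obtain ⟨b, hb, hyb⟩ := h1 y hy
    have h6 : g.dist c b ≤ g.nbr (j + 1) := by
      have a1 := hm.tri c x b
      have a2 := hm.tri x y b
      have a3 := hg.cor_le (j + 1) x
      rw [hm.symm, ← hc] at a3
      have a4 := hg.nb j
      omega
    obtain ⟨t, ht, hbt⟩ := h5 b (mem_filter.2 ⟨hb, h6⟩)
    exact ⟨t, ht, (hm.tri y b t).trans (by omega)⟩

/-- (G2), one super-stage: the diameter of the clusters -/
theorem cluster_of (hg : g.Ok) (j : ℕ)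
    (h1 : ∀ x ∈ h.st (j + 1), ∃ c ∈ h.bd j, g.dist x c ≤ g.W j)
    {x y : T} (hx : g.cor (j + 1) x ∉ h.fz (j + 1)) (hxs : x ∈ h.st (j + 1))
    (hxy : Lk g.dist (g.rho (j + 1)) (h.st (j + 1) : Set T) x y) : g.dist x y ≤ g.CD j := by
  classical
  have hm := hg.met
  obtain ⟨B, -, hB, hcov⟩ := h.few_of hg j h1 hx
  have h2 := cluster_le hm (fun b : T => {y | g.dist y b ≤ g.W j + g.sep j})
    (2 * (g.W j + g.sep j)) (g.rho (j + 1)) g.J (4 * g.side (j + 1)) (fun k a ha b hb => by
      have a1 := hm.tri a k b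
      have a2 : g.dist a k ≤ g.W j + g.sep j := ha
      have a3 : g.dist b k ≤ g.W j + g.sep j := hb
      rw [hm.symm] at a3
      omega) B hB.le (B := (h.st (j + 1) : Set T)) (x := x) (fun y hy hxy => by
        obtain ⟨b, hb, hyb⟩ := hcov y (mem_coe.1 hy) hxy
        exact ⟨b, hb, hyb⟩) (by
        have := hg.cd j
        unfold GPar.CD at this
        omega) (mem_coe.2 hxs) hxy
  unfold GPar.CD
  omega

/-- (G1) -/
theorem near_bd (hg : g.Ok) (j : ℕ) : ∀ x ∈ h.st (j + 1), ∃ c ∈ h.bd j, g.dist x c ≤ g.W j := by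
  have hm := hg.met
  induction j with
  | zero =>
    intro x hx
    rcases h.succ 0 x hx with h1 | ⟨y, hy, -⟩
    · exact ⟨_, h.fzbd 0 h1, (hg.cor_le 0 x).trans (by have := hg.w 0; omega)⟩
    · rw [h.st0] at hy
      exact absurd hy (notMem_empty y)
  | succ j ih =>
    intro x hx
    have hw := hg.w (j + 1)
    have hcd := hg.cd j
    rcases h.succ (j + 1) x hx with h1 | ⟨y, hy, hyi, hxy⟩
    · exact ⟨_, h.fzbd _ h1, (hg.cor_le _ x).trans (by omega)⟩
    · have a1 := hg.cor_le (j + 1) y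
      have a2 := hm.tri x y (g.cor (j + 1) y)
      by_cases h2 : g.cor (j + 1) y ∈ h.fz (j + 1)
      · exact ⟨_, h.fzbd _ h2, by omega⟩
      · by_cases h3 : y ∈ h.cand (j + 1)
        · exact ⟨_, h.fail _ y h3 hyi, by omega⟩
        · obtain ⟨y', z, h4, h5, h6⟩ := h.near _ y hy h3
          have h7 := h.cluster_of hg j ih h2 hy h4
          have a3 := hm.tri x y y'
          have a4 := hm.tri x y' z
          have a5 := hm.tri x z (g.cor (j + 1) z)
          have a6 := hg.cor_le (j + 1) z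
          exact ⟨_, h.fzbd _ h5, by omega⟩

/-- (G2) -/
theorem few (hg : g.Ok) (j : ℕ) {x : T} (hx : g.cor (j + 1) x ∉ h.fz (j + 1)) :
    ∃ B ⊆ h.bd j, B.card < g.J ∧ ∀ y ∈ h.st (j + 1), g.dist x y ≤ 4 * g.side (j + 1) →
      ∃ b ∈ B, g.dist y b ≤ g.W j + g.sep j := h.few_of hg j (h.near_bd hg j) hx

/-- (G2): the diameter of a cluster -/
theorem cluster (hg : g.Ok) (j : ℕ) {x y : T} (hx : g.cor (j + 1) x ∉ h.fz (j + 1))
    (hxs : x ∈ h.st (j + 1)) (hxy : Lk g.dist (g.rho (j + 1)) (h.st (j + 1) : Set T) x y) :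
    g.dist x y ≤ g.CD j := h.cluster_of hg j (h.near_bd hg j) hx hxs hxy

/-- candidates are not in frozen cells -/
lemma cand_fz (hg : g.Ok) {j : ℕ} {x : T} (hx : x ∈ h.cand j) : g.cor j x ∉ h.fz j := fun h1 => by
  have := h.far j x hx x h1
  rw [hg.met.self] at this
  exact absurd this (Nat.not_lt_zero _)

/-- (G2): the number of sites of a cluster -/
theorem card_cluster (hg : g.Ok) (j : ℕ) {x : T} (hx : g.cor (j + 1) x ∉ h.fz (j + 1))
    (hxs : x ∈ h.st (j + 1)) (F : Finset T)
    (hF : ∀ y ∈ F, Lk g.dist (g.rho (j + 1)) (h.st (j + 1) : Set T) x y) (Vs : ℕ)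
    (hV : ∀ b, (univ.filter fun y => g.dist y b ≤ g.W j + g.sep j).card ≤ Vs) :
    F.card ≤ g.J * Vs := by
  classical
  obtain ⟨B, -, hB, hcov⟩ := h.few hg j hx
  have h1 : F ⊆ B.biUnion fun b => univ.filter fun y => g.dist y b ≤ g.W j + g.sep j := by
    intro y hy
    have h2 := h.cluster hg j hx hxs (hF y hy)
    have h3 := hg.cd j
    obtain ⟨b, hb, hyb⟩ := hcov y (mem_coe.1 ((hF y hy).mem (mem_coe.2 hxs))) (by omega)
    exact mem_biUnion.2 ⟨b, hb, mem_filter.2 ⟨mem_univ _, hyb⟩⟩
  refine (card_le_card h1).trans (card_biUnion_le.trans ?_)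
  refine (sum_le_card_nsmul _ _ Vs fun b _ => hV b).trans ?_
  rw [smul_eq_mul]
  exact Nat.mul_le_mul_right _ hB.le

/-- the pieces of the holes: `n` generations -/
def piece (n : ℕ) (k : Fin n × T) : Set T :=
  {x | ∃ y ∈ h.cand (k.1 + 1), g.cor k.1 y = k.2 ∧ g.dist x y ≤ g.R (k.1 + 1)}

/-- (G3): the holes are sparse -/
theorem sparse (hg : g.Ok) (n : ℕ) :
    Sparse g.dist (h.piece n) (fun k => (k.1 : ℕ)) n (g.J * g.V)
      (fun i => 2 * g.R (i + 1) + 2 * g.side i) (fun i => g.side (i + 1)) where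
  gen_lt k := k.1.2
  diam := by
    rintro k x ⟨y, hy, hk, hxy⟩ x' ⟨y', hy', hk', hxy'⟩
    have hm := hg.met
    have a1 := hg.cor_le k.1 y
    have a2 := hg.cor_le k.1 y'
    rw [hk] at a1
    rw [hk', hm.symm] at a2
    have a3 := hm.tri x y x'
    have a4 := hm.tri y k.2 x'
    have a5 := hm.tri k.2 y' x'
    have a6 := hm.symm y' x'
    omega
  count := by
    classical
    intro i x s hs
    have hm := hg.met
    by_cases hne : s.Nonempty
    · obtain ⟨k0, hk0⟩ := hne
      obtain ⟨hgen, z0, ⟨y0, hy0, hc0, hzy0⟩, hxz0⟩ := hs k0 hk0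
      have hi : ∃ i' : Fin n, (i' : ℕ) = i := ⟨k0.1, hgen⟩
      obtain ⟨i', hi'⟩ := hi
      subst hi'
      rw [hgen] at hy0 hzy0 hc0
      obtain ⟨B, -, hB, hcov⟩ := h.few hg i' (h.cand_fz hg hy0)
      have hcd := hg.cd i'
      -- every piece is near one of the centres
      have h1 : s ⊆ B.biUnion fun b => (univ.filter fun c => g.cor i' c = c ∧
          g.dist b c ≤ g.W i' + g.sep i' + g.side i').image fun c => (i', c) := by
        intro k hk
        obtain ⟨hgk, z, ⟨y, hy, hc, hzy⟩, hxz⟩ := hs k hk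
        rw [hgk] at hy hzy hc
        have a1 := hm.tri y0 z0 y
        have a2 := hm.tri z0 x y
        have a3 := hm.tri x z y
        have a4 := hm.symm y0 z0
        have a5 := hm.symm z0 x
        obtain ⟨b, hb, hyb⟩ := hcov y (h.cst _ hy) (by omega)
        refine mem_biUnion.2 ⟨b, hb, mem_image.2 ⟨k.2, mem_filter.2 ⟨mem_univ _, ?_, ?_⟩, ?_⟩⟩
        · rw [← hc, hg.idem]
        · have a6 := hm.tri b y k.2
          have a7 := hg.cor_le i' y
          rw [hc] at a7
          have a8 := hm.symm b y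
          omega
        · exact Prod.ext (Fin.ext hgk).symm rfl
      refine (card_le_card h1).trans (card_biUnion_le.trans ?_)
      refine (sum_le_card_nsmul _ _ g.V fun b _ => card_image_le.trans (hg.cnt i' b)).trans ?_
      rw [smul_eq_mul]
      exact Nat.mul_le_mul_right _ hB.le
    · rw [not_nonempty_iff_eq_empty] at hne
      rw [hne]
      simp
  large := fun i _ => hg.large i

/-- (G4): holes are near bad cells -/
theorem near_hole (hg : g.Ok) {n : ℕ} {k : Fin n × T} {x : T} (hx : x ∈ h.piece n k) :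
    ∃ c ∈ h.bd k.1, g.dist x c ≤ g.R (k.1 + 1) + g.W k.1 := by
  obtain ⟨y, hy, -, hxy⟩ := hx
  obtain ⟨c, hc, hyc⟩ := h.near_bd hg k.1 y (h.cst _ hy)
  exact ⟨c, hc, (hg.met.tri x y c).trans (by omega)⟩

end Hist

end Pool.Agent.ANQ
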