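import Pool.Agent.ANQ.NearProc
import Pool.Agent.ANQ.ProcProb
import Pool.Agent.ANP.Tor
import Pool.Agent.ANC.Len

/-! # ANQ / Torus: the geometry of the process on the torus

`torGeo`: the geometry `Geo (Tor d N)` with the lengths of `ANC/Len.lean`; `par_ok`: the conditions
`GPar.Ok` hold for all small `k0` and all `N`; counts of corners (no divisibility of `N` is needed).
-/

set_option autoImplicit false

open Finset Filter Topology

namespace Pool.Agent.ANQ

open Pool.Agent.ANM Pool.Agent.ANP Pool.Agent.Kin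

variable {d N : ℕ}

/-! ### number of corners near a point -/

/-- multiples of `s` in a ball of `ZMod N` -/
lemma card_mult [NeZero N] {s : ℕ} (hs : 0 < s) (X : ZMod N) (r : ℕ) :
    (univ.filter fun c : ZMod N => s ∣ c.val ∧ (X - c).valMinAbs.natAbs ≤ r).card ≤
      3 * (2 * r / s + 1) := by
  classical
  -- three intervals
  let lo : ℤ → ℤ := fun t => (X.val : ℤ) - t * N - r
  let S : ℤ → Finset (ZMod N) := fun t => univ.filter fun c : ZMod N => s ∣ c.val ∧
    0 ≤ (c.val : ℤ) - lo t ∧ (c.val : ℤ) - lo t ≤ 2 * r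
  have hS : ∀ t, (S t).card ≤ 2 * r / s + 1 := by
    intro t
    rw [← card_range (2 * r / s + 1)]
    refine card_le_card_of_injOn (fun c => ((c.val : ℤ) - lo t).toNat / s) ?_ ?_
    · intro c hc
      have hc' := (mem_filter.1 (mem_coe.1 hc)).2
      rw [mem_coe, mem_range, Nat.lt_succ_iff]
      refine Nat.div_le_div_right ?_
      have h1 := hc'.2.1
      have h2 := hc'.2.2
      omega
    · intro a ha b hb hab
      have ha' := (mem_filter.1 (mem_coe.1 ha)).2
      have hb' := (mem_filter.1 (mem_coe.1 hb)).2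
      obtain ⟨k, hk⟩ := ha'.1
      obtain ⟨l, hl⟩ := hb'.1
      have hab' : ((a.val : ℤ) - lo t).toNat / s = ((b.val : ℤ) - lo t).toNat / s := hab
      apply ZMod.val_injective N
      have e1 := Nat.div_add_mod ((a.val : ℤ) - lo t).toNat s
      have e2 := Nat.div_add_mod ((b.val : ℤ) - lo t).toNat s
      have m1 := Nat.mod_lt ((a.val : ℤ) - lo t).toNat hs
      have m2 := Nat.mod_lt ((b.val : ℤ) - lo t).toNat hs
      rw [hab'] at e1
      have t1 := Int.toNat_of_nonneg ha'.2.1
      have t2 := Int.toNat_of_nonneg hb'.2.1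
      have h1 : (a.val : ℤ) - b.val < s := by omega
      have h2 : (b.val : ℤ) - a.val < s := by omega
      have h3 : (a.val : ℤ) - b.val = s * ((k : ℤ) - l) := by
        rw [hk, hl]
        push_cast
        ring
      have h4 : (k : ℤ) - l = 0 := by
        by_contra hne
        rcases lt_or_gt_of_ne hne with h | h
        · have : (s : ℤ) * ((k : ℤ) - l) ≤ s * (-1) := by
            apply mul_le_mul_of_nonneg_left _ (by positivity)
            omega
          omega
        · have : (s : ℤ) * 1 ≤ s * ((k : ℤ) - l) := by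
            apply mul_le_mul_of_nonneg_left _ (by positivity)
            omega
          omega
      rw [h4, mul_zero] at h3
      omega
  have hsub : (univ.filter fun c : ZMod N => s ∣ c.val ∧ (X - c).valMinAbs.natAbs ≤ r) ⊆
      ({-1, 0, 1} : Finset ℤ).biUnion S := by
    intro c hc
    rw [mem_filter] at hc
    obtain ⟨-, hcs, hcr⟩ := hc
    set m := (X - c).valMinAbs with hm
    have h1 : (((X.val : ℤ) - c.val - m : ℤ) : ZMod N) = 0 := by
      push_cast
      rw [hm, ZMod.coe_valMinAbs, ZMod.natCast_zmod_val, ZMod.natCast_zmod_val]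
      ring
    obtain ⟨t, ht⟩ := (ZMod.intCast_zmod_eq_zero_iff_dvd _ N).1 h1
    have hX := ZMod.val_lt X
    have hC := ZMod.val_lt c
    have hmN : m.natAbs ≤ N / 2 := ZMod.natAbs_valMinAbs_le (X - c)
    have hN : 0 < N := Nat.pos_of_ne_zero (NeZero.ne N)
    have h2 : -2 < t := by
      by_contra h
      push Not at h
      have : (N : ℤ) * t ≤ N * (-2) := mul_le_mul_of_nonneg_left h (by positivity)
      omega
    have h3 : t < 2 := by
      by_contra h
      push Not at h
      have : (N : ℤ) * 2 ≤ N * t := mul_le_mul_of_nonneg_left h (by positivity)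
      omega
    refine mem_biUnion.2 ⟨t, ?_, mem_filter.2 ⟨mem_univ _, hcs, ?_, ?_⟩⟩
    · rw [mem_insert, mem_insert, mem_singleton]
      omega
    · have : lo t = (X.val : ℤ) - t * N - r := rfl
      rw [this]
      have h4 : t * (N : ℤ) = N * t := mul_comm _ _
      omega
    · have : lo t = (X.val : ℤ) - t * N - r := rfl
      rw [this]
      have h4 : t * (N : ℤ) = N * t := mul_comm _ _
      omega
  refine (card_le_card hsub).trans (card_biUnion_le.trans ?_)
  refine (sum_le_card_nsmul _ _ (2 * r / s + 1) fun t _ => hS t).trans ?_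
  rw [smul_eq_mul]
  exact Nat.mul_le_mul_right _ (by decide)

/-- number of corners in a ball -/
theorem card_corners [NeZero N] {s : ℕ} (hs : 0 < s) (x : Tor d N) (r : ℕ) :
    (univ.filter fun c : Tor d N => cor s c = c ∧ dT x c ≤ r).card ≤ (3 * (2 * r / s + 1)) ^ d := by
  classical
  have h1 : (univ.filter fun c : Tor d N => cor s c = c ∧ dT x c ≤ r) ⊆
      Fintype.piFinset fun j : Fin d => univ.filter fun c : ZMod N =>
        s ∣ c.val ∧ (x j - c).valMinAbs.natAbs ≤ r := by
    intro c hc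
    rw [mem_filter] at hc
    rw [Fintype.mem_piFinset]
    intro j
    refine mem_filter.2 ⟨mem_univ _, ?_, (dT_le_iff x c r).1 hc.2.2 j⟩
    have h2 := cor_val s c j
    rw [hc.2.1] at h2
    exact ⟨_, h2⟩
  refine (card_le_card h1).trans ?_
  rw [Fintype.card_piFinset]
  refine (prod_le_pow_card _ _ _ fun j _ => card_mult hs (x j) r).trans ?_
  rw [card_univ, Fintype.card_fin]

/-! ### the geometry -/

/-- the geometry of the process on the torus -/
noncomputable def torGeo (d N : ℕ) (k0 : ℝ) (al J cs : ℕ) (v2 : ℝ) (nf : ℕ) : Geo (Tor d N) where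
  dist := dT
  cor j := cor (ANC.side k0 al j)
  side := ANC.side k0 al
  lv j := min (ANC.lv k0 al j) nf
  nf := nf
  R := ANC.hR k0 al v2
  rho := ANC.rho k0 al J
  D := ANC.dD k0 al
  sep := ANC.sep k0 al cs
  nbr := ANC.nbr k0 al
  J := J

/-- bound of the number of corners -/
def VV (d cs : ℕ) : ℕ := (3 * (2 * (4 + cs + 1) + 1)) ^ d

section

variable {k0 : ℝ} {al J cs : ℕ} {v2 : ℝ} {nf : ℕ}

theorem tor_cor [NeZero N] (j : ℕ) (x : Tor d N) :
    (torGeo d N k0 al J cs v2 nf).cor j ((torGeo d N k0 al J cs v2 nf).cor j x) =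
      (torGeo d N k0 al J cs v2 nf).cor j x := cor_idem _ x

theorem tor_symm [NeZero N] (x y : Tor d N) : (torGeo d N k0 al J cs v2 nf).dist x y =
    (torGeo d N k0 al J cs v2 nf).dist y x := nmet_dT.symm x y

theorem tor_self [NeZero N] (x : Tor d N) : (torGeo d N k0 al J cs v2 nf).dist x x = 0 :=
  nmet_dT.self x

theorem tor_tri [NeZero N] (x y z : Tor d N) : (torGeo d N k0 al J cs v2 nf).dist x z ≤
    (torGeo d N k0 al J cs v2 nf).dist x y + (torGeo d N k0 al J cs v2 nf).dist y z :=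
  nmet_dT.tri x y z

theorem tor_lv_mono (hk : 0 < k0) (hk1 : k0 < 1) (hal : 2 ≤ al) :
    Monotone (torGeo d N k0 al J cs v2 nf).lv := fun _ _ h =>
  min_le_min ((ANC.lv_mono hk hk1 hal).monotone h) le_rfl

theorem tor_lv_le (j : ℕ) : (torGeo d N k0 al J cs v2 nf).lv j ≤
    (torGeo d N k0 al J cs v2 nf).nf := min_le_right _ _

/-- corners in a ball, in units of `side j` -/
theorem tor_card [NeZero N] (j : ℕ) (x : Tor d N) (r : ℕ) :
    (univ.filter fun c => (torGeo d N k0 al J cs v2 nf).cor j c = c ∧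
      (torGeo d N k0 al J cs v2 nf).dist x c ≤ r).card ≤
      (3 * (2 * r / ANC.side k0 al j + 1)) ^ d := card_corners (ANC.side_pos k0 al j) x r

/-- THE CONDITIONS `GPar.Ok` ON THE TORUS -/
theorem par_ok (d J cs : ℕ) {al : ℕ} (hal : 2 ≤ al) {v2 : ℝ} (hv : 0 ≤ v2) (hv1 : v2 ≤ 1) :
    ∀ᶠ k0 in 𝓝[>] (0 : ℝ), ∀ (N nf : ℕ) [NeZero N],
      ((torGeo d N k0 al J cs v2 nf).par (ANC.dW k0 al) (VV d cs)).Ok := by
  filter_upwards [ANC.len_ok J (VV d cs) cs hal hv hv1] with k0 h N nf _
  refine ⟨nmet_dT, fun j x => ?_, fun j x => cor_idem _ x, fun j => (h j).1, fun j => (h j).2.1,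
    fun j => (h j).2.2.1, fun j x => ?_, fun j => (h j).2.2.2⟩
  · exact (dT_cor (ANC.side_pos k0 al j) x).trans (Nat.sub_le _ _)
  · refine (card_corners (ANC.side_pos k0 al j) x _).trans ?_
    have hs := ANC.side_pos k0 al j
    have h1 : ((torGeo d N k0 al J cs v2 nf).par (ANC.dW k0 al) (VV d cs)).W j +
        ((torGeo d N k0 al J cs v2 nf).par (ANC.dW k0 al) (VV d cs)).sep j +
        ((torGeo d N k0 al J cs v2 nf).par (ANC.dW k0 al) (VV d cs)).side j =
          (4 + cs + 1) * ANC.side k0 al j := by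
      have e1 : ((torGeo d N k0 al J cs v2 nf).par (ANC.dW k0 al) (VV d cs)).W j =
        4 * ANC.side k0 al j := rfl
      have e2 : ((torGeo d N k0 al J cs v2 nf).par (ANC.dW k0 al) (VV d cs)).sep j =
        cs * ANC.side k0 al j := rfl
      have e3 : ((torGeo d N k0 al J cs v2 nf).par (ANC.dW k0 al) (VV d cs)).side j =
        ANC.side k0 al j := rfl
      rw [e1, e2, e3]
      ring
    rw [h1, ← mul_assoc, Nat.mul_div_cancel _ hs]
    exact le_refl _

/-- separation and neighbourhoods -/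
theorem tor_sep (J cs : ℕ) (hcs : 24 ≤ cs) {al : ℕ} (hal : 2 ≤ al) {v2 : ℝ} (hv : 0 ≤ v2)
    (hv1 : v2 ≤ 1) : ∀ᶠ k0 in 𝓝[>] (0 : ℝ), ∀ (d N nf : ℕ) (j : ℕ),
      2 * (torGeo d N k0 al J cs v2 nf).nbr (j + 1) + (torGeo d N k0 al J cs v2 nf).sep j ≤
        (torGeo d N k0 al J cs v2 nf).sep (j + 1) ∧
      2 * (torGeo d N k0 al J cs v2 nf).nbr (j + 1) ≤ (torGeo d N k0 al J cs v2 nf).sep (j + 1) := by
  filter_upwards [ANC.len_ok J 1 cs hal hv hv1] with k0 h d N nf j
  have h1 := (h j).2.2.1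
  have h2 := (h j).2.2.2
  have e1 : (torGeo d N k0 al J cs v2 nf).nbr (j + 1) = 6 * ANC.side k0 al (j + 1) := rfl
  have e2 : (torGeo d N k0 al J cs v2 nf).sep j = cs * ANC.side k0 al j := rfl
  have e3 : (torGeo d N k0 al J cs v2 nf).sep (j + 1) = cs * ANC.side k0 al (j + 1) := rfl
  rw [e1, e2, e3]
  have h3 : 2 * ANC.side k0 al j ≤ ANC.side k0 al (j + 1) := by
    refine le_trans ?_ h2
    have h4 : 1 * (2 * ANC.side k0 al j) ≤ 2 ^ (j + 2) * (J * 1 + 1) *
        (2 * ANC.hR k0 al v2 (j + 1) + 2 * ANC.side k0 al j + 2) := by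
      apply Nat.mul_le_mul
      · exact Nat.one_le_iff_ne_zero.2 (by positivity)
      · omega
    omega
  have h5 : cs * (2 * ANC.side k0 al j) ≤ cs * ANC.side k0 al (j + 1) := Nat.mul_le_mul_left _ h3
  have h6 : 24 * ANC.side k0 al (j + 1) ≤ cs * ANC.side k0 al (j + 1) := Nat.mul_le_mul_right _ hcs
  have h7 : cs * (2 * ANC.side k0 al j) = 2 * (cs * ANC.side k0 al j) := by ring
  constructor <;> omega

/-- number of the `J`-subsets of the neighbourhood -/
theorem tor_nbc [NeZero N] (j : ℕ) (L : Tor d N)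
    (hside : ANC.side k0 al j ≤ ANC.side k0 al (j + 1)) :
    ((((torGeo d N k0 al J cs v2 nf).nb j L).powersetCard
      (torGeo d N k0 al J cs v2 nf).J).card : ℝ) ≤ ((39 * (ANC.side k0 al (j + 1) : ℝ)) ^ d) ^ J := by
  classical
  have hs := ANC.side_pos k0 al j
  have h1 : ((torGeo d N k0 al J cs v2 nf).nb j L).card ≤ (39 * ANC.side k0 al (j + 1)) ^ d := by
    have h2 : (torGeo d N k0 al J cs v2 nf).nb j L ⊆ univ.filter fun c : Tor d N =>
        cor (ANC.side k0 al j) c = c ∧ dT L c ≤ 6 * ANC.side k0 al (j + 1) := by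
      intro c hc
      unfold Geo.nb at hc
      rw [mem_filter, Geo.mem_corners] at hc
      refine mem_filter.2 ⟨mem_univ _, hc.1, ?_⟩
      rw [nmet_dT.symm]
      exact hc.2
    refine (card_le_card h2).trans ((card_corners hs L _).trans ?_)
    apply Nat.pow_le_pow_left
    have h3 : 2 * (6 * ANC.side k0 al (j + 1)) / ANC.side k0 al j ≤
        2 * (6 * ANC.side k0 al (j + 1)) := Nat.div_le_self _ _
    omega
  have h4 : (((torGeo d N k0 al J cs v2 nf).nb j L).powersetCard
      (torGeo d N k0 al J cs v2 nf).J).card ≤ ((39 * ANC.side k0 al (j + 1)) ^ d) ^ J := by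
    rw [card_powersetCard]
    exact (Nat.choose_le_pow _ _).trans (Nat.pow_le_pow_left h1 J)
  exact_mod_cast h4

end

end Pool.Agent.ANQ
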