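import Pool.Agent.AND.Good
import Pool.Agent.ANP.Prob

/-! # ANQ / Proc: THE ALGORITHM (sequential version, helper47; and_full.md v3 section 4)

One finite deterministic recursion on one torus; everything below is a function of the configuration
`v : T → X`.

GEOMETRY (`Geo`): `dist`; cells of super-stage `j` = fibres of the corner map `cor j` (cells are
represented by their corners); `side j`; `lv j` the digit level at the start of super-stage `j`,
`nf` the last digit level; `R j` the radius of the holes made at the end of super-stage `j`;
`rho j` the link distance of the clusters of static sites; `D j` the distance to the newly frozen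
cells below which a cluster is kept; `sep j` the separation (in sites) and `nbr j` the radius of
the neighbourhood in the definition of the cells which are frozen at the start; `J` the number of
separated bad cells which freeze a cell.

ANALYSIS (`Ana`): `q` the digits; `wk n a`: a site with value `a` is weak (inert) at the level `n`
(uniform law: never); `sgv π v` the current self-energies `κ_x γ_x` of the medium of the profile
`π` at `v`; `ACC j i π v`: the step `i` of super-stage `j` (level `sn j i`, cell `sL j i`) from the
profile `π` is accepted; `LK j S don π F v`: the leak test of the cluster `F` of static sites, `π` =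
current profile, `don` = clusters inserted before in this super-stage (the test may use the complete
potentials on `nbhd (R j) F`); `PR j S L v`: the cell `L` is bad at the start.

STATE at the start of super-stage `j` (`St`): the profile and the bad cells of super-stage
`j - 1`.  STATIC SITES of a profile = sites which are neither active nor read nor inert; at the
start of super-stage `j` they are the blobs of age `j - 1`.

SUPER-STAGE `j`.
1. `preS`: the cells with `PR` or with `J` separated bad cells of the previous super-stage near
   them; their active sites become static.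
2. `cur i`: after the first `i` steps; the steps are the pairs (level `n`, cell `L`), `lv j ≤ n <
   lv (j + 1)`.  Nothing happens if `L` is frozen; accepted: the active sites of `L` go to the
   level `n + 1` (and become inert if weak); rejected: they become static with their current
   self-energies and `L` is frozen.
3. `keep1`: clusters within `D j` of a frozen cell, nothing is read there.  `icur k`: loop over the
   other clusters `F` (`cands`), in the CURRENT profile: if `LK` holds, `nbhd (R j) F` is read
   completely (annulus and content), otherwise `F` is kept (`keep2`) and nothing is read.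
   At the end the active sites of the `R`-neighbourhoods of the kept clusters become static.
4. bad cells of super-stage `j`: frozen cells and cells which contain a site of `keep2`.
-/

set_option autoImplicit false

open Finset

namespace Pool.Agent.ANQ

open Pool.Agent.ANP (IsLaw Pr wt)
open Pool.Agent.AND (Prof)

/-- geometry and parameters of the algorithm -/
structure Geo (T : Type) where
  dist : T → T → ℕ
  cor : ℕ → T → T
  side : ℕ → ℕ
  lv : ℕ → ℕ
  nf : ℕ
  R : ℕ → ℕ
  rho : ℕ → ℕ
  D : ℕ → ℕ
  sep : ℕ → ℕ
  nbr : ℕ → ℕ
  J : ℕ

/-- a state at the start of a super-stage -/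
structure St (T : Type) where
  pi : Prof T
  bd : Finset T

/-- a state inside the reading of a super-stage -/
structure Cur (T : Type) where
  pi : Prof T
  fz : Finset T

/-- a state inside the loop of the insertions: profile, inserted clusters, kept clusters -/
structure ICur (T : Type) where
  pi : Prof T
  don : Finset (Finset T)
  fl : Finset (Finset T)

/-- the analytic input of the algorithm -/
structure Ana (T X : Type) where
  q : ℕ → X → ℤ
  wk : ℕ → X → Prop
  sgv : Prof T → (T → X) → T → ℂ
  ACC : ℕ → ℕ → Prof T → (T → X) → Prop
  LK : ℕ → St T → Finset (Finset T) → Prof T → Finset T → (T → X) → Prop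
  PR : ℕ → St T → T → (T → X) → Prop

variable {T X : Type} [Fintype T] [DecidableEq T]

/-- the static sites of a profile -/
def stat (π : Prof T) : Finset T := (π.act ∪ (π.rd ∪ π.ine))ᶜ

/-- the active sites outside `N` become static -/
def freeze (A : Ana T X) (π : Prof T) (v : T → X) (N : Finset T) : Prof T where
  lev := π.lev
  act := π.act ∩ N
  rd := π.rd
  ine := π.ine
  sg := fun x => if x ∈ π.act ∧ x ∉ N then A.sgv π v x else π.sg x

open Classical in
/-- the sites of `B` which are weak at the level `n` -/
noncomputable def weak (A : Ana T X) (n : ℕ) (v : T → X) (B : Finset T) : Finset T :=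
  B.filter fun x => A.wk n (v x)

/-- the active sites in `L` go to level `n` -/
noncomputable def raise (A : Ana T X) (π : Prof T) (n : ℕ) (L : Finset T) (v : T → X) :
    Prof T where
  lev := fun x => if x ∈ π.act ∩ L then n else π.lev x
  act := π.act \ weak A n v (π.act ∩ L)
  rd := π.rd
  ine := π.ine ∪ weak A n v (π.act ∩ L)
  sg := π.sg

/-- the sites of `U` are read completely -/
def read (π : Prof T) (nf : ℕ) (U : Finset T) : Prof T where
  lev := fun x => if x ∈ U then nf else π.lev x
  act := π.act \ U
  rd := π.rd ∪ U
  ine := π.ine \ U
  sg := fun x => if x ∈ U then 0 else π.sg x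

namespace Geo

variable (g : Geo T) (A : Ana T X)

open Classical in
/-- the closed `r`-neighbourhood of `B` -/
noncomputable def nbhd (r : ℕ) (B : Finset T) : Finset T :=
  univ.filter fun x => ∃ y ∈ B, g.dist x y ≤ r

/-- the sites of the cell with corner `c` -/
def cell (j : ℕ) (c : T) : Finset T := univ.filter fun x => g.cor j x = c

/-- the corners = the cells of super-stage `j` -/
def corners (j : ℕ) : Finset T := univ.filter fun c => g.cor j c = c

/-- the sites of the cells in `P` -/
def sites (j : ℕ) (P : Finset T) : Finset T := univ.filter fun x => g.cor j x ∈ P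

/-- the cells of `P` are separated -/
def Sep (j : ℕ) (P : Finset T) : Prop := ∀ a ∈ P, ∀ b ∈ P, a ≠ b → g.sep j < g.dist a b

/-- `J` separated bad cells of the previous super-stage are near the cell `L` -/
def Many (j : ℕ) (bd : Finset T) (L : T) : Prop :=
  ∃ P ⊆ bd, P.card = g.J ∧ g.Sep (j - 1) P ∧ ∀ a ∈ P, g.dist a L ≤ g.nbr j

open Classical in
/-- the cells which are frozen at the start of super-stage `j` -/
noncomputable def preS (j : ℕ) (S : St T) (v : T → X) : Finset T :=
  (g.corners j).filter fun L => A.PR j S L v ∨ g.Many j S.bd L

/-- the first current state of super-stage `j` -/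
noncomputable def cur0 (j : ℕ) (S : St T) (v : T → X) : Cur T where
  pi := freeze A S.pi v (g.sites j (g.preS A j S v))ᶜ
  fz := g.preS A j S v

/-- the number of the cells of super-stage `j` -/
def nc (j : ℕ) : ℕ := (g.corners j).card

/-- the list of the cells of super-stage `j` -/
noncomputable def clist (j : ℕ) : List T := (g.corners j).toList

/-- the number of the steps of super-stage `j` -/
def ns (j : ℕ) : ℕ := (g.lv (j + 1) - g.lv j) * g.nc j

/-- the level of the step `i` of super-stage `j` -/
def sn (j i : ℕ) : ℕ := g.lv j + i / g.nc j

/-- the cell of the step `i` of super-stage `j` -/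
noncomputable def sL [Nonempty T] (j i : ℕ) : T :=
  (g.clist j).getD (i % g.nc j) (Classical.arbitrary T)

variable [Nonempty T]

/-- the profile after the step `i` if it is accepted -/
noncomputable def up (j i : ℕ) (π : Prof T) (v : T → X) : Prof T :=
  raise A π (g.sn j i + 1) (g.cell j (g.sL j i)) v

open Classical in
/-- the step `i` of super-stage `j` -/
noncomputable def stp (j i : ℕ) (c : Cur T) (v : T → X) : Cur T :=
  if g.sL j i ∈ c.fz then c
  else if A.ACC j i c.pi v then ⟨g.up A j i c.pi v, c.fz⟩
  else ⟨freeze A c.pi v (g.cell j (g.sL j i))ᶜ, insert (g.sL j i) c.fz⟩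

/-- the state after `i` steps of super-stage `j` -/
noncomputable def cur (j : ℕ) (S : St T) (v : T → X) : ℕ → Cur T
  | 0 => g.cur0 A j S v
  | i + 1 => g.stp A j i (cur j S v i) v

/-- the state at the end of the reading of super-stage `j` -/
noncomputable def fin (j : ℕ) (S : St T) (v : T → X) : Cur T := g.cur A j S v (g.ns j)

/-- the step `i` is a rejection -/
def Rej (j : ℕ) (S : St T) (v : T → X) (i : ℕ) : Prop :=
  g.sL j i ∉ (g.cur A j S v i).fz ∧ ¬ A.ACC j i (g.cur A j S v i).pi v

/-- two sites of `B` are in the same cluster -/
def Con (r : ℕ) (B : Finset T) : T → T → Prop :=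
  Relation.ReflTransGen fun x y => x ∈ B ∧ y ∈ B ∧ g.dist x y ≤ r

open Classical in
/-- the cluster of the static site `x` -/
noncomputable def clu (j : ℕ) (S : St T) (x : T) : Finset T :=
  (stat S.pi).filter fun y => g.Con (g.rho j) (stat S.pi) x y

open Classical in
/-- the static sites whose cluster is near a frozen cell -/
noncomputable def keep1 (j : ℕ) (S : St T) (v : T → X) : Finset T :=
  (stat S.pi).filter fun x => ∃ y ∈ g.clu j S x, ∃ z ∈ g.sites j (g.fin A j S v).fz,
    g.dist y z ≤ g.D j

/-- the static sites of the clusters which are tested -/
noncomputable def cand (j : ℕ) (S : St T) (v : T → X) : Finset T := stat S.pi \ g.keep1 A j S v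

/-- the clusters which are tested -/
noncomputable def cands (j : ℕ) (S : St T) (v : T → X) : Finset (Finset T) :=
  (g.cand A j S v).image (g.clu j S)

/-- the list of the clusters which are tested -/
noncomputable def ilist (j : ℕ) (S : St T) (v : T → X) : List (Finset T) :=
  (g.cands A j S v).toList

omit [Nonempty T] in
open Classical in
/-- the insertion of the cluster `F` -/
noncomputable def istp (j : ℕ) (S : St T) (F : Finset T) (c : ICur T) (v : T → X) : ICur T :=
  if A.LK j S c.don c.pi F v then ⟨read c.pi g.nf (g.nbhd (g.R j) F), insert F c.don, c.fl⟩
  else ⟨c.pi, c.don, insert F c.fl⟩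

/-- the state after `k` insertions -/
noncomputable def icur (j : ℕ) (S : St T) (v : T → X) : ℕ → ICur T
  | 0 => ⟨(g.fin A j S v).pi, ∅, ∅⟩
  | k + 1 =>
    if h : k < (g.ilist A j S v).length then
      g.istp A j S ((g.ilist A j S v)[k]) (icur j S v k) v
    else icur j S v k

/-- the number of the insertions -/
noncomputable def ni (j : ℕ) (S : St T) (v : T → X) : ℕ := (g.ilist A j S v).length

/-- the state at the end of the loop of the insertions -/
noncomputable def ifin (j : ℕ) (S : St T) (v : T → X) : ICur T := g.icur A j S v (g.ni A j S v)

/-- the static sites whose cluster fails the leak test -/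
noncomputable def keep2 (j : ℕ) (S : St T) (v : T → X) : Finset T :=
  (g.ifin A j S v).fl.biUnion id

/-- the static sites which are inserted -/
noncomputable def ins (j : ℕ) (S : St T) (v : T → X) : Finset T :=
  (g.ifin A j S v).don.biUnion id

/-- the profile at the start of super-stage `j + 1` -/
noncomputable def nextP (j : ℕ) (S : St T) (v : T → X) : Prof T :=
  freeze A (g.ifin A j S v).pi v (g.nbhd (g.R j) (g.keep1 A j S v ∪ g.keep2 A j S v))ᶜ

open Classical in
/-- the cells which contain a site of a cluster with failing leak test -/
noncomputable def lkS (j : ℕ) (S : St T) (v : T → X) : Finset T :=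
  (g.corners j).filter fun L => ∃ x ∈ g.keep2 A j S v, g.cor j x = L

/-- the bad cells of super-stage `j` -/
noncomputable def bad (j : ℕ) (S : St T) (v : T → X) : Finset T :=
  (g.fin A j S v).fz ∪ g.lkS A j S v

/-- the state at the start of super-stage `j + 1` -/
noncomputable def next (j : ℕ) (S : St T) (v : T → X) : St T where
  pi := g.nextP A j S v
  bd := g.bad A j S v

omit [Nonempty T] in
/-- the first state -/
noncomputable def start (v : T → X) : St T where
  pi := { lev := fun _ => g.lv 0, act := univ \ weak A (g.lv 0) v univ, rd := ∅,
          ine := weak A (g.lv 0) v univ, sg := fun _ => 0 }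
  bd := ∅

/-- the state at the start of super-stage `j` -/
noncomputable def run : ℕ → (T → X) → St T
  | 0, v => g.start A v
  | j + 1, v => g.next A j (run j v) v

/-- the state after `i` steps of super-stage `j` of the algorithm -/
noncomputable def crun (j i : ℕ) (v : T → X) : Cur T := g.cur A j (g.run A j v) v i

/-- the state after `k` insertions at the end of super-stage `j` of the algorithm -/
noncomputable def irun (j k : ℕ) (v : T → X) : ICur T := g.icur A j (g.run A j v) v k

end Geo

/-- the same digits at the levels `lev` -/
def Ag (q : ℕ → X → ℤ) (lev : T → ℕ) (v v' : T → X) : Prop := ∀ x, q (lev x) (v x) = q (lev x) (v' x)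

/-- the class of `v` for a profile: equal off the active sites, the same digits on them -/
def Cls (q : ℕ → X → ℤ) (π : Prof T) (v : T → X) : Set (T → X) :=
  {v' | (∀ x ∈ π.act, q (π.lev x) (v' x) = q (π.lev x) (v x)) ∧ ∀ x, x ∉ π.act → v' x = v x}

/-- the locality of the analytic input -/
structure Loc [Nonempty T] (g : Geo T) (A : Ana T X) : Prop where
  refine : ∀ n n' a b, n ≤ n' → A.q n' a = A.q n' b → A.q n a = A.q n b
  top : ∀ a b, A.q g.nf a = A.q g.nf b → a = b
  wk : ∀ n a b, A.q n a = A.q n b → (A.wk n a ↔ A.wk n b)
  lv_mono : Monotone g.lv
  lv_le : ∀ j, g.lv j ≤ g.nf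
  sgv : ∀ π v v', Ag A.q π.lev v v' → A.sgv π v = A.sgv π v'
  ACC : ∀ j i π v v', Ag A.q (g.up A j i π v).lev v v' → (A.ACC j i π v ↔ A.ACC j i π v')
  LK : ∀ j S don π F v v',
    Ag A.q (fun x => if x ∈ g.nbhd (g.R j) F then g.nf else π.lev x) v v' →
    (A.LK j S don π F v ↔ A.LK j S don π F v')
  PR : ∀ j S L v v', v' ∈ Cls A.q S.pi v → (A.PR j S L v ↔ A.PR j S L v')

end Pool.Agent.ANQ
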