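import Pool.Agent.ANQ.HistProc

/-! # ANQ / NearProc: holes and neighbourhoods of candidate clusters in the process

`run_rd`, `icur_rd`, `ann_piece`: read sites (and annuli of candidates) are in the pieces of `Hist`.
`near_*`: for a tested cluster `F` and sites at distance `≤ r` from `F`, `r ≤ D j`,
`r + R j ≤ rho j`: no frozen cell, no other static site, the current profile at the test of `F` is
the profile of the end of the reading, every site outside `F` is active (level `lv (j + 1)`), inert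
or was read before super-stage `j`.
-/

set_option autoImplicit false
set_option linter.unusedSectionVars false

open Finset

namespace Pool.Agent.ANQ

open Pool.Agent.ANP (IsLaw Pr wt)
open Pool.Agent.AND (Prof)
open Pool.Agent.ANM

variable {T X : Type} [Fintype T] [DecidableEq T] [Fintype X] [DecidableEq X]

namespace Geo

variable {g : Geo T} {A : Ana T X} [Nonempty T]

/-! ### the read sites -/

/-- the read sites during the insertions -/
theorem icur_rd_sub (hs : ∀ x y, g.dist x y = g.dist y x) (j : ℕ) (S : St T) (v : T → X) (k : ℕ) :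
    (g.icur A j S v k).pi.rd ⊆ S.pi.rd ∪ g.nbhd (g.R j) (g.cand A j S v) := by
  classical
  rw [(icur_prof j S v k).1]
  have h0 : (g.fin A j S v).pi.rd = S.pi.rd := cur_rd j S v _
  rw [h0]
  refine union_subset_union subset_rfl fun x hx => ?_
  obtain ⟨F, hF, hx⟩ := mem_biUnion.1 hx
  obtain ⟨y, hy, hxy⟩ := mem_nbhd.1 hx
  exact mem_nbhd.2 ⟨y, (mem_cand_iff hs).2 ⟨F, (icur_sub j S v k).1 hF, hy⟩, hxy⟩

theorem run_rd_succ (hs : ∀ x y, g.dist x y = g.dist y x) (j : ℕ) (v : T → X) :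
    (g.run A (j + 1) v).pi.rd ⊆
      (g.run A j v).pi.rd ∪ g.nbhd (g.R j) (g.cand A j (g.run A j v) v) :=
  icur_rd_sub hs j _ v _

section hist

variable (hc : ∀ j x, g.cor j (g.cor j x) = g.cor j x) (hd : ∀ x, g.dist x x = 0)
  (hs : ∀ x y, g.dist x y = g.dist y x) (W : ℕ → ℕ) (V : ℕ)

/-- the annulus of a candidate is in a piece -/
theorem ann_piece (j : ℕ) (v : T → X) {n : ℕ} (hn : j ≤ n) {x : T}
    (hx : x ∈ g.nbhd (g.R j) (g.cand A j (g.run A j v) v)) :
    ∃ k, x ∈ (g.hist A hc hd hs W V v).piece n k := by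
  obtain ⟨y, hy, hxy⟩ := mem_nbhd.1 hx
  cases j with
  | zero =>
    have h1 : y ∈ (g.hist A hc hd hs W V v).st 0 := (mem_cand.1 hy).1
    rw [(g.hist A hc hd hs W V v).st0] at h1
    exact absurd h1 (notMem_empty y)
  | succ i => exact ⟨(⟨i, hn⟩, g.cor i y), y, hy, rfl, hxy⟩

/-- the read sites are in the pieces of the holes -/
theorem run_rd (j : ℕ) (v : T → X) {n : ℕ} (hn : j ≤ n + 1) {x : T}
    (hx : x ∈ (g.run A j v).pi.rd) : ∃ k, x ∈ (g.hist A hc hd hs W V v).piece n k := by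
  induction j with
  | zero =>
    have h : (g.run A 0 v).pi.rd = ∅ := rfl
    rw [h] at hx
    exact absurd hx (notMem_empty x)
  | succ j ih =>
    rcases mem_union.1 (run_rd_succ hs j v hx) with h | h
    · exact ih (by omega) h
    · exact ann_piece hc hd hs W V j v (by omega) h

/-- the read sites during the insertions are in the pieces of the holes -/
theorem icur_rd (j : ℕ) (v : T → X) {n : ℕ} (hn : j ≤ n) (k : ℕ) {x : T}
    (hx : x ∈ (g.irun A j k v).pi.rd) : ∃ k, x ∈ (g.hist A hc hd hs W V v).piece n k := by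
  rcases mem_union.1 (icur_rd_sub hs j _ v k hx) with h | h
  · exact run_rd hc hd hs W V j v (by omega) h
  · exact ann_piece hc hd hs W V j v hn h

end hist

/-! ### near a candidate -/

/-- the cells near a candidate are not frozen -/
theorem near_fz {j : ℕ} {S : St T} {v : T → X} {y : T} (hy : y ∈ g.cand A j S v) {x : T}
    (hs : ∀ x y, g.dist x y = g.dist y x) (hxy : g.dist x y ≤ g.D j) :
    g.cor j x ∉ (g.fin A j S v).fz := by
  intro h
  obtain ⟨h1, h2⟩ := mem_cand.1 hy
  exact h2 (mem_keep1.2 ⟨h1, y, mem_clu_self h1, x, mem_sites.2 h, by rw [hs]; exact hxy⟩)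

/-- static sites near a cluster are in the cluster -/
theorem near_stat (hs : ∀ x y, g.dist x y = g.dist y x) {j : ℕ} {S : St T} {v : T → X}
    {F : Finset T} (hF : F ∈ g.cands A j S v) {x y : T} (hy : y ∈ F) (hx : x ∈ stat S.pi)
    (hxy : g.dist x y ≤ g.rho j) : x ∈ F := by
  have h1 := cands_eq hs hF hy
  have h2 : y ∈ stat S.pi := cand_sub hF hy
  rw [h1]
  refine mem_clu.2 ⟨hx, Relation.ReflTransGen.single ⟨h2, hx, ?_⟩⟩
  rw [hs]
  exact hxy

/-- different tested clusters are far apart -/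
theorem cands_far (hs : ∀ x y, g.dist x y = g.dist y x) {j : ℕ} {S : St T} {v : T → X}
    {F F' : Finset T} (hF : F ∈ g.cands A j S v) (hF' : F' ∈ g.cands A j S v) (hne : F ≠ F')
    {x y : T} (hx : x ∈ F) (hy : y ∈ F') : g.rho j < g.dist x y := by
  by_contra h
  push Not at h
  have h1 : x ∈ F' := near_stat hs hF' hy (cand_sub hF hx) h
  exact hne ((cands_eq hs hF hx).trans (cands_eq hs hF' h1).symm)

/-- the cluster which is tested next is not yet inserted -/
theorem don_ne {j : ℕ} {S : St T} {v : T → X} {k : ℕ} (hk : k < (g.ilist A j S v).length) {i : ℕ}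
    (hi : i ≤ k) : ∀ F' ∈ (g.icur A j S v i).don, F' ≠ (g.ilist A j S v)[k] := by
  intro F' hF' h
  obtain ⟨a, ha, hai, h1⟩ := (icur_disj (g := g) (A := A) j S v i).2 F' (mem_union_left _ hF')
  have hn : (g.ilist A j S v).Nodup := nodup_toList _
  have := (hn.getElem_inj_iff (hi := ha) (hj := hk)).1 (h1.trans h)
  omega

/-- far from the other clusters nothing has been read before the test of `F` -/
theorem near_don (hs : ∀ x y, g.dist x y = g.dist y x)
    (ht : ∀ x y z, g.dist x z ≤ g.dist x y + g.dist y z) {j : ℕ} {S : St T} {v : T → X} {k : ℕ}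
    (hk : k < (g.ilist A j S v).length) {x y : T} (hy : y ∈ (g.ilist A j S v)[k])
    (hxy : g.dist x y + g.R j ≤ g.rho j) :
    x ∉ (g.icur A j S v k).don.biUnion (g.nbhd (g.R j)) := by
  classical
  intro h
  obtain ⟨F', hF', hx⟩ := mem_biUnion.1 h
  obtain ⟨z, hz, hxz⟩ := mem_nbhd.1 hx
  have h1 := cands_far hs ((icur_sub j S v k).1 hF') (mem_toList.1 (List.getElem_mem hk))
    (don_ne hk le_rfl F' hF') hz hy
  have h2 := ht z x y
  have h3 := hs z x
  omega

/-- the profile near a candidate at the end of the reading -/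
theorem near_fin (hc : ∀ j x, g.cor j (g.cor j x) = g.cor j x) (hm : Monotone g.lv)
    (hs : ∀ x y, g.dist x y = g.dist y x) {j : ℕ} {S : St T}
    (hS : ∀ x ∈ S.pi.act, S.pi.lev x = g.lv j) {v : T → X} {x y : T}
    (hy : y ∈ g.cand A j S v) (hxy : g.dist x y ≤ g.D j) :
    (x ∈ S.pi.act → (x ∈ (g.fin A j S v).pi.act ∧ (g.fin A j S v).pi.lev x = g.lv (j + 1)) ∨
      x ∈ (g.fin A j S v).pi.ine) ∧
    (x ∉ S.pi.act → x ∉ (g.fin A j S v).pi.act ∧ (g.fin A j S v).pi.lev x = S.pi.lev x ∧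
      (x ∈ (g.fin A j S v).pi.ine ↔ x ∈ S.pi.ine)) ∧
    (g.fin A j S v).pi.sg x = S.pi.sg x ∧ (g.fin A j S v).pi.rd = S.pi.rd := by
  have h1 := near_fz hy hs hxy
  refine ⟨fun hx => ?_, fun hx => ?_, ?_, cur_rd j S v _⟩
  · rcases (cur_new j S v _ hx h1).1 with h | h
    · exact Or.inl ⟨h, fin_lev hc hm j S hS v x h⟩
    · exact Or.inr h
  · obtain ⟨h2, h3, h4, h5⟩ := cur_old (g := g) (A := A) j S v (g.ns j) hx
    exact ⟨h2, h3, h5⟩
  · by_cases hx : x ∈ S.pi.act
    · exact (cur_new j S v _ hx h1).2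
    · exact (cur_old j S v _ hx).2.2.1

/-- the current profile near the cluster which is tested is the profile at the end of the reading -/
theorem near_icur (hs : ∀ x y, g.dist x y = g.dist y x)
    (ht : ∀ x y z, g.dist x z ≤ g.dist x y + g.dist y z) {j : ℕ} {S : St T} {v : T → X} {k : ℕ}
    (hk : k < (g.ilist A j S v).length) {x y : T} (hy : y ∈ (g.ilist A j S v)[k])
    (hxy : g.dist x y + g.R j ≤ g.rho j) :
    (x ∈ (g.icur A j S v k).pi.act ↔ x ∈ (g.fin A j S v).pi.act) ∧
    (x ∈ (g.icur A j S v k).pi.rd ↔ x ∈ S.pi.rd) ∧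
    (x ∈ (g.icur A j S v k).pi.ine ↔ x ∈ (g.fin A j S v).pi.ine) ∧
    (g.icur A j S v k).pi.lev x = (g.fin A j S v).pi.lev x ∧
    (g.icur A j S v k).pi.sg x = (g.fin A j S v).pi.sg x := by
  classical
  have h := near_don hs ht hk hy hxy
  obtain ⟨h1, h2, h3, h4⟩ := icur_prof (g := g) (A := A) j S v k
  have h0 : (g.fin A j S v).pi.rd = S.pi.rd := cur_rd j S v _
  refine ⟨?_, ?_, ?_, (h4 x h).1, (h4 x h).2⟩
  · rw [h2, mem_sdiff]
    exact ⟨fun h => h.1, fun h' => ⟨h', h⟩⟩
  · rw [h1, h0, mem_union]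
    exact ⟨fun h' => h'.resolve_right h, Or.inl⟩
  · rw [h3, mem_sdiff]
    exact ⟨fun h => h.1, fun h' => ⟨h', h⟩⟩

/-- every site near the cluster which is tested is in the cluster, active (with level `lv (j + 1)`),
inert, or was read before super-stage `j` -/
theorem near_cases (hc : ∀ j x, g.cor j (g.cor j x) = g.cor j x) (hm : Monotone g.lv)
    (hs : ∀ x y, g.dist x y = g.dist y x)
    (ht : ∀ x y z, g.dist x z ≤ g.dist x y + g.dist y z) {j : ℕ} {S : St T}
    (hS : ∀ x ∈ S.pi.act, S.pi.lev x = g.lv j) {v : T → X} {k : ℕ}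
    (hk : k < (g.ilist A j S v).length) {x y : T} (hy : y ∈ (g.ilist A j S v)[k])
    (hD : g.dist x y ≤ g.D j) (hxy : g.dist x y + g.R j ≤ g.rho j) :
    x ∈ (g.ilist A j S v)[k] ∨
      (x ∈ (g.icur A j S v k).pi.act ∧ (g.icur A j S v k).pi.lev x = g.lv (j + 1)) ∨
      x ∈ (g.icur A j S v k).pi.ine ∨ x ∈ S.pi.rd := by
  have hF : (g.ilist A j S v)[k] ∈ g.cands A j S v := mem_toList.1 (List.getElem_mem hk)
  have hyc : y ∈ g.cand A j S v := (mem_cand_iff hs).2 ⟨_, hF, hy⟩
  obtain ⟨h1, h2, h3, h4⟩ := near_fin hc hm hs hS hyc hD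
  obtain ⟨i1, i2, i3, i4, i5⟩ := near_icur hs ht hk hy hxy
  rw [i1, i3, i4]
  by_cases hxs : x ∈ stat S.pi
  · exact Or.inl (near_stat hs hF hy hxs (by omega))
  · by_cases hxa : x ∈ S.pi.act
    · rcases h1 hxa with h | h
      · exact Or.inr (Or.inl h)
      · exact Or.inr (Or.inr (Or.inl h))
    · by_cases hxr : x ∈ S.pi.rd
      · exact Or.inr (Or.inr (Or.inr hxr))
      · have hxi : x ∈ S.pi.ine := by
          by_contra h
          exact hxs (mem_stat.2 ⟨hxa, hxr, h⟩)
        exact Or.inr (Or.inr (Or.inl ((h2 hxa).2.2.2 hxi)))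

end Geo

end Pool.Agent.ANQ
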