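import Pool.Agent.ANQ.Box

/-!
# ANQ: conditional weights as means under the conditional one-site laws

`Pr_box_eq`: for an event `E` which, inside the box `K`, depends only on the coordinates in `N`,
`Pr w (E ∩ Bx K) = Pr w (Bx K) * ∑ ω, ∏ x, P x (ω x) * 1_E (N.piecewise ω v)`, where for `x ∈ N`
`P x` is the law `w x` conditioned on `K x` and for `x ∉ N` any law.
-/

set_option autoImplicit false

open Finset

namespace Pool.Agent.ANQ

open Pool.Agent.ANP

variable {Λ X : Type} [Fintype Λ] [DecidableEq Λ] [Fintype X] [DecidableEq X]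
variable {w : Λ → X → ℝ}

omit [DecidableEq X] in
/-- the laws of the coordinates which are not used do not matter -/
theorem change_law (N : Finset Λ) (P P' : Λ → X → ℝ) (h1 : ∀ x, ∑ a, P x a = 1)
    (h1' : ∀ x, ∑ a, P' x a = 1) (hN : ∀ x ∈ N, P x = P' x) (g : (Λ → X) → ℝ)
    (hg : ∀ ω ω', (∀ x ∈ N, ω x = ω' x) → g ω = g ω') :
    ∑ ω : Λ → X, (∏ x, P x (ω x)) * g ω = ∑ ω : Λ → X, (∏ x, P' x (ω x)) * g ω := by
  classical
  have hs : ∀ Q : Λ → X → ℝ, (∀ x, ∑ a, Q x a = 1) → ∑ ω : Λ → X, ∏ x, Q x (ω x) = 1 := by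
    intro Q hQ
    rw [← Fintype.piFinset_univ, ← prod_univ_sum (fun _ => univ) Q]
    exact prod_eq_one fun x _ => hQ x
  set R : Λ → X → ℝ := fun x => if x ∈ N then P' x else P x with hR
  have hR1 : ∀ x, ∑ a, R x a = 1 := by
    intro x
    simp only [hR]
    split_ifs
    · exact h1' x
    · exact h1 x
  have e1 : (∑ ω : Λ → X, (∏ x, P x (ω x)) * g ω) * (∑ ω : Λ → X, ∏ x, P' x (ω x)) =
      (∑ ω : Λ → X, (∏ x, P' x (ω x)) * g ω) * (∑ ω : Λ → X, ∏ x, R x (ω x)) := by
    rw [sum_mul_sum, sum_mul_sum, ← sum_product', ← sum_product', univ_product_univ]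
    refine sum_bij' (fun p _ => sw N p) (fun p _ => sw N p) (fun _ _ => mem_univ _)
      (fun _ _ => mem_univ _) (fun p _ => sw_sw N p) (fun p _ => sw_sw N p) fun p _ => ?_
    have hgp : g (sw N p).1 = g p.1 := by
      refine hg _ _ fun x hx => ?_
      simp [sw, hx]
    rw [hgp]
    have hp : (∏ x, P x (p.1 x)) * (∏ x, P' x (p.2 x)) =
        (∏ x, P' x ((sw N p).1 x)) * ∏ x, R x ((sw N p).2 x) := by
      rw [← prod_mul_distrib, ← prod_mul_distrib]
      refine prod_congr rfl fun x _ => ?_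
      by_cases hx : x ∈ N
      · simp only [sw, hR, hx, piecewise_eq_of_mem, if_true]
        rw [hN x hx]
      · simp only [sw, hR, hx, not_false_eq_true, piecewise_eq_of_notMem, if_false]
        ring
    calc (∏ x, P x (p.1 x)) * g p.1 * (∏ x, P' x (p.2 x)) =
        ((∏ x, P x (p.1 x)) * (∏ x, P' x (p.2 x))) * g p.1 := by ring
      _ = _ := by rw [hp]; ring
  rw [hs P' h1', hs R hR1, mul_one, mul_one] at e1
  exact e1

omit [DecidableEq X] in
open Classical in
/-- the weight of a box -/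
theorem Pr_Bx (K : Λ → Set X) :
    Pr w (Bx K) = ∏ x, ∑ a ∈ univ.filter (fun a => a ∈ K x), w x a := by
  unfold Pr
  rw [prod_univ_sum]
  refine sum_congr ?_ fun v _ => rfl
  ext v
  simp [Bx, Fintype.mem_piFinset]

open Classical in
/-- the conditional one-site law -/
noncomputable def cl1 (w : Λ → X → ℝ) (K : Λ → Set X) (x : Λ) (a : X) : ℝ :=
  if a ∈ K x then w x a / ∑ a ∈ univ.filter (fun a => a ∈ K x), w x a else 0

open Classical in
theorem Pr_box_eq (hw : IsLaw w) {K : Λ → Set X} {v : Λ → X} (hv : v ∈ Bx K)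
    (hpos : ∀ x, 0 < w x (v x)) {N : Finset Λ} {E : Set (Λ → X)} (hE : Dep K N E)
    (P : Λ → X → ℝ) (hP : ∀ x ∈ N, ∀ a, P x a = cl1 w K x a) (hP1 : ∀ x, x ∉ N → ∑ a, P x a = 1) :
    Pr w (E ∩ Bx K) = Pr w (Bx K) *
      ∑ ω : Λ → X, (∏ x, P x (ω x)) * (if N.piecewise ω v ∈ E then 1 else 0) := by
  set W : Λ → ℝ := fun x => ∑ a ∈ univ.filter (fun a => a ∈ K x), w x a with hW
  have hW0 : ∀ x, 0 < W x := by
    intro x
    refine lt_of_lt_of_le (hpos x) ?_
    exact single_le_sum (f := fun a => w x a) (fun a _ => hw.nonneg x a)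
      (mem_filter.2 ⟨mem_univ _, hv x⟩)
  have hc1 : ∀ x, ∑ a, cl1 w K x a = 1 := by
    intro x
    unfold cl1
    rw [← sum_filter, ← sum_div]
    exact div_self (hW0 x).ne'
  have h1 : ∀ x, ∑ a, P x a = 1 := by
    intro x
    by_cases hx : x ∈ N
    · rw [sum_congr rfl fun a _ => hP x hx a]
      exact hc1 x
    · exact hP1 x hx
  have hch := change_law N P (cl1 w K) h1 hc1 (fun x hx => funext fun a => hP x hx a)
    (fun ω => if N.piecewise ω v ∈ E then 1 else 0) (fun ω ω' h => by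
      have : N.piecewise ω v = N.piecewise ω' v := by
        funext x
        by_cases hx : x ∈ N
        · simp [hx, h x hx]
        · simp [hx]
      simp only [this])
  rw [hch, Pr_Bx, mul_sum]
  unfold Pr
  rw [sum_filter]
  refine sum_congr rfl fun ω _ => ?_
  by_cases hω : ω ∈ Bx K
  · have h2 : (∏ x, cl1 w K x (ω x)) = wt w ω / ∏ x, W x := by
      unfold wt
      rw [← prod_div_distrib]
      refine prod_congr rfl fun x _ => ?_
      unfold cl1
      rw [if_pos (hω x)]
    have hpw : N.piecewise ω v ∈ Bx K := by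
      intro x
      by_cases hx : x ∈ N
      · simpa [hx] using hω x
      · simpa [hx] using hv x
    have hiff : N.piecewise ω v ∈ E ↔ ω ∈ E := by
      refine hE _ hpw _ hω fun x hx => ?_
      simp [hx]
    have hWp : (∏ x, W x) ≠ 0 := (prod_pos fun x _ => hW0 x).ne'
    by_cases hωE : ω ∈ E
    · rw [if_pos ⟨hωE, hω⟩, if_pos (hiff.2 hωE), h2, mul_one]
      change wt w ω = (∏ x, W x) * (wt w ω / ∏ x, W x)
      field_simp
    · rw [if_neg fun h => hωE h.1, if_neg fun h => hωE (hiff.1 h)]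
      ring
  · have h3 : ∏ x, cl1 w K x (ω x) = 0 := by
      have : ∃ x, ω x ∉ K x := by
        by_contra hcon
        push Not at hcon
        exact hω hcon
      obtain ⟨x, hx⟩ := this
      refine prod_eq_zero (mem_univ x) ?_
      unfold cl1
      rw [if_neg hx]
    rw [if_neg fun h => hω h.2, h3]
    ring

end Pool.Agent.ANQ
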