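import Pool.Agent.ANQ.Markov
import Pool.Agent.ANQ.Box

/-! # ANQ / Cand: events decided by the candidate profile of a step

`P j i π v` = a property of the candidate (for instance `∃ M', IsMed (up ..) v M' ∧ Good .. M'`),
depending on `v` only through the levels of the candidate.  `EvC P j i` = the cell of the step `i`
is not frozen and `P` holds for the current profile.  Then `EvC` is a function of the class after
the step (`evC_meas`, field `mE1` of `ProcIn`), and inside the class before the step it depends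
only on the coordinates of the active sites of the cell (`evC_dep`), whose level is `sn j i`
(`lev_cell`); `cls_box`: the class is the box `KCl` of `AND/DigLaw`.
-/

set_option autoImplicit false

open Finset

namespace Pool.Agent.ANQ

open Pool.Agent.AND (Prof)

variable {T X : Type} [Fintype T] [DecidableEq T] [Nonempty T]

omit [Fintype T] [DecidableEq T] [Nonempty T] in
/-- the class of a profile is a box (the same box as `AND.KCl`) -/
theorem cls_box (q : ℕ → X → ℤ) (π : Prof T) (v : T → X) :
    Cls q π v = Bx (fun x => {a | (x ∈ π.act → q (π.lev x) a = q (π.lev x) (v x)) ∧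
      (x ∉ π.act → a = v x)}) := by
  ext u
  exact ⟨fun h x => ⟨h.1 x, h.2 x⟩, fun h => ⟨fun x => (h x).1, fun x => (h x).2⟩⟩

namespace Geo

variable {g : Geo T} {A : Ana T X}

/-- the cell of the step is not frozen and `P` holds for the current profile -/
def EvC (g : Geo T) (A : Ana T X) (P : Prof T → (T → X) → Prop) (j i : ℕ) : Set (T → X) :=
  {v | g.sL j i ∉ (g.crun A j i v).fz ∧ P (g.crun A j i v).pi v}

/-- the active sites of the cell of the step -/
noncomputable def actC (g : Geo T) (j i : ℕ) (π : Prof T) : Finset T := π.act ∩ g.cell j (g.sL j i)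

/-- `P` depends on `v` only through the levels of the candidate -/
def LocC (g : Geo T) (A : Ana T X) (P : Prof T → (T → X) → Prop) (j i : ℕ) : Prop :=
  ∀ π v v', Ag A.q (g.up A j i π v).lev v v' → (P π v ↔ P π v')

theorem ag_up (hL : Loc g A) (j : ℕ) (S : St T) (v v' : T → X)
    (i : ℕ) (h : v' ∈ Cls A.q (g.cur A j S v (i + 1)).pi v)
    (hf : g.sL j i ∉ (g.cur A j S v i).fz) :
    Ag A.q (g.up A j i (g.cur A j S v i).pi v).lev v v' := by
  rw [cur_succ] at h
  by_cases h' : A.ACC j i (g.cur A j S v i).pi v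
  · rw [stp_of_acc hf h'] at h
    exact ag_of_cls (loc_refines hL) h fun x _ => le_rfl
  · rw [stp_of_rej hf h'] at h
    refine ag_of_cls (loc_refines hL) h fun x hx => ?_
    have h1 : x ∈ (g.cur A j S v i).pi.act ∩ (g.cell j (g.sL j i))ᶜ := hx
    rw [mem_inter, mem_compl, mem_cell] at h1
    rw [up_lev, if_neg fun h => h1.2 h.2]
    exact le_rfl

/-- `EvC` is a function of the class after the step -/
theorem evC_meas (hc : ∀ j x, g.cor j (g.cor j x) = g.cor j x) (hL : Loc g A)
    {P : Prof T → (T → X) → Prop} {j i : ℕ} (hP : g.LocC A P j i) (v v' : T → X)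
    (h : v' ∈ Cls A.q (g.crun A j (i + 1) v).pi v) : v ∈ g.EvC A P j i ↔ v' ∈ g.EvC A P j i := by
  have h1 := crun_eq hc hL j i v v' (cls_crun_le hc hL j v v' (Nat.le_succ i) h)
  have h2 : v' ∈ g.EvC A P j i ↔
      g.sL j i ∉ (g.crun A j i v').fz ∧ P (g.crun A j i v').pi v' := Iff.rfl
  have h3 : v ∈ g.EvC A P j i ↔
      g.sL j i ∉ (g.crun A j i v).fz ∧ P (g.crun A j i v).pi v := Iff.rfl
  rw [h2, h3, h1]
  by_cases hf : g.sL j i ∈ (g.crun A j i v).fz
  · exact ⟨fun h => absurd hf h.1, fun h => absurd hf h.1⟩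
  · have h5 : Ag A.q (g.up A j i (g.crun A j i v).pi v).lev v v' := ag_up hL j _ v v' i h hf
    rw [hP _ v v' h5]

/-- inside the class before the step `EvC` depends only on the active sites of the cell -/
theorem evC_dep (hc : ∀ j x, g.cor j (g.cor j x) = g.cor j x) (hL : Loc g A)
    {P : Prof T → (T → X) → Prop} {j i : ℕ} (hP : g.LocC A P j i) (v0 : T → X) :
    Dep (fun x => {a | (x ∈ (g.crun A j i v0).pi.act →
        A.q ((g.crun A j i v0).pi.lev x) a = A.q ((g.crun A j i v0).pi.lev x) (v0 x)) ∧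
      (x ∉ (g.crun A j i v0).pi.act → a = v0 x)})
      (g.actC j i (g.crun A j i v0).pi) (g.EvC A P j i) := by
  intro v hv v' hv' hx
  rw [← cls_box] at hv hv'
  have h1 := crun_eq hc hL j i v0 v hv
  have h2 := crun_eq hc hL j i v0 v' hv'
  have h3 : v' ∈ g.EvC A P j i ↔
      g.sL j i ∉ (g.crun A j i v').fz ∧ P (g.crun A j i v').pi v' := Iff.rfl
  have h4 : v ∈ g.EvC A P j i ↔
      g.sL j i ∉ (g.crun A j i v).fz ∧ P (g.crun A j i v).pi v := Iff.rfl
  rw [h3, h4, h1, h2]
  have h5 : Ag A.q (g.up A j i (g.crun A j i v0).pi v).lev v v' := by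
    intro x
    rw [up_lev]
    by_cases h6 : x ∈ (g.crun A j i v0).pi.act ∧ g.cor j x = g.sL j i
    · rw [hx x (mem_inter.2 ⟨h6.1, mem_cell.2 h6.2⟩)]
    · rw [if_neg h6]
      by_cases h7 : x ∈ (g.crun A j i v0).pi.act
      · rw [hv.1 x h7, hv'.1 x h7]
      · rw [hv.2 x h7, hv'.2 x h7]
  rw [hP _ v v' h5]

/-- the level of the active sites of the cell before the step -/
theorem lev_cell (hc : ∀ j x, g.cor j (g.cor j x) = g.cor j x) (hL : Loc g A) (j i : ℕ)
    (v : T → X) : ∀ x ∈ g.actC j i (g.crun A j i v).pi,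
      (g.crun A j i v).pi.lev x = g.sn j i := by
  intro x hx
  unfold actC at hx
  rw [mem_inter, mem_cell] at hx
  have h1 := cur_lev hc j _ (run_lev hc hL j v) v i x hx.1
  have h2 := (sL_eq_iff hc j i x).1 hx.2
  rw [h2, if_neg (lt_irrefl _), add_zero] at h1
  exact h1

/-- levels of all active sites: `sn j i` or `sn j i + 1` -/
theorem lev_two (hc : ∀ j x, g.cor j (g.cor j x) = g.cor j x) (hL : Loc g A) (j i : ℕ)
    (v : T → X) : ∀ x ∈ (g.crun A j i v).pi.act,
      (g.crun A j i v).pi.lev x = g.sn j i ∨ (g.crun A j i v).pi.lev x = g.sn j i + 1 := by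
  intro x hx
  have h1 := cur_lev hc j _ (run_lev hc hL j v) v i x hx
  split_ifs at h1
  · exact Or.inr h1
  · exact Or.inl h1

end Geo

end Pool.Agent.ANQ
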