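import Pool.Agent.ANQ.Proc

/-! # ANQ / Markov: the state is a function of its class (sequential algorithm) -/

set_option autoImplicit false

open Finset

namespace Pool.Agent.ANQ

open Pool.Agent.ANP (IsLaw Pr wt)
open Pool.Agent.AND (Prof)

variable {T X : Type} [Fintype T] [DecidableEq T]

/-! ### classes -/

omit [Fintype T] [DecidableEq T] in
theorem cls_self (q : ℕ → X → ℤ) (π : Prof T) (v : T → X) : v ∈ Cls q π v :=
  ⟨fun _ _ => rfl, fun _ _ => rfl⟩

omit [Fintype T] [DecidableEq T] in
theorem cls_symm {q : ℕ → X → ℤ} {π : Prof T} {v v' : T → X} (h : v' ∈ Cls q π v) :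
    v ∈ Cls q π v' :=
  ⟨fun x hx => (h.1 x hx).symm, fun x hx => (h.2 x hx).symm⟩

omit [Fintype T] [DecidableEq T] in
theorem cls_trans {q : ℕ → X → ℤ} {π : Prof T} {v v' v'' : T → X} (h : v' ∈ Cls q π v)
    (h' : v'' ∈ Cls q π v') : v'' ∈ Cls q π v :=
  ⟨fun x hx => (h'.1 x hx).trans (h.1 x hx), fun x hx => (h'.2 x hx).trans (h.2 x hx)⟩

omit [Fintype T] [DecidableEq T] in
theorem cls_eq {q : ℕ → X → ℤ} {π : Prof T} {v v' : T → X} (h : v' ∈ Cls q π v) :
    Cls q π v' = Cls q π v := by
  ext u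
  exact ⟨fun hu => cls_trans h hu, fun hu => cls_trans (cls_symm h) hu⟩

/-- the digits refine each other -/
def Refines (q : ℕ → X → ℤ) : Prop := ∀ n n' a b, n ≤ n' → q n' a = q n' b → q n a = q n b

omit [Fintype T] [DecidableEq T] in
/-- a class of a later profile is in the class of the earlier profile -/
theorem cls_mono {q : ℕ → X → ℤ} (hq : Refines q) {π π' : Prof T} {v v' : T → X}
    (ha : π'.act ⊆ π.act) (hl : ∀ x ∈ π'.act, π.lev x ≤ π'.lev x) (h : v' ∈ Cls q π' v) :
    v' ∈ Cls q π v := by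
  refine ⟨fun x hx => ?_, fun x hx => h.2 x fun h' => hx (ha h')⟩
  by_cases hx' : x ∈ π'.act
  · exact hq _ _ _ _ (hl x hx') (h.1 x hx')
  · rw [h.2 x hx']

omit [Fintype T] [DecidableEq T] in
theorem ag_of_cls {q : ℕ → X → ℤ} (hq : Refines q) {π : Prof T} {v v' : T → X}
    (h : v' ∈ Cls q π v) {lev : T → ℕ} (hl : ∀ x ∈ π.act, lev x ≤ π.lev x) : Ag q lev v v' := by
  intro x
  by_cases hx : x ∈ π.act
  · exact hq _ _ _ _ (hl x hx) (h.1 x hx).symm
  · rw [h.2 x hx]

/-! ### the numbering of the steps -/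

theorem succ_div_mod {c : ℕ} (hc : 0 < c) (i : ℕ) :
    (i % c + 1 = c ∧ (i + 1) % c = 0 ∧ (i + 1) / c = i / c + 1) ∨
      (i % c + 1 < c ∧ (i + 1) % c = i % c + 1 ∧ (i + 1) / c = i / c) := by
  have h1 := Nat.mod_lt i hc
  have h2 := Nat.div_add_mod i c
  rcases Nat.lt_or_ge (i % c + 1) c with h | h
  · right
    have h3 : i + 1 = (i % c + 1) + c * (i / c) := by omega
    refine ⟨h, ?_, ?_⟩
    · conv_lhs => rw [h3]
      rw [Nat.add_mul_mod_self_left, Nat.mod_eq_of_lt h]
    · conv_lhs => rw [h3]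
      rw [Nat.add_mul_div_left _ _ hc, Nat.div_eq_of_lt h, zero_add]
  · left
    have h4 : i % c + 1 = c := by omega
    have h3 : i + 1 = c * (i / c + 1) := by
      rw [Nat.mul_add, Nat.mul_one]
      omega
    refine ⟨h4, ?_, ?_⟩
    · rw [h3, Nat.mul_mod_right]
    · rw [h3, Nat.mul_div_cancel_left _ hc]

namespace Geo

variable {g : Geo T} {A : Ana T X}

theorem loc_refines [Nonempty T] (hL : Loc g A) : Refines A.q := hL.refine

theorem mem_sites {j : ℕ} {P : Finset T} {x : T} : x ∈ g.sites j P ↔ g.cor j x ∈ P := by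
  unfold sites
  rw [mem_filter]
  exact ⟨fun h => h.2, fun h => ⟨mem_univ _, h⟩⟩

theorem mem_cell {j : ℕ} {c x : T} : x ∈ g.cell j c ↔ g.cor j x = c := by
  unfold cell
  rw [mem_filter]
  exact ⟨fun h => h.2, fun h => ⟨mem_univ _, h⟩⟩

theorem mem_nbhd {r : ℕ} {B : Finset T} {x : T} :
    x ∈ g.nbhd r B ↔ ∃ y ∈ B, g.dist x y ≤ r := by
  classical
  unfold nbhd
  rw [mem_filter]
  exact ⟨fun h => h.2, fun h => ⟨mem_univ _, h⟩⟩

theorem mem_corners {j : ℕ} {c : T} : c ∈ g.corners j ↔ g.cor j c = c := by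
  unfold corners
  rw [mem_filter]
  exact ⟨fun h => h.2, fun h => ⟨mem_univ _, h⟩⟩

theorem cor_mem (hc : ∀ j x, g.cor j (g.cor j x) = g.cor j x) (j : ℕ) (x : T) :
    g.cor j x ∈ g.corners j := mem_corners.2 (hc j x)

/-- the index of the cell of a site -/
noncomputable def idx (g : Geo T) (j : ℕ) (x : T) : ℕ := (g.clist j).idxOf (g.cor j x)

theorem clist_length (j : ℕ) : (g.clist j).length = g.nc j := by
  unfold clist nc
  rw [length_toList]

theorem idx_lt (hc : ∀ j x, g.cor j (g.cor j x) = g.cor j x) (j : ℕ) (x : T) :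
    g.idx j x < g.nc j := by
  rw [← clist_length]
  refine List.idxOf_lt_length_of_mem ?_
  unfold clist
  rw [mem_toList]
  exact cor_mem hc j x

theorem nc_pos (hc : ∀ j x, g.cor j (g.cor j x) = g.cor j x) (j : ℕ) (x : T) : 0 < g.nc j :=
  lt_of_le_of_lt (Nat.zero_le _) (idx_lt hc j x)

variable [Nonempty T]

theorem sL_eq_iff (hc : ∀ j x, g.cor j (g.cor j x) = g.cor j x) (j i : ℕ) (x : T) :
    g.cor j x = g.sL j i ↔ g.idx j x = i % g.nc j := by
  have h1 : i % g.nc j < (g.clist j).length := by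
    rw [clist_length]
    exact Nat.mod_lt _ (nc_pos hc j x)
  have h2 : g.sL j i = (g.clist j)[i % g.nc j] := by
    unfold sL
    rw [List.getD_eq_getElem _ _ h1]
  have hn : (g.clist j).Nodup := nodup_toList _
  constructor
  · intro h
    unfold idx
    rw [h, h2]
    exact hn.idxOf_getElem _ h1
  · intro h
    have h3 : g.idx j x < (g.clist j).length := by
      rw [clist_length]
      exact idx_lt hc j x
    have h4 : (g.clist j)[g.idx j x] = g.cor j x := List.getElem_idxOf h3
    rw [h2, ← h4]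
    simp only [h]

theorem sL_mem (hc : ∀ j x, g.cor j (g.cor j x) = g.cor j x) (j i : ℕ) :
    g.sL j i ∈ g.corners j := by
  have h1 : i % g.nc j < (g.clist j).length := by
    rw [clist_length]
    exact Nat.mod_lt _ (nc_pos hc j (Classical.arbitrary T))
  have h2 : g.sL j i = (g.clist j)[i % g.nc j] := by
    unfold sL
    rw [List.getD_eq_getElem _ _ h1]
  rw [h2]
  have h3 := List.getElem_mem h1
  unfold clist at h3
  rwa [mem_toList] at h3

/-! ### one step -/

theorem stp_of_mem {j i : ℕ} {c : Cur T} {v : T → X} (h : g.sL j i ∈ c.fz) :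
    g.stp A j i c v = c := by
  unfold stp
  rw [if_pos h]

theorem stp_of_acc {j i : ℕ} {c : Cur T} {v : T → X} (h : g.sL j i ∉ c.fz)
    (h' : A.ACC j i c.pi v) : g.stp A j i c v = ⟨g.up A j i c.pi v, c.fz⟩ := by
  unfold stp
  rw [if_neg h, if_pos h']

theorem stp_of_rej {j i : ℕ} {c : Cur T} {v : T → X} (h : g.sL j i ∉ c.fz)
    (h' : ¬ A.ACC j i c.pi v) :
    g.stp A j i c v =
      ⟨freeze A c.pi v (g.cell j (g.sL j i))ᶜ, insert (g.sL j i) c.fz⟩ := by
  unfold stp
  rw [if_neg h, if_neg h']

theorem cur_succ (j : ℕ) (S : St T) (v : T → X) (i : ℕ) :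
    g.cur A j S v (i + 1) = g.stp A j i (g.cur A j S v i) v := rfl

theorem stp_act {j i : ℕ} {c : Cur T} {v : T → X} :
    (g.stp A j i c v).pi.act ⊆ c.pi.act := by
  unfold stp
  split_ifs
  · exact subset_rfl
  · exact sdiff_subset
  · exact inter_subset_left

theorem stp_rd {j i : ℕ} {c : Cur T} {v : T → X} :
    (g.stp A j i c v).pi.rd = c.pi.rd := by
  unfold stp
  split_ifs <;> rfl

theorem stp_fz {j i : ℕ} {c : Cur T} {v : T → X} : c.fz ⊆ (g.stp A j i c v).fz := by
  unfold stp
  split_ifs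
  · exact subset_rfl
  · exact subset_rfl
  · exact subset_insert _ _

theorem cur_act_anti (j : ℕ) (S : St T) (v : T → X) {i i' : ℕ} (h : i ≤ i') :
    (g.cur A j S v i').pi.act ⊆ (g.cur A j S v i).pi.act := by
  induction i', h using Nat.le_induction with
  | base => exact subset_rfl
  | succ k _ ih =>
    rw [cur_succ]
    exact stp_act.trans ih

theorem cur_fz_mono (j : ℕ) (S : St T) (v : T → X) {i i' : ℕ} (h : i ≤ i') :
    (g.cur A j S v i).fz ⊆ (g.cur A j S v i').fz := by
  induction i', h using Nat.le_induction with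
  | base => exact subset_rfl
  | succ k _ ih =>
    rw [cur_succ]
    exact ih.trans stp_fz

theorem cur_rd (j : ℕ) (S : St T) (v : T → X) (i : ℕ) :
    (g.cur A j S v i).pi.rd = S.pi.rd := by
  induction i with
  | zero => rfl
  | succ k ih => rw [cur_succ, stp_rd, ih]

theorem cur_act_sub (j : ℕ) (S : St T) (v : T → X) (i : ℕ) :
    (g.cur A j S v i).pi.act ⊆ S.pi.act :=
  (cur_act_anti j S v (Nat.zero_le i)).trans inter_subset_left

/-- active sites are not in frozen cells -/
theorem cur_notMem (j : ℕ) (S : St T) (v : T → X) (i : ℕ) :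
    ∀ x ∈ (g.cur A j S v i).pi.act, g.cor j x ∉ (g.cur A j S v i).fz := by
  induction i with
  | zero =>
    intro x hx h
    have h1 : x ∈ S.pi.act ∩ (g.sites j (g.preS A j S v))ᶜ := hx
    rw [mem_inter, mem_compl, mem_sites] at h1
    exact h1.2 h
  | succ k ih =>
    intro x hx
    rw [cur_succ] at hx ⊢
    by_cases h : g.sL j k ∈ (g.cur A j S v k).fz
    · rw [stp_of_mem h] at hx ⊢
      exact ih x hx
    · by_cases h' : A.ACC j k (g.cur A j S v k).pi v
      · rw [stp_of_acc h h'] at hx ⊢
        exact ih x (mem_sdiff.1 hx).1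
      · rw [stp_of_rej h h'] at hx ⊢
        have h1 : x ∈ (g.cur A j S v k).pi.act ∩ (g.cell j (g.sL j k))ᶜ := hx
        rw [mem_inter, mem_compl, mem_cell] at h1
        intro h2
        rcases mem_insert.1 h2 with h3 | h3
        · exact h1.2 h3
        · exact ih x h1.1 h3

theorem up_lev (j i : ℕ) (π : Prof T) (v : T → X) (x : T) : (g.up A j i π v).lev x =
    if x ∈ π.act ∧ g.cor j x = g.sL j i then g.sn j i + 1 else π.lev x := by
  have h : (g.up A j i π v).lev x =
      if x ∈ π.act ∩ g.cell j (g.sL j i) then g.sn j i + 1 else π.lev x := rfl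
  rw [h]
  simp only [mem_inter, mem_cell]

/-- the level of an active site after `i` steps -/
theorem cur_lev (hc : ∀ j x, g.cor j (g.cor j x) = g.cor j x) (j : ℕ) (S : St T)
    (hS : ∀ x ∈ S.pi.act, S.pi.lev x = g.lv j) (v : T → X) (i : ℕ) :
    ∀ x ∈ (g.cur A j S v i).pi.act, (g.cur A j S v i).pi.lev x =
      g.lv j + i / g.nc j + if g.idx j x < i % g.nc j then 1 else 0 := by
  induction i with
  | zero =>
    intro x hx
    have h1 : x ∈ S.pi.act ∩ (g.sites j (g.preS A j S v))ᶜ := hx
    have h2 := hS x (mem_inter.1 h1).1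
    rw [Nat.zero_div, Nat.zero_mod, if_neg (Nat.not_lt_zero _), add_zero, add_zero]
    exact h2
  | succ k ih =>
    intro x hx
    have hn := nc_pos hc j x
    have hi := idx_lt hc j x
    have hx' : x ∈ (g.cur A j S v k).pi.act := by
      rw [cur_succ] at hx
      exact stp_act hx
    have h0 := ih x hx'
    have h00 := cur_notMem (A := A) j S v k x hx'
    rw [cur_succ] at hx ⊢
    by_cases hp : g.cor j x = g.sL j k
    · have hp' := (sL_eq_iff hc j k x).1 hp
      by_cases h : g.sL j k ∈ (g.cur A j S v k).fz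
      · exact absurd (hp ▸ h) h00
      · by_cases h' : A.ACC j k (g.cur A j S v k).pi v
        · rw [stp_of_acc h h']
          change (g.up A j k (g.cur A j S v k).pi v).lev x = _
          rw [up_lev, if_pos ⟨hx', hp⟩]
          unfold sn
          rcases succ_div_mod hn k with ⟨h2, h3, h4⟩ | ⟨h2, h3, h4⟩
          · rw [h3, h4, if_neg (Nat.not_lt_zero _)]
            omega
          · rw [h3, h4, if_pos (by omega)]
        · rw [stp_of_rej h h'] at hx
          have h1 : x ∈ (g.cur A j S v k).pi.act ∩ (g.cell j (g.sL j k))ᶜ := hx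
          rw [mem_inter, mem_compl, mem_cell] at h1
          exact absurd hp h1.2
    · have hp' : g.idx j x ≠ k % g.nc j := fun h => hp ((sL_eq_iff hc j k x).2 h)
      have h1 : (g.stp A j k (g.cur A j S v k) v).pi.lev x =
          (g.cur A j S v k).pi.lev x := by
        by_cases h : g.sL j k ∈ (g.cur A j S v k).fz
        · rw [stp_of_mem h]
        · by_cases h' : A.ACC j k (g.cur A j S v k).pi v
          · rw [stp_of_acc h h']
            change (g.up A j k (g.cur A j S v k).pi v).lev x = _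
            rw [up_lev, if_neg fun h => hp h.2]
          · rw [stp_of_rej h h']
            rfl
      rw [h1, h0]
      rcases succ_div_mod hn k with ⟨h2, h3, h4⟩ | ⟨h2, h3, h4⟩
      · rw [h3, h4, if_neg (Nat.not_lt_zero _), if_pos (by omega)]
        omega
      · rw [h3, h4]
        by_cases h5 : g.idx j x < k % g.nc j
        · rw [if_pos h5, if_pos (by omega)]
        · rw [if_neg h5, if_neg (by omega)]

theorem cur_lev_le (hc : ∀ j x, g.cor j (g.cor j x) = g.cor j x) (j : ℕ) (S : St T)
    (hS : ∀ x ∈ S.pi.act, S.pi.lev x = g.lv j) (v : T → X) (i : ℕ) :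
    ∀ x ∈ (g.cur A j S v i).pi.act, (g.cur A j S v i).pi.lev x ≤ g.sn j i + 1 := by
  intro x hx
  rw [cur_lev hc j S hS v i x hx]
  unfold sn
  split_ifs <;> omega

/-- at the end all active sites have the level `lv (j + 1)` -/
theorem fin_lev (hc : ∀ j x, g.cor j (g.cor j x) = g.cor j x) (hm : Monotone g.lv) (j : ℕ)
    (S : St T) (hS : ∀ x ∈ S.pi.act, S.pi.lev x = g.lv j) (v : T → X) :
    ∀ x ∈ (g.fin A j S v).pi.act, (g.fin A j S v).pi.lev x = g.lv (j + 1) := by
  intro x hx
  have hn := nc_pos hc j x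
  have h := cur_lev hc j S hS v (g.ns j) x hx
  have h1 : g.ns j / g.nc j = g.lv (j + 1) - g.lv j := by
    unfold ns
    exact Nat.mul_div_cancel _ hn
  have h2 : g.ns j % g.nc j = 0 := by
    unfold ns
    exact Nat.mul_mod_left _ _
  rw [h1, h2, if_neg (Nat.not_lt_zero _)] at h
  have h3 := hm (Nat.le_succ j)
  have h4 : (g.fin A j S v).pi.lev x = g.lv j + (g.lv (j + 1) - g.lv j) + 0 := h
  rw [h4]
  have h5 : g.lv j ≤ g.lv (j + 1) := h3
  omega

/-! ### the Markov property inside a super-stage -/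

section markov

variable (hc : ∀ j x, g.cor j (g.cor j x) = g.cor j x) (hL : Loc g A)
include hc hL

/-- classes decrease -/
theorem cls_succ (j : ℕ) (S : St T) (hS : ∀ x ∈ S.pi.act, S.pi.lev x = g.lv j) (v v' : T → X)
    (i : ℕ) (h : v' ∈ Cls A.q (g.cur A j S v (i + 1)).pi v) :
    v' ∈ Cls A.q (g.cur A j S v i).pi v := by
  refine cls_mono (loc_refines hL) ?_ (fun x hx => ?_) h
  · rw [cur_succ]
    exact stp_act
  · have hx' : x ∈ (g.cur A j S v i).pi.act := by
      rw [cur_succ] at hx
      exact stp_act hx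
    have h1 := cur_lev_le hc j S hS v i x hx'
    rw [cur_succ] at hx ⊢
    by_cases h2 : g.sL j i ∈ (g.cur A j S v i).fz
    · rw [stp_of_mem h2]
    · by_cases h' : A.ACC j i (g.cur A j S v i).pi v
      · rw [stp_of_acc h2 h']
        change _ ≤ (g.up A j i (g.cur A j S v i).pi v).lev x
        rw [up_lev]
        split_ifs
        · exact h1
        · exact le_rfl
      · rw [stp_of_rej h2 h']
        exact le_rfl

theorem cls_cur_le (j : ℕ) (S : St T) (hS : ∀ x ∈ S.pi.act, S.pi.lev x = g.lv j)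
    (v v' : T → X) {i i' : ℕ} (hi : i ≤ i') (h : v' ∈ Cls A.q (g.cur A j S v i').pi v) :
    v' ∈ Cls A.q (g.cur A j S v i).pi v := by
  induction i', hi using Nat.le_induction with
  | base => exact h
  | succ k _ ih => exact ih (cls_succ hc hL j S hS v v' k h)

/-- the class after `i` steps is in the class at the start of the super-stage -/
theorem cls_cur_start (j : ℕ) (S : St T) (hS : ∀ x ∈ S.pi.act, S.pi.lev x = g.lv j)
    (v v' : T → X) {i : ℕ} (h : v' ∈ Cls A.q (g.cur A j S v i).pi v) : v' ∈ Cls A.q S.pi v := by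
  have h1 := cls_cur_le hc hL j S hS v v' (Nat.zero_le i) h
  refine cls_mono (loc_refines hL) ?_ (fun x hx => ?_) h1
  · exact inter_subset_left
  · exact le_rfl

/-- acceptance is a function of the class after the step -/
theorem acc_iff (j : ℕ) (S : St T) (v v' : T → X)
    (i : ℕ) (h : v' ∈ Cls A.q (g.cur A j S v (i + 1)).pi v)
    (hf : g.sL j i ∉ (g.cur A j S v i).fz) :
    A.ACC j i (g.cur A j S v i).pi v ↔ A.ACC j i (g.cur A j S v i).pi v' := by
  refine hL.ACC j _ _ v v' ?_
  rw [cur_succ] at h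
  by_cases h' : A.ACC j i (g.cur A j S v i).pi v
  · rw [stp_of_acc hf h'] at h
    exact ag_of_cls (loc_refines hL) h fun x _ => le_rfl
  · rw [stp_of_rej hf h'] at h
    refine ag_of_cls (loc_refines hL) h fun x hx => ?_
    have h1 : x ∈ (g.cur A j S v i).pi.act ∩ (g.cell j (g.sL j i))ᶜ := hx
    rw [mem_inter, mem_compl, mem_cell] at h1
    rw [up_lev, if_neg fun h => h1.2 h.2]
    exact le_rfl

omit hc in
theorem preS_eq (j : ℕ) (S : St T) (v v' : T → X) (h : v' ∈ Cls A.q S.pi v) :
    g.preS A j S v' = g.preS A j S v := by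
  classical
  unfold preS
  have h1 : ∀ L, A.PR j S L v ↔ A.PR j S L v' := fun L => hL.PR j S L v v' h
  simp only [h1]

omit hc in
theorem freeze_eq (π : Prof T) (N : Finset T) (v v' : T → X) (h : v' ∈ Cls A.q π v) :
    freeze A π v' N = freeze A π v N := by
  unfold freeze
  rw [hL.sgv π v v' (ag_of_cls (loc_refines hL) h fun x _ => le_rfl)]

omit hc in
theorem freeze_eq' (π : Prof T) (N : Finset T) (v v' : T → X) (h : Ag A.q π.lev v v') :
    freeze A π v' N = freeze A π v N := by
  unfold freeze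
  rw [hL.sgv π v v' h]

omit hc in
/-- the raised profile is a function of the class after the step -/
theorem up_eq (j i : ℕ) (π : Prof T) (v v' : T → X)
    (h : v' ∈ Cls A.q (g.up A j i π v) v) : g.up A j i π v' = g.up A j i π v := by
  classical
  have hw : weak A (g.sn j i + 1) v' (π.act ∩ g.cell j (g.sL j i)) =
      weak A (g.sn j i + 1) v (π.act ∩ g.cell j (g.sL j i)) := by
    unfold weak
    refine filter_congr fun x hx => ?_
    rw [mem_inter, mem_cell] at hx
    have h1 := ag_of_cls (loc_refines hL) h (fun x _ => le_rfl) x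
    rw [up_lev, if_pos hx] at h1
    exact hL.wk _ _ _ h1.symm
  unfold up raise
  rw [hw]

/-- the state after `i` steps is a function of the class -/
theorem cur_eq (j : ℕ) (S : St T) (hS : ∀ x ∈ S.pi.act, S.pi.lev x = g.lv j) (v v' : T → X)
    (i : ℕ) (h : v' ∈ Cls A.q (g.cur A j S v i).pi v) : g.cur A j S v' i = g.cur A j S v i := by
  induction i with
  | zero =>
    have h0 := cls_cur_start hc hL j S hS v v' h
    have h1 : g.cur A j S v' 0 = g.cur0 A j S v' := rfl
    have h2 : g.cur A j S v 0 = g.cur0 A j S v := rfl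
    rw [h1, h2]
    unfold cur0
    rw [preS_eq hL j S v v' h0, freeze_eq hL _ _ v v' h0]
  | succ k ih =>
    have h1 := cls_succ hc hL j S hS v v' k h
    have h2 := ih h1
    rw [cur_succ, cur_succ, h2]
    by_cases h3 : g.sL j k ∈ (g.cur A j S v k).fz
    · rw [stp_of_mem h3, stp_of_mem h3]
    · have h4 := acc_iff hc hL j S v v' k h h3
      by_cases h' : A.ACC j k (g.cur A j S v k).pi v
      · rw [cur_succ, stp_of_acc h3 h'] at h
        rw [stp_of_acc h3 h', stp_of_acc h3 (h4.1 h'), up_eq hL j k _ v v' h]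
      · rw [stp_of_rej h3 h', stp_of_rej h3 fun h5 => h' (h4.2 h5), freeze_eq hL _ _ v v' h1]

/-- rejection at the step `i` is a function of the class after the step -/
theorem rej_iff (j : ℕ) (S : St T) (hS : ∀ x ∈ S.pi.act, S.pi.lev x = g.lv j) (v v' : T → X)
    (i : ℕ) (h : v' ∈ Cls A.q (g.cur A j S v (i + 1)).pi v) :
    g.Rej A j S v i ↔ g.Rej A j S v' i := by
  have h1 := cur_eq hc hL j S hS v v' i (cls_succ hc hL j S hS v v' i h)
  unfold Rej
  rw [h1]
  by_cases h3 : g.sL j i ∈ (g.cur A j S v i).fz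
  · exact ⟨fun h => absurd h3 h.1, fun h => absurd h3 h.1⟩
  · rw [acc_iff hc hL j S v v' i h h3]

end markov

/-! ### the loop of the insertions -/

theorem icur_succ_of_lt (j : ℕ) (S : St T) (v : T → X) (k : ℕ)
    (h : k < (g.ilist A j S v).length) :
    g.icur A j S v (k + 1) = g.istp A j S ((g.ilist A j S v)[k]) (g.icur A j S v k) v := by
  conv_lhs => unfold icur
  rw [dif_pos h]

theorem icur_succ_of_not_lt (j : ℕ) (S : St T) (v : T → X) (k : ℕ)
    (h : ¬ k < (g.ilist A j S v).length) :
    g.icur A j S v (k + 1) = g.icur A j S v k := by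
  conv_lhs => unfold icur
  rw [dif_neg h]

omit [Nonempty T] in
theorem istp_of_pos {j : ℕ} {S : St T} {F : Finset T} {c : ICur T} {v : T → X}
    (h : A.LK j S c.don c.pi F v) : g.istp A j S F c v =
      ⟨read c.pi g.nf (g.nbhd (g.R j) F), insert F c.don, c.fl⟩ := by
  unfold istp
  rw [if_pos h]

omit [Nonempty T] in
theorem istp_of_neg {j : ℕ} {S : St T} {F : Finset T} {c : ICur T} {v : T → X}
    (h : ¬ A.LK j S c.don c.pi F v) : g.istp A j S F c v = ⟨c.pi, c.don, insert F c.fl⟩ := by
  unfold istp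
  rw [if_neg h]

omit [Nonempty T] in
theorem istp_act {j : ℕ} {S : St T} {F : Finset T} {c : ICur T} {v : T → X} :
    (g.istp A j S F c v).pi.act ⊆ c.pi.act := by
  unfold istp
  split_ifs
  · exact sdiff_subset
  · exact subset_rfl

omit [Nonempty T] in
theorem istp_don {j : ℕ} {S : St T} {F : Finset T} {c : ICur T} {v : T → X} :
    c.don ⊆ (g.istp A j S F c v).don ∧ c.fl ⊆ (g.istp A j S F c v).fl := by
  unfold istp
  split_ifs
  · exact ⟨subset_insert _ _, subset_rfl⟩
  · exact ⟨subset_rfl, subset_insert _ _⟩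

theorem icur_step (j : ℕ) (S : St T) (v : T → X) (k : ℕ) :
    (g.icur A j S v (k + 1)).pi.act ⊆ (g.icur A j S v k).pi.act ∧
      (g.icur A j S v k).don ⊆ (g.icur A j S v (k + 1)).don ∧
      (g.icur A j S v k).fl ⊆ (g.icur A j S v (k + 1)).fl := by
  by_cases h : k < (g.ilist A j S v).length
  · rw [icur_succ_of_lt j S v k h]
    exact ⟨istp_act, istp_don.1, istp_don.2⟩
  · rw [icur_succ_of_not_lt j S v k h]
    exact ⟨subset_rfl, subset_rfl, subset_rfl⟩

theorem icur_mono (j : ℕ) (S : St T) (v : T → X) {k k' : ℕ} (hk : k ≤ k') :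
    (g.icur A j S v k').pi.act ⊆ (g.icur A j S v k).pi.act ∧
      (g.icur A j S v k).don ⊆ (g.icur A j S v k').don ∧
      (g.icur A j S v k).fl ⊆ (g.icur A j S v k').fl := by
  induction k', hk using Nat.le_induction with
  | base => exact ⟨subset_rfl, subset_rfl, subset_rfl⟩
  | succ m _ ih =>
    obtain ⟨h1, h2, h3⟩ := icur_step (g := g) (A := A) j S v m
    exact ⟨h1.trans ih.1, ih.2.1.trans h2, ih.2.2.trans h3⟩

/-- the neighbourhoods of the inserted clusters are not active -/
theorem icur_don (j : ℕ) (S : St T) (v : T → X) (k : ℕ) :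
    ∀ F ∈ (g.icur A j S v k).don, Disjoint (g.icur A j S v k).pi.act (g.nbhd (g.R j) F) := by
  induction k with
  | zero => exact fun F hF => absurd hF (notMem_empty F)
  | succ m ih =>
    intro F hF
    by_cases h : m < (g.ilist A j S v).length
    · rw [icur_succ_of_lt j S v m h] at hF ⊢
      by_cases h' : A.LK j S (g.icur A j S v m).don (g.icur A j S v m).pi
          ((g.ilist A j S v)[m]) v
      · rw [istp_of_pos h'] at hF ⊢
        rcases mem_insert.1 hF with h1 | h1
        · rw [h1]
          exact sdiff_disjoint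
        · exact (ih F h1).mono_left sdiff_subset
      · rw [istp_of_neg h'] at hF ⊢
        exact ih F hF
    · rw [icur_succ_of_not_lt j S v m h] at hF ⊢
      exact ih F hF

/-- every tested cluster is inserted or kept -/
theorem icur_done (j : ℕ) (S : St T) (v : T → X) (k : ℕ) (hk : k < (g.ilist A j S v).length) :
    (g.ilist A j S v)[k] ∈ (g.icur A j S v (k + 1)).don ∨
      (g.ilist A j S v)[k] ∈ (g.icur A j S v (k + 1)).fl := by
  rw [icur_succ_of_lt j S v k hk]
  by_cases h' : A.LK j S (g.icur A j S v k).don (g.icur A j S v k).pi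
      ((g.ilist A j S v)[k]) v
  · rw [istp_of_pos h']
    exact Or.inl (mem_insert_self _ _)
  · rw [istp_of_neg h']
    exact Or.inr (mem_insert_self _ _)

theorem ifin_done (j : ℕ) (S : St T) (v : T → X) {F : Finset T} (hF : F ∈ g.cands A j S v) :
    F ∈ (g.ifin A j S v).don ∨ F ∈ (g.ifin A j S v).fl := by
  have h1 : F ∈ g.ilist A j S v := mem_toList.2 hF
  obtain ⟨k, hk, rfl⟩ := List.getElem_of_mem h1
  have h2 := icur_mono (g := g) (A := A) j S v (Nat.succ_le_of_lt hk)
  rcases icur_done j S v k hk with h | h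
  · exact Or.inl (h2.2.1 h)
  · exact Or.inr (h2.2.2 h)

/-- inserted and kept clusters are tested clusters -/
theorem icur_sub (j : ℕ) (S : St T) (v : T → X) (k : ℕ) :
    (g.icur A j S v k).don ⊆ g.cands A j S v ∧ (g.icur A j S v k).fl ⊆ g.cands A j S v := by
  induction k with
  | zero => exact ⟨empty_subset _, empty_subset _⟩
  | succ m ih =>
    by_cases h : m < (g.ilist A j S v).length
    · rw [icur_succ_of_lt j S v m h]
      have h0 : (g.ilist A j S v)[m] ∈ g.cands A j S v := mem_toList.1 (List.getElem_mem h)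
      unfold istp
      split_ifs
      · exact ⟨insert_subset h0 ih.1, ih.2⟩
      · exact ⟨ih.1, insert_subset h0 ih.2⟩
    · rw [icur_succ_of_not_lt j S v m h]
      exact ih

/-- the levels of the sites which stay active do not change in the loop -/
theorem icur_lev (j : ℕ) (S : St T) (v : T → X) (k : ℕ) :
    ∀ x ∈ (g.icur A j S v k).pi.act, (g.icur A j S v k).pi.lev x = (g.fin A j S v).pi.lev x := by
  induction k with
  | zero => exact fun x _ => rfl
  | succ m ih =>
    intro x hx
    have h0 := (icur_step (g := g) (A := A) j S v m).1 hx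
    by_cases h : m < (g.ilist A j S v).length
    · rw [icur_succ_of_lt j S v m h] at hx ⊢
      by_cases h' : A.LK j S (g.icur A j S v m).don (g.icur A j S v m).pi
          ((g.ilist A j S v)[m]) v
      · rw [istp_of_pos h'] at hx ⊢
        have h1 : (read (g.icur A j S v m).pi g.nf
            (g.nbhd (g.R j) ((g.ilist A j S v)[m]))).lev x = (g.icur A j S v m).pi.lev x :=
          if_neg (mem_sdiff.1 hx).2
        exact h1.trans (ih x h0)
      · rw [istp_of_neg h'] at hx ⊢
        exact ih x h0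
    · rw [icur_succ_of_not_lt j S v m h] at hx ⊢
      exact ih x h0

theorem mem_clu_self {j : ℕ} {S : St T} {x : T} (h : x ∈ stat S.pi) : x ∈ g.clu j S x := by
  classical
  unfold clu
  exact mem_filter.2 ⟨h, Relation.ReflTransGen.refl⟩

/-! ### the end of a super-stage -/

theorem next_lev (j : ℕ) (S : St T) (v : T → X) (x : T) : (g.next A j S v).pi.lev x =
    (g.ifin A j S v).pi.lev x := rfl

/-- the sites in the `R`-neighbourhood of the static sites do not stay active -/
theorem next_act (j : ℕ) (S : St T) (v : T → X) {x : T} (h : x ∈ (g.next A j S v).pi.act) :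
    x ∈ (g.ifin A j S v).pi.act ∧ x ∉ g.nbhd (g.R j) (stat S.pi) := by
  have h1 : x ∈ (g.ifin A j S v).pi.act ∩
      (g.nbhd (g.R j) (g.keep1 A j S v ∪ g.keep2 A j S v))ᶜ := h
  rw [mem_inter, mem_compl] at h1
  refine ⟨h1.1, fun h2 => ?_⟩
  obtain ⟨y, hy, hxy⟩ := mem_nbhd.1 h2
  by_cases h3 : y ∈ g.keep1 A j S v
  · exact h1.2 (mem_nbhd.2 ⟨y, mem_union_left _ h3, hxy⟩)
  · have h5 : g.clu j S y ∈ g.cands A j S v :=
      mem_image_of_mem _ (mem_sdiff.2 ⟨hy, h3⟩)
    have h6 : y ∈ g.clu j S y := mem_clu_self hy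
    rcases ifin_done j S v h5 with h7 | h7
    · have h8 := icur_don (g := g) (A := A) j S v (g.ni A j S v) _ h7
      exact disjoint_left.1 h8 h1.1 (mem_nbhd.2 ⟨y, h6, hxy⟩)
    · refine h1.2 (mem_nbhd.2 ⟨y, mem_union_right _ ?_, hxy⟩)
      unfold keep2
      exact mem_biUnion.2 ⟨_, h7, h6⟩

theorem next_act_icur (j : ℕ) (S : St T) (v : T → X) {k : ℕ} (hk : k ≤ g.ni A j S v) {x : T}
    (h : x ∈ (g.next A j S v).pi.act) : x ∈ (g.icur A j S v k).pi.act :=
  (icur_mono (g := g) (A := A) j S v hk).1 (next_act j S v h).1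

theorem next_act_fin (j : ℕ) (S : St T) (v : T → X) {x : T}
    (h : x ∈ (g.next A j S v).pi.act) : x ∈ (g.fin A j S v).pi.act :=
  next_act_icur j S v (Nat.zero_le _) h

theorem next_lev_icur (j : ℕ) (S : St T) (v : T → X) {k : ℕ} (hk : k ≤ g.ni A j S v) {x : T}
    (h : x ∈ (g.next A j S v).pi.act) :
    (g.next A j S v).pi.lev x = (g.icur A j S v k).pi.lev x := by
  rw [next_lev, icur_lev j S v k x (next_act_icur j S v hk h)]
  exact icur_lev j S v _ x (next_act j S v h).1

section markov2

variable (hc : ∀ j x, g.cor j (g.cor j x) = g.cor j x) (hL : Loc g A)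
include hL

/-- the class at the start of the next super-stage is in the classes of the loop -/
theorem cls_icur (j : ℕ) (S : St T) (v v' : T → X) {k : ℕ} (hk : k ≤ g.ni A j S v)
    (h : v' ∈ Cls A.q (g.next A j S v).pi v) : v' ∈ Cls A.q (g.icur A j S v k).pi v :=
  cls_mono (loc_refines hL) (fun _ hx => next_act_icur j S v hk hx)
    (fun _ hx => (next_lev_icur j S v hk hx).ge) h

/-- the class at the start of the next super-stage is in the class at the end of the reading -/
theorem cls_next (j : ℕ) (S : St T) (v v' : T → X)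
    (h : v' ∈ Cls A.q (g.next A j S v).pi v) : v' ∈ Cls A.q (g.fin A j S v).pi v :=
  cls_icur hL j S v v' (Nat.zero_le _) h

omit hL in
theorem cand_sub {j : ℕ} {S : St T} {v : T → X} {F : Finset T} (hF : F ∈ g.cands A j S v) :
    F ⊆ stat S.pi := by
  classical
  obtain ⟨x, -, rfl⟩ := mem_image.1 hF
  unfold clu
  exact filter_subset _ _

theorem lk_iff (j : ℕ) (S : St T) (v v' : T → X) {k : ℕ} (hk : k ≤ g.ni A j S v)
    (h : v' ∈ Cls A.q (g.next A j S v).pi v) {F : Finset T} (hF : F ⊆ stat S.pi)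
    (don : Finset (Finset T)) :
    A.LK j S don (g.icur A j S v k).pi F v ↔ A.LK j S don (g.icur A j S v k).pi F v' := by
  refine hL.LK j S _ _ _ v v' (ag_of_cls (loc_refines hL) h fun y hy => ?_)
  rw [next_lev_icur j S v hk hy, if_neg]
  intro h4
  obtain ⟨z, hz, hyz⟩ := mem_nbhd.1 h4
  exact (next_act j S v hy).2 (mem_nbhd.2 ⟨z, hF hz, hyz⟩)

include hc

/-- the loop is a function of the class at the end -/
theorem icur_eq (j : ℕ) (S : St T) (hS : ∀ x ∈ S.pi.act, S.pi.lev x = g.lv j) (v v' : T → X)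
    (h : v' ∈ Cls A.q (g.next A j S v).pi v) :
    g.keep1 A j S v' = g.keep1 A j S v ∧ g.ilist A j S v' = g.ilist A j S v ∧
      ∀ k ≤ g.ni A j S v, g.icur A j S v' k = g.icur A j S v k := by
  have h0 := cls_next hL j S v v' h
  have h1 : g.fin A j S v' = g.fin A j S v := cur_eq hc hL j S hS v v' _ h0
  have hk1 : g.keep1 A j S v' = g.keep1 A j S v := by
    unfold keep1
    rw [h1]
  have hca : g.cands A j S v' = g.cands A j S v := by
    unfold cands cand
    rw [hk1]
  have hil : g.ilist A j S v' = g.ilist A j S v := by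
    unfold ilist
    rw [hca]
  refine ⟨hk1, hil, fun k => ?_⟩
  induction k with
  | zero =>
    intro _
    have h2 : g.icur A j S v' 0 = ⟨(g.fin A j S v').pi, ∅, ∅⟩ := rfl
    have h3 : g.icur A j S v 0 = ⟨(g.fin A j S v).pi, ∅, ∅⟩ := rfl
    rw [h2, h3, h1]
  | succ m ih =>
    intro hm
    have hm' : m < (g.ilist A j S v).length := hm
    have hm'' : m < (g.ilist A j S v').length := by rw [hil]; exact hm'
    rw [icur_succ_of_lt j S v m hm', icur_succ_of_lt j S v' m hm'', ih (le_of_lt hm')]
    have hF : (g.ilist A j S v)[m] ∈ g.cands A j S v := mem_toList.1 (List.getElem_mem hm')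
    have h5 : (g.ilist A j S v')[m] = (g.ilist A j S v)[m] := by simp only [hil]
    rw [h5]
    have h6 := lk_iff hL j S v v' (k := m) (le_of_lt hm') h (cand_sub hF)
      (g.icur A j S v m).don
    by_cases h7 : A.LK j S (g.icur A j S v m).don (g.icur A j S v m).pi
        ((g.ilist A j S v)[m]) v
    · rw [istp_of_pos h7, istp_of_pos (h6.1 h7)]
    · rw [istp_of_neg h7, istp_of_neg fun h8 => h7 (h6.2 h8)]

/-- the next state is a function of its class -/
theorem next_eq (j : ℕ) (S : St T) (hS : ∀ x ∈ S.pi.act, S.pi.lev x = g.lv j) (v v' : T → X)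
    (h : v' ∈ Cls A.q (g.next A j S v).pi v) : g.next A j S v' = g.next A j S v := by
  classical
  have h0 := cls_next hL j S v v' h
  have h1 : g.fin A j S v' = g.fin A j S v := cur_eq hc hL j S hS v v' _ h0
  obtain ⟨hk1, hil, hic⟩ := icur_eq hc hL j S hS v v' h
  have hni : g.ni A j S v' = g.ni A j S v := by
    unfold ni
    rw [hil]
  have hif : g.ifin A j S v' = g.ifin A j S v := by
    unfold ifin
    rw [hni]
    exact hic _ le_rfl
  have hk2 : g.keep2 A j S v' = g.keep2 A j S v := by
    unfold keep2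
    rw [hif]
  have h9 : v' ∈ Cls A.q (g.ifin A j S v).pi v := cls_icur hL j S v v' le_rfl h
  have hnp : g.nextP A j S v' = g.nextP A j S v := by
    unfold nextP
    rw [hif, hk1, hk2, freeze_eq hL _ _ v v' h9]
  have hlk2 : g.lkS A j S v' = g.lkS A j S v := by
    unfold lkS
    rw [hk2]
  unfold next bad
  rw [hnp, h1, hlk2]

end markov2

/-! ### the whole algorithm -/

theorem run_succ (j : ℕ) (v : T → X) : g.run A (j + 1) v = g.next A j (g.run A j v) v := rfl

section markov3

variable (hc : ∀ j x, g.cor j (g.cor j x) = g.cor j x) (hL : Loc g A)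
include hc hL

/-- at the start of super-stage `j` the active sites have the level `lv j` -/
theorem run_lev (j : ℕ) (v : T → X) : ∀ x ∈ (g.run A j v).pi.act,
    (g.run A j v).pi.lev x = g.lv j := by
  induction j with
  | zero => exact fun x _ => rfl
  | succ j ih =>
    intro x hx
    rw [run_succ] at hx ⊢
    rw [next_lev_icur j _ v (Nat.zero_le _) hx]
    exact fin_lev hc hL.lv_mono j _ ih v x (next_act_fin j _ v hx)

/-- the class at the start of super-stage `j + 1` is in the class at the start of `j` -/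
theorem cls_run_succ (j : ℕ) (v v' : T → X) (h : v' ∈ Cls A.q (g.run A (j + 1) v).pi v) :
    v' ∈ Cls A.q (g.run A j v).pi v :=
  cls_cur_start hc hL j _ (run_lev hc hL j v) v v'
    (cls_next hL j _ v v' (by rw [run_succ] at h; exact h))

/-- the state at the start of super-stage `j` is a function of its class -/
theorem run_eq (j : ℕ) (v v' : T → X) (h : v' ∈ Cls A.q (g.run A j v).pi v) :
    g.run A j v' = g.run A j v := by
  classical
  induction j with
  | zero =>
    have h1 : g.run A 0 v' = g.start A v' := rfl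
    have h2 : g.run A 0 v = g.start A v := rfl
    have hw : weak A (g.lv 0) v' univ = weak A (g.lv 0) v univ := by
      unfold weak
      refine filter_congr fun x _ => ?_
      exact hL.wk _ _ _ (ag_of_cls (loc_refines hL) h (fun x _ => le_rfl) x).symm
    rw [h1, h2]
    unfold start
    rw [hw]
  | succ j ih =>
    have h1 := ih (cls_run_succ hc hL j v v' h)
    rw [run_succ, run_succ, h1]
    refine next_eq hc hL j _ (run_lev hc hL j v) v v' ?_
    rw [run_succ] at h
    exact h

theorem cls_run_le (v v' : T → X) {j j' : ℕ} (hj : j ≤ j')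
    (h : v' ∈ Cls A.q (g.run A j' v).pi v) : v' ∈ Cls A.q (g.run A j v).pi v := by
  induction j', hj using Nat.le_induction with
  | base => exact h
  | succ k _ ih => exact ih (cls_run_succ hc hL k v v' h)

theorem cls_crun (j i : ℕ) (v v' : T → X) (h : v' ∈ Cls A.q (g.crun A j i v).pi v) :
    v' ∈ Cls A.q (g.run A j v).pi v :=
  cls_cur_start hc hL j _ (run_lev hc hL j v) v v' h

/-- the current state is a function of its class -/
theorem crun_eq (j i : ℕ) (v v' : T → X) (h : v' ∈ Cls A.q (g.crun A j i v).pi v) :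
    g.crun A j i v' = g.crun A j i v := by
  unfold crun
  rw [run_eq hc hL j v v' (cls_crun hc hL j i v v' h)]
  exact cur_eq hc hL j _ (run_lev hc hL j v) v v' i h

theorem cls_crun_le (j : ℕ) (v v' : T → X) {i i' : ℕ} (hi : i ≤ i')
    (h : v' ∈ Cls A.q (g.crun A j i' v).pi v) : v' ∈ Cls A.q (g.crun A j i v).pi v :=
  cls_cur_le hc hL j _ (run_lev hc hL j v) v v' hi h

theorem cls_run_crun (j i : ℕ) (hi : i ≤ g.ns j) (v v' : T → X)
    (h : v' ∈ Cls A.q (g.run A (j + 1) v).pi v) : v' ∈ Cls A.q (g.crun A j i v).pi v := by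
  rw [run_succ] at h
  exact cls_crun_le hc hL j v v' hi (cls_next hL j _ v v' h)

theorem cls_run_irun (j k : ℕ) (v v' : T → X) (hk : k ≤ g.ni A j (g.run A j v) v)
    (h : v' ∈ Cls A.q (g.run A (j + 1) v).pi v) : v' ∈ Cls A.q (g.irun A j k v).pi v := by
  rw [run_succ] at h
  exact cls_icur hL j _ v v' hk h

/-- rejection is a function of the class after the step -/
theorem rej_run_iff (j i : ℕ) (v v' : T → X) (h : v' ∈ Cls A.q (g.crun A j (i + 1) v).pi v) :
    g.Rej A j (g.run A j v) v i ↔ g.Rej A j (g.run A j v') v' i := by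
  rw [run_eq hc hL j v v' (cls_crun hc hL j _ v v' h)]
  exact rej_iff hc hL j _ (run_lev hc hL j v) v v' i h

end markov3

end Geo

end Pool.Agent.ANQ
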