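import Pool.Agent.ANQ.HistProc
import Pool.Agent.ANQ.ProcProb

/-! # ANQ / LeakCells: product bound for the cells which meet a cluster with failing leak test

`LeakHyp` = the joint bound (leak theorem) for several static sites with small and separated
clusters, conditionally on the class at the start of the super-stage.  `leak_cells` = the field
`leak` of `ProcIn`: union over the sites of the cells.
-/

set_option autoImplicit false

open Finset

namespace Pool.Agent.ANQ

open Pool.Agent.ANP (IsLaw Pr wt Pr_mono Pr_univ Pr_nonneg Pr_empty Pr_iUnion_le)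
open Pool.Agent.AND (Prof)
open Pool.Agent.ANM

variable {T X : Type} [Fintype T] [DecidableEq T] [Fintype X] [DecidableEq X] [Nonempty T]
variable {w : T → X → ℝ} {g : Geo T} {A : Ana T X}

/-- same information at the start of super-stage `j` -/
def RS (g : Geo T) (A : Ana T X) (j : ℕ) (v v' : T → X) : Prop := v' ∈ Cls A.q (g.run A j v).pi v

omit [DecidableEq X] [Fintype X] in
theorem rs_equiv (hc : ∀ j x, g.cor j (g.cor j x) = g.cor j x) (hL : Loc g A) (j : ℕ) : Equivalence (RS g A j) where
  refl v := cls_self _ _ _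
  symm {v v'} h := by
    have h1 := Geo.run_eq hc hL j v v' h
    unfold RS at h ⊢
    rw [h1]
    exact cls_symm h
  trans {v v' v''} h h' := by
    have h1 := Geo.run_eq hc hL j v v' h
    unfold RS at h h' ⊢
    rw [h1] at h'
    exact cls_trans h h'

/-- the joint bound of the leak theorem in super-stage `j`: the clusters of the static sites in `s`
have diameter at most `CD` and mutual distance more than `Ds` -/
def LeakHyp (w : T → X → ℝ) (g : Geo T) (A : Ana T X) (j CD Ds : ℕ) (l : ℝ) : Prop :=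
  ∀ (v : T → X) (s : Finset T), s ⊆ stat (g.run A j v).pi →
    (∀ x ∈ s, ∀ y ∈ g.clu j (g.run A j v) x, g.dist x y ≤ CD) →
    (∀ x ∈ s, ∀ y ∈ s, x ≠ y → ∀ z ∈ g.clu j (g.run A j v) x,
      ∀ z' ∈ g.clu j (g.run A j v) y, Ds < g.dist z z') →
    Pr w ({u | ∀ x ∈ s, x ∈ g.keep2 A j (g.run A j u) u} ∩ Cls A.q (g.run A j v).pi v) ≤
      l ^ s.card * Pr w (Cls A.q (g.run A j v).pi v)

omit [DecidableEq X] in
theorem lkS_zero (hc : ∀ j x, g.cor j (g.cor j x) = g.cor j x) (hd : ∀ x, g.dist x x = 0)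
    (hs : ∀ x y, g.dist x y = g.dist y x) (u : T → X) : g.lkS A 0 (g.run A 0 u) u = ∅ := by
  classical
  rw [eq_empty_iff_forall_notMem]
  intro L hL
  unfold Geo.lkS at hL
  obtain ⟨-, x, hx, -⟩ := mem_filter.1 hL
  have h1 := (Geo.mem_cand.1 (Geo.keep2_sub hs 0 _ u hx)).1
  have h2 := (Geo.hist g A hc hd hs (fun _ => 0) 0 u).st0
  have h3 : stat (g.run A 0 u).pi = ∅ := h2
  rw [h3] at h1
  exact notMem_empty _ h1

/-- the field `leak` of `ProcIn` -/
theorem leak_cells (hw : IsLaw w) (hL : Loc g A) {W : ℕ → ℕ} {V : ℕ} (hg : (g.par W V).Ok)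
    (j : ℕ) {Vc Ds : ℕ} {l a : ℝ} (hV : ∀ c, (g.cell j c).card ≤ Vc) (hl : 0 ≤ l)
    (hlk : 0 < j → LeakHyp w g A j ((g.par W V).CD (j - 1)) Ds l)
    (hsep : Ds + 2 * g.side j + 2 * (g.par W V).CD (j - 1) ≤ g.sep j) (ha : Vc * l ≤ a)
    (C : Finset T) (hC : SepBy (g.sp j) C) :
    Pr w {u | ∀ L ∈ C, L ∈ g.lkS A j (g.run A j u) u} ≤ a ^ C.card := by
  classical
  have hc : ∀ j x, g.cor j (g.cor j x) = g.cor j x := hg.idem
  have hd : ∀ x, g.dist x x = 0 := fun x => hg.met.self x
  have hs : ∀ x y, g.dist x y = g.dist y x := fun x y => hg.met.symm x y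
  have ht : ∀ x y z, g.dist x z ≤ g.dist x y + g.dist y z := fun x y z => hg.met.tri x y z
  have ha0 : 0 ≤ a := le_trans (mul_nonneg (Nat.cast_nonneg _) hl) ha
  cases j with
  | zero =>
    by_cases hCe : C = ∅
    · subst hCe
      simp only [card_empty, pow_zero]
      exact (Pr_mono hw (Set.subset_univ _)).trans (le_of_eq (Pr_univ hw))
    · obtain ⟨L, hLC⟩ := nonempty_iff_ne_empty.2 hCe
      have h1 : {u : T → X | ∀ L ∈ C, L ∈ g.lkS A 0 (g.run A 0 u) u} ⊆ ∅ := by
        intro u hu
        have h2 := hu L hLC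
        rw [lkS_zero hc hd hs] at h2
        exact absurd h2 (notMem_empty _)
      refine (Pr_mono hw h1).trans ?_
      rw [Pr_empty]
      exact pow_nonneg ha0 _
  | succ j =>
    rw [Nat.add_sub_cancel] at hsep hlk
    -- one choice of sites
    have hone : ∀ τ ∈ Fintype.piFinset (fun L : ↥C => g.cell (j + 1) L.1),
        Pr w {u | ∀ L : ↥C, τ L ∈ g.keep2 A (j + 1) (g.run A (j + 1) u) u} ≤ l ^ C.card := by
      intro τ hτ
      have hτ' : ∀ L : ↥C, g.cor (j + 1) (τ L) = L.1 := fun L =>
        Geo.mem_cell.1 (Fintype.mem_piFinset.1 hτ L)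
      have hinj : Function.Injective τ := fun L L' h => Subtype.ext (by
        rw [← hτ' L, ← hτ' L', h])
      have hcl : ∀ v : T → X,
          Pr w ({u | ∀ L : ↥C, τ L ∈ g.keep2 A (j + 1) (g.run A (j + 1) u) u} ∩
            {v' | RS g A (j + 1) v v'}) ≤ l ^ C.card * Pr w {v' | RS g A (j + 1) v v'} := by
        intro v
        by_cases hne : ∃ u, (∀ L : ↥C, τ L ∈ g.keep2 A (j + 1) (g.run A (j + 1) u) u) ∧
            RS g A (j + 1) v u
        · obtain ⟨u, hu, huv⟩ := hne
          have hrun : g.run A (j + 1) u = g.run A (j + 1) v := Geo.run_eq hc hL (j + 1) v u huv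
          have hcand : ∀ L : ↥C, τ L ∈ g.cand A (j + 1) (g.run A (j + 1) u) u := fun L =>
            Geo.keep2_sub hs _ _ u (hu L)
          have hdiam : ∀ L : ↥C, ∀ y ∈ g.clu (j + 1) (g.run A (j + 1) v) (τ L),
              g.dist (τ L) y ≤ (g.par W V).CD j := by
            intro L y hy
            rw [← hrun] at hy
            exact (Geo.hist g A hc hd hs W V u).cluster hg j
              ((Geo.hist g A hc hd hs W V u).cand_fz hg (hcand L))
              (Geo.mem_cand.1 (hcand L)).1 (Geo.mem_clu.1 hy).2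
          have h1 := hlk (Nat.succ_pos j) v (univ.image τ) (fun x hx => by
            obtain ⟨L, -, rfl⟩ := mem_image.1 hx
            rw [← hrun]
            exact (Geo.mem_cand.1 (hcand L)).1) (fun x hx => by
            obtain ⟨L, -, rfl⟩ := mem_image.1 hx
            exact hdiam L) (fun x hx y hy hxy z hz z' hz' => by
            obtain ⟨L, -, rfl⟩ := mem_image.1 hx
            obtain ⟨L', -, rfl⟩ := mem_image.1 hy
            have hLL : L.1 ≠ L'.1 := fun h => hxy (by rw [Subtype.ext h])
            have h2 : g.sep (j + 1) < g.dist L.1 L'.1 := (hC _ L.2 _ L'.2 hLL).2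
            have h3 := hdiam L z hz
            have h4 := hdiam L' z' hz'
            have h5 : g.dist (τ L) (g.cor (j + 1) (τ L)) ≤ g.side (j + 1) := hg.cor_le _ _
            have h6 : g.dist (τ L') (g.cor (j + 1) (τ L')) ≤ g.side (j + 1) := hg.cor_le _ _
            rw [hτ'] at h5 h6
            have h7 := ht L.1 (τ L) L'.1
            have h8 := ht (τ L) z L'.1
            have h9 := ht z z' L'.1
            have h10 := ht z' (τ L') L'.1
            have h11 := hs (τ L) L.1
            have h12 := hs z' (τ L')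
            omega)
          have h2 : (univ.image τ).card = C.card := by
            rw [card_image_of_injective _ hinj, card_univ, Fintype.card_coe]
          rw [h2] at h1
          refine le_trans (Pr_mono hw ?_) h1
          rintro u' ⟨h3, h4⟩
          refine ⟨fun x hx => ?_, h4⟩
          obtain ⟨L, -, rfl⟩ := mem_image.1 hx
          exact h3 L
        · have h1 : ({u | ∀ L : ↥C, τ L ∈ g.keep2 A (j + 1) (g.run A (j + 1) u) u} ∩
              {v' | RS g A (j + 1) v v'}) ⊆ (∅ : Set (T → X)) := by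
            rintro u ⟨h1, h2⟩
            exact hne ⟨u, h1, h2⟩
          refine (Pr_mono hw h1).trans ?_
          rw [Pr_empty]
          exact mul_nonneg (pow_nonneg hl _) (Pr_nonneg hw _)
      have h3 := cond_le (w := w) (RS g A (j + 1)) (rs_equiv hc hL (j + 1)) Set.univ
        {u | ∀ L : ↥C, τ L ∈ g.keep2 A (j + 1) (g.run A (j + 1) u) u}
        (fun _ _ _ _ => Set.mem_univ _) (l ^ C.card) (fun v _ => hcl v)
      rw [Set.inter_univ, Pr_univ hw, mul_one] at h3
      exact h3
    -- union
    have hsub : {u : T → X | ∀ L ∈ C, L ∈ g.lkS A (j + 1) (g.run A (j + 1) u) u} ⊆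
        ⋃ τ ∈ Fintype.piFinset (fun L : ↥C => g.cell (j + 1) L.1),
          {u | ∀ L : ↥C, τ L ∈ g.keep2 A (j + 1) (g.run A (j + 1) u) u} := by
      intro u hu
      have h1 : ∀ L : ↥C, ∃ x, x ∈ g.keep2 A (j + 1) (g.run A (j + 1) u) u ∧
          g.cor (j + 1) x = L.1 := by
        intro L
        have h2 := hu L.1 L.2
        unfold Geo.lkS at h2
        obtain ⟨-, x, hx, hxL⟩ := mem_filter.1 h2
        exact ⟨x, hx, hxL⟩
      choose τ h2 h3 using h1
      exact Set.mem_iUnion₂.2 ⟨τ, Fintype.mem_piFinset.2 fun L => Geo.mem_cell.2 (h3 L), h2⟩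
    refine (Pr_mono hw hsub).trans ?_
    refine (Pr_iUnion_le hw (Fintype.piFinset (fun L : ↥C => g.cell (j + 1) L.1))
      (fun τ => {u : T → X | ∀ L : ↥C, τ L ∈ g.keep2 A (j + 1) (g.run A (j + 1) u) u})).trans ?_
    refine (sum_le_sum hone).trans ?_
    rw [sum_const, nsmul_eq_mul, Fintype.card_piFinset]
    push_cast
    calc (∏ L : ↥C, ((g.cell (j + 1) L.1).card : ℝ)) * l ^ C.card
        ≤ (Vc : ℝ) ^ C.card * l ^ C.card := by
          refine mul_le_mul_of_nonneg_right ?_ (pow_nonneg hl _)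
          calc (∏ L : ↥C, ((g.cell (j + 1) L.1).card : ℝ)) ≤ ∏ _L : ↥C, (Vc : ℝ) :=
                prod_le_prod (fun _ _ => Nat.cast_nonneg _) fun L _ => by exact_mod_cast hV L.1
            _ = (Vc : ℝ) ^ C.card := by rw [prod_const, card_univ, Fintype.card_coe]
      _ = (Vc * l) ^ C.card := (mul_pow _ _ _).symm
      _ ≤ a ^ C.card := pow_le_pow_left₀ (mul_nonneg (Nat.cast_nonneg _) hl) ha _

end Pool.Agent.ANQ
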