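import Pool.Agent.ANQ.NearProc
import Pool.Agent.ANQ.Torus

/-! # ANQ / Mult: at most `J` inserted clusters have the same anchor

`don_mult`: in super-stage `j` at most `J` of the clusters in `don` have the anchor `c`, for every
choice of anchors `an C = cor j y`, `y ∈ C`.  `tor_rho`: the condition on the lengths for the torus.
`don_mult_tor`: the torus.
-/

set_option autoImplicit false
set_option linter.unusedSectionVars false

open Finset Filter Topology

namespace Pool.Agent.ANQ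

open Pool.Agent.ANP (IsLaw Pr wt)
open Pool.Agent.AND (Prof)
open Pool.Agent.ANM Pool.Agent.Kin

variable {T X : Type} [Fintype T] [DecidableEq T] [Fintype X] [DecidableEq X]

namespace Geo

variable {g : Geo T} {A : Ana T X} [Nonempty T]

/-- a tested cluster is not empty -/
theorem cands_ne {j : ℕ} {S : St T} {v : T → X} {F : Finset T} (hF : F ∈ g.cands A j S v) :
    F.Nonempty := by
  classical
  obtain ⟨x, hx, rfl⟩ := mem_image.1 hF
  exact ⟨x, mem_clu_self (mem_cand.1 hx).1⟩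

/-- AT MOST `J` INSERTED CLUSTERS HAVE THE SAME ANCHOR -/
theorem don_mult (W : ℕ → ℕ) (V : ℕ) (hg : (g.par W V).Ok) (j : ℕ)
    (hr : ∀ i, j = i + 1 → 2 * (W i + g.sep i) ≤ g.rho (i + 1)) (v : T → X) (k : ℕ)
    (an : Finset T → T) (han : ∀ C : Finset T, C.Nonempty → ∃ y ∈ C, an C = g.cor j y) (c : T) :
    ((g.irun A j k v).don.filter fun C => an C = c).card ≤ g.J := by
  classical
  have hm := hg.met
  have hs : ∀ x y, g.dist x y = g.dist y x := hm.symm
  have hd : ∀ x, g.dist x x = 0 := hm.self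
  have hc : ∀ j x, g.cor j (g.cor j x) = g.cor j x := hg.idem
  have hsub : ∀ C ∈ (g.irun A j k v).don, C ∈ g.cands A j (g.run A j v) v :=
    fun C hC => (icur_sub j _ v k).1 hC
  set F := (g.irun A j k v).don.filter fun C => an C = c with hF
  by_cases hne : F.Nonempty
  swap
  · rw [not_nonempty_iff_eq_empty.1 hne, card_empty]
    exact Nat.zero_le _
  obtain ⟨C0, hC0⟩ := hne
  obtain ⟨h1, h2⟩ := mem_filter.1 hC0
  obtain ⟨y0, hy0, e0⟩ := han C0 (cands_ne (hsub C0 h1))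
  have hy0c : y0 ∈ g.cand A j (g.run A j v) v := (mem_cand_iff hs).2 ⟨C0, hsub C0 h1, hy0⟩
  set H := g.hist A hc hd hs W V v with hH
  cases j with
  | zero =>
    have h3 : y0 ∈ H.st 0 := (mem_cand.1 hy0c).1
    rw [H.st0] at h3
    exact absurd h3 (notMem_empty y0)
  | succ i =>
    have hy0H : y0 ∈ H.cand (i + 1) := hy0c
    obtain ⟨B, -, hB, hcov⟩ := H.few hg i (H.cand_fz hg hy0H)
    have key : ∀ C ∈ F, ∃ y ∈ C, ∃ b ∈ B, g.dist y b ≤ W i + g.sep i := by
      intro C hC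
      obtain ⟨h3, h4⟩ := mem_filter.1 hC
      obtain ⟨y, hy, e⟩ := han C (cands_ne (hsub C h3))
      have hyc : y ∈ H.cand (i + 1) := (mem_cand_iff hs).2 ⟨C, hsub C h3, hy⟩
      have a1 : g.dist y0 (g.cor (i + 1) y0) ≤ g.side (i + 1) := hg.cor_le (i + 1) y0
      have a2 : g.dist y (g.cor (i + 1) y) ≤ g.side (i + 1) := hg.cor_le (i + 1) y
      have a3 : g.cor (i + 1) y0 = g.cor (i + 1) y := by rw [← e0, ← e, h2, h4]
      rw [a3] at a1
      rw [hs] at a2
      have a4 : g.dist y0 y ≤ g.dist y0 (g.cor (i + 1) y) + g.dist (g.cor (i + 1) y) y :=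
        hm.tri y0 (g.cor (i + 1) y) y
      have a5 : g.dist y0 y ≤ 4 * g.side (i + 1) := by omega
      obtain ⟨b, hb, hyb⟩ := hcov y (H.cst _ hyc) a5
      exact ⟨y, hy, b, hb, hyb⟩
    choose! y hy b hb hyb using key
    have hinj : Set.InjOn b (F : Set (Finset T)) := by
      intro C hC C' hC' e
      by_contra hne
      have h3 := cands_far hs (hsub C (mem_filter.1 (mem_coe.1 hC)).1)
        (hsub C' (mem_filter.1 (mem_coe.1 hC')).1) hne (hy C (mem_coe.1 hC)) (hy C' (mem_coe.1 hC'))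
      have a1 := hyb C (mem_coe.1 hC)
      have a2 := hyb C' (mem_coe.1 hC')
      rw [← e, hs] at a2
      have a3 : g.dist (y C) (y C') ≤ g.dist (y C) (b C) + g.dist (b C) (y C') :=
        hm.tri (y C) (b C) (y C')
      have a4 := hr i rfl
      omega
    have h3 : F.card ≤ B.card :=
      card_le_card_of_injOn b (fun C hC => hb C hC) hinj
    exact h3.trans (le_of_lt hB)

end Geo

/-- the clusters are farther apart than the small balls -/
theorem tor_rho (J cs : ℕ) (hJ : 0 < J) {al : ℕ} (hal : 2 ≤ al) {v2 : ℝ} (hv : 0 ≤ v2)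
    (hv1 : v2 ≤ 1) : ∀ᶠ k0 in 𝓝[>] (0 : ℝ), ∀ i,
      2 * (ANC.dW k0 al i + ANC.sep k0 al cs i) ≤ ANC.rho k0 al J (i + 1) := by
  filter_upwards [ANC.len_ok J (100 * (4 + cs)) cs hal hv hv1] with k0 h i
  have h2 := (h i).2.2.2
  have e1 : ANC.dW k0 al i = 4 * ANC.side k0 al i := rfl
  have e2 : ANC.sep k0 al cs i = cs * ANC.side k0 al i := rfl
  have e3 : ANC.rho k0 al J (i + 1) = ANC.side k0 al (i + 1) / (100 * J) := rfl
  rw [e1, e2, e3, Nat.le_div_iff_mul_le (by omega)]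
  refine le_trans ?_ h2
  have h4 : (J * (100 * (4 + cs))) * (2 * ANC.side k0 al i) ≤
      2 ^ (i + 2) * (J * (100 * (4 + cs)) + 1) *
        (2 * ANC.hR k0 al v2 (i + 1) + 2 * ANC.side k0 al i + 2) := by
    apply Nat.mul_le_mul
    · have h5 : 1 ≤ 2 ^ (i + 2) := Nat.one_le_two_pow
      calc J * (100 * (4 + cs)) ≤ 1 * (J * (100 * (4 + cs)) + 1) := by omega
        _ ≤ 2 ^ (i + 2) * (J * (100 * (4 + cs)) + 1) := Nat.mul_le_mul_right _ h5
    · omega
  refine le_trans (le_of_eq ?_) h4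
  ring

/-- AT MOST `J` INSERTED CLUSTERS HAVE THE SAME ANCHOR, THE TORUS -/
theorem don_mult_tor (d J cs : ℕ) (hJ : 0 < J) {al : ℕ} (hal : 2 ≤ al) {v2 : ℝ} (hv : 0 ≤ v2)
    (hv1 : v2 ≤ 1) : ∀ᶠ k0 in 𝓝[>] (0 : ℝ), ∀ (N nf : ℕ) [NeZero N]
      (A : Ana (Tor d N) X) (j k : ℕ) (v : Tor d N → X) (an : Finset (Tor d N) → Tor d N),
      (∀ C : Finset (Tor d N), C.Nonempty →
        ∃ y ∈ C, an C = (torGeo d N k0 al J cs v2 nf).cor j y) →
      ∀ c, (((torGeo d N k0 al J cs v2 nf).irun A j k v).don.filter fun C => an C = c).card ≤ J := by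
  filter_upwards [par_ok d J cs hal hv hv1, tor_rho J cs hJ hal hv hv1] with k0 h1 h2 N nf _ A j k v
    an han c
  exact Geo.don_mult (ANC.dW k0 al) (VV d cs) (h1 N nf) j (fun i _ => h2 i) v k an han c

end Pool.Agent.ANQ
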