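import Pool.Agent.ANQ.Torus
import Pool.Agent.ANQ.LeakCells
import Pool.Agent.ANC.RecP

/-! # ANQ / ProcTor: the probability of bad cells for the process on the torus

`procIn_tor`: all numerical and geometric fields of `ProcIn` for `torGeo` with `q j = ks (j + 1) ^ K1`;
`bad_tor`: `Pr (c is bad in super-stage j) ≤ ks (j + 1) ^ K1`; `leak_tor`: the field `leak` from the
joint leak bound `LeakHyp`.
-/

set_option autoImplicit false

open Finset Filter Topology

namespace Pool.Agent.ANQ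

open Pool.Agent.ANM Pool.Agent.Kin Pool.Agent.ANC
open Pool.Agent.ANP (IsLaw Pr dT)

/-- bound of the number of tuples -/
noncomputable def nnT (d : ℕ) (k0 : ℝ) (al J : ℕ) (j : ℕ) : ℝ := ((39 * (side k0 al j : ℝ)) ^ d) ^ J

theorem nnT_le {k0 : ℝ} (h : 0 < k0) (h1 : k0 < 1) (d al J j : ℕ) :
    nnT d k0 al J (j + 1) ≤ (78 ^ d) ^ J * ks k0 al (j + 2) ^ (-((2 * d * J : ℕ) : ℝ)) := by
  have h2 := (side_rpow h h1 al (j + 1)).2
  have hk := ks_pos h al (j + 2)
  have h3 : 39 * (side k0 al (j + 1) : ℝ) ≤ 78 * ks k0 al (j + 2) ^ (-2 : ℝ) := by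
    have h4 : ks k0 al (j + 1 + 1) = ks k0 al (j + 2) := rfl
    rw [h4] at h2
    linarith
  have h4 : ks k0 al (j + 2) ^ (-((2 * d * J : ℕ) : ℝ)) =
      ((ks k0 al (j + 2) ^ (-2 : ℝ)) ^ d) ^ J := by
    rw [← Real.rpow_natCast, ← Real.rpow_natCast, ← Real.rpow_mul hk.le, ← Real.rpow_mul hk.le]
    congr 1
    push_cast
    ring
  rw [h4, ← mul_pow, ← mul_pow]
  unfold nnT
  gcongr

section

variable {d N : ℕ} [NeZero N] {X : Type} [Fintype X] [DecidableEq X]

/-- the numbers `p j i` -/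
noncomputable def pT {T : Type} [Fintype T] [DecidableEq T] (g : Geo T) (k0 Cp Kp : ℝ)
    (j i : ℕ) : ℝ := Cp * kap k0 (g.sn j i) ^ Kp

/-- ALL FIELDS OF `ProcIn` ON THE TORUS -/
theorem procIn_tor (d : ℕ) {al J : ℕ} (hal : 2 ≤ al) (hJ0 : 0 < J) {v2 K1 Kp Cp : ℝ}
    (hv : 0 ≤ v2) (hv1 : v2 ≤ 1) (hK : 0 ≤ K1) (hCp : 0 ≤ Cp) (hKp : 5 * K1 * al < Kp)
    (hJ : 5 * K1 + ((2 * d * J : ℕ) : ℝ) < K1 * J / al) :
    ∀ᶠ k0 in 𝓝[>] (0 : ℝ), ∀ (N nf : ℕ) [NeZero N] (X : Type) [Fintype X] [DecidableEq X]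
      (w : Tor d N → X → ℝ) (A : Ana (Tor d N) X) (M : ℕ) (E1 : ℕ → ℕ → Set (Tor d N → X))
      (E2 : ℕ → Tor d N → Set (Tor d N → X)) (xp xl : ℕ → ℝ),
      lv k0 al (M + 1) ≤ nf →
      IsLaw w → Loc (torGeo d N k0 al J 24 v2 nf) A →
      (∀ j ≤ M, ∀ i < (torGeo d N k0 al J 24 v2 nf).ns j, ∀ v,
        (torGeo d N k0 al J 24 v2 nf).Rej A j ((torGeo d N k0 al J 24 v2 nf).run A j v) v i →
        v ∈ E1 j i ∨ v ∈ E2 j ((torGeo d N k0 al J 24 v2 nf).sL j i)) →
      (∀ j ≤ M, ∀ i < (torGeo d N k0 al J 24 v2 nf).ns j, ∀ v ∈ E1 j i,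
        ∀ v' ∈ Cls A.q ((torGeo d N k0 al J 24 v2 nf).crun A j (i + 1) v).pi v, v' ∈ E1 j i) →
      (∀ j ≤ M, ∀ i < (torGeo d N k0 al J 24 v2 nf).ns j, ∀ v,
        Pr w (E1 j i ∩ Cls A.q ((torGeo d N k0 al J 24 v2 nf).crun A j i v).pi v) ≤
          pT (torGeo d N k0 al J 24 v2 nf) k0 Cp Kp j i *
            Pr w (Cls A.q ((torGeo d N k0 al J 24 v2 nf).crun A j i v).pi v)) →
      (∀ j ≤ M, 0 ≤ xp j ∧ xp j ≤ an k0 al K1 j ^ 5) →
      (∀ j ≤ M, ∀ C : Finset (Tor d N), SepBy ((torGeo d N k0 al J 24 v2 nf).sp j) C →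
        Pr w {u | ∀ L ∈ C, u ∈ E2 j L} ≤ xp j ^ C.card) →
      (∀ j ≤ M, 0 ≤ xl j ∧ xl j ≤ an k0 al K1 j ^ 5) →
      (∀ j ≤ M, ∀ C : Finset (Tor d N), SepBy ((torGeo d N k0 al J 24 v2 nf).sp j) C →
        Pr w {u | ∀ L ∈ C, L ∈ (torGeo d N k0 al J 24 v2 nf).lkS A j
          ((torGeo d N k0 al J 24 v2 nf).run A j u) u} ≤ xl j ^ C.card) →
      (∀ j S L v, ¬ A.PR j S L v) →
      ProcIn w (torGeo d N k0 al J 24 v2 nf) A M E1 E2
        (pT (torGeo d N k0 al J 24 v2 nf) k0 Cp Kp) (fun _ => an k0 al K1) (an k0 al K1)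
        (qn k0 al K1) (nnT d k0 al J) := by
  classical
  filter_upwards [tor_sep J 24 le_rfl hal hv hv1, steps_le Cp hal hK hKp,
    ANC.many_le ((78 ^ d) ^ J) hal hK hJ, ev_small (show (0 : ℝ) < 1 / 2 by norm_num),
    len_ok J 1 24 hal hv hv1] with k0 hsep hsteps hmany hk hlen N nf _ X _ _ w A M E1 E2 xp xl hnf
      hw hL hrej hmE1 hstep hxp hperc hxl hleak hpr
  have hk0 := hk.1
  have hk1 : k0 < 1 := by linarith [hk.2]
  have hside : ∀ j, side k0 al j ≤ side k0 al (j + 1) := fun j => by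
    have h1 := (hlen j).2.2.2
    have h2 : 1 * (side k0 al j) ≤ 2 ^ (j + 2) * (J * 1 + 1) *
        (2 * hR k0 al v2 (j + 1) + 2 * side k0 al j + 2) := by
      apply Nat.mul_le_mul
      · exact Nat.one_le_iff_ne_zero.2 (by positivity)
      · omega
    omega
  have hlv : ∀ j ≤ M + 1, (torGeo d N k0 al J 24 v2 nf).lv j = lv k0 al j := fun j hj =>
    min_eq_left (((lv_mono hk0 hk1 hal).monotone hj).trans hnf)
  refine
    { law := hw
      loc := hL
      cor := tor_cor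
      symm := tor_symm
      tri := tor_tri
      J0 := hJ0
      sep := fun j _ => (hsep d N nf j).1
      pos := fun j _ => (hsep d N nf j).2
      nbc := fun j _ L => tor_nbc j L (hside j)
      rej := hrej
      mE1 := hmE1
      p0 := fun j i => mul_nonneg hCp (Real.rpow_nonneg (kap_pos hk0 _).le _)
      step := hstep
      psum := ?_
      perc := ?_
      leak := ?_
      pr := ?_
      a0 := fun _ j => (an_pos hk0 al K1 j).le
      b0 := fun j => (an_pos hk0 al K1 j).le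
      many := fun j _ => hmany j _ (nnT_le hk0 hk1 d al J j)
      sum := fun j _ => sum_an hk0 al K1 j }
  · intro j hj L
    have h1 : (torGeo d N k0 al J 24 v2 nf).lv j ≤ (torGeo d N k0 al J 24 v2 nf).lv (j + 1) :=
      tor_lv_mono hk0 hk1 hal (Nat.le_succ j)
    have h2 := Geo.psum_le (torGeo d N k0 al J 24 v2 nf) j h1 L (fun n => Cp * kap k0 n ^ Kp)
      (fun n => mul_nonneg hCp (Real.rpow_nonneg (kap_pos hk0 _).le _))
    rw [hlv j (by omega), hlv (j + 1) (by omega)] at h2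
    exact h2.trans (hsteps j)
  · intro j hj C hC
    refine (hperc j hj C hC).trans ?_
    exact pow_le_pow_left₀ (hxp j hj).1 (hxp j hj).2 _
  · intro j hj C hC
    refine (hleak j hj C hC).trans ?_
    exact pow_le_pow_left₀ (hxl j hj).1 (hxl j hj).2 _
  · intro j hj C hC
    have ha := an_pos hk0 al K1 j
    rcases C.eq_empty_or_nonempty with rfl | ⟨L, hLC⟩
    · simp only [notMem_empty, false_imp_iff, implies_true, Set.ofPred_true, card_empty, pow_zero]
      rw [ANP.Pr_univ hw]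
    · have h1 : {u : Tor d N → X | ∀ L ∈ C, A.PR j ((torGeo d N k0 al J 24 v2 nf).run A j u) L u}
          = ∅ := by
        ext u
        simp only [Set.mem_ofPred_eq, Set.mem_empty_iff_false, iff_false]
        exact fun h => hpr _ _ _ _ (h L hLC)
      rw [h1, ANP.Pr_empty]
      positivity

/-- the field `leak` on the torus from the joint leak bound -/
theorem leak_tor (d : ℕ) {al J : ℕ} (hal : 2 ≤ al) {v2 : ℝ} (hv : 0 ≤ v2) (hv1 : v2 ≤ 1) :
    ∀ᶠ k0 in 𝓝[>] (0 : ℝ), ∀ (N nf : ℕ) [NeZero N] (X : Type) [Fintype X] [DecidableEq X]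
      (w : Tor d N → X → ℝ) (A : Ana (Tor d N) X) (j : ℕ) (l : ℝ), 0 ≤ l →
      IsLaw w → Loc (torGeo d N k0 al J 24 v2 nf) A →
      (0 < j → LeakHyp w (torGeo d N k0 al J 24 v2 nf) A j (side k0 al j) (20 * side k0 al j) l) →
      ∀ C : Finset (Tor d N), SepBy ((torGeo d N k0 al J 24 v2 nf).sp j) C →
        Pr w {u | ∀ L ∈ C, L ∈ (torGeo d N k0 al J 24 v2 nf).lkS A j
          ((torGeo d N k0 al J 24 v2 nf).run A j u) u} ≤ ((side k0 al j : ℝ) ^ d * l) ^ C.card := by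
  classical
  filter_upwards [par_ok d J 24 hal hv hv1] with k0 hok N nf _ X _ _ w A j l hl hw hL hlk C hC
  set g := torGeo d N k0 al J 24 v2 nf with hg
  have hok' : (g.par (dW k0 al) (VV d 24)).Ok := hok N nf
  have hcell : ∀ c, (g.cell j c).card ≤ side k0 al j ^ d := by
    intro c
    have h1 : g.cell j c = univ.filter fun x : Tor d N => ANP.cor (side k0 al j) x = c := rfl
    rw [h1]
    by_cases hc : ∃ x : Tor d N, ANP.cor (side k0 al j) x = c
    · obtain ⟨x, rfl⟩ := hc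
      exact ANP.card_cell (side_pos k0 al j) x
    · push Not at hc
      rw [filter_false_of_mem fun x _ => hc x, card_empty]
      exact Nat.zero_le _
  have hCDj : 0 < j → (g.par (dW k0 al) (VV d 24)).CD (j - 1) ≤ side k0 al j := by
    intro hj
    have h1 := hok'.cd (j - 1)
    rw [Nat.sub_add_cancel hj] at h1
    have h2 : (g.par (dW k0 al) (VV d 24)).side j = side k0 al j := rfl
    omega
  rcases Nat.eq_zero_or_pos j with hj | hj
  · subst hj
    rcases C.eq_empty_or_nonempty with rfl | ⟨L, hLC⟩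
    · simp only [notMem_empty, false_imp_iff, implies_true, Set.ofPred_true, card_empty, pow_zero]
      rw [ANP.Pr_univ hw]
    · have h1 : {u : Tor d N → X | ∀ L ∈ C, L ∈ g.lkS A 0 (g.run A 0 u) u} = ∅ := by
        ext u
        simp only [Set.mem_ofPred_eq, Set.mem_empty_iff_false, iff_false]
        intro h
        have h2 := h L hLC
        rw [lkS_zero tor_cor tor_self tor_symm u] at h2
        exact notMem_empty _ h2
      rw [h1, ANP.Pr_empty]
      positivity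
  · refine leak_cells hw hL hok' j (Vc := side k0 al j ^ d) (Ds := 20 * side k0 al j) (l := l)
      hcell hl (fun _ => ?_) ?_ ?_ C hC
    · intro v s hs hcl hfar
      exact hlk hj v s hs (fun x hx y hy => (hcl x hx y hy).trans (hCDj hj)) hfar
    · have h3 := hCDj hj
      have h4 : g.side j = side k0 al j := rfl
      have h5 : g.sep j = 24 * side k0 al j := rfl
      rw [h4, h5]
      omega
    · push_cast
      exact le_rfl

end

end Pool.Agent.ANQ
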