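import Pool.Agent.ANQ.Box

/-!
# ANQ: product bound for the leak events of several clusters; mixed bound

`cover`: for every `i` there is one unknown transversal `s ∈ Tr i` inside the zone `Z i`
(the zones are disjoint).  If in every section (all coordinates off `⋃ σ i` fixed, inside the box
`K`) which contains one point `u` of the event, the events force `v` into sets `H i`, depending
only on the coordinates in `σ i`, of conditional probability at most `l i`, then all events hold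
with conditional probability at most `∏ (Tr i).card * l i`.
-/

set_option autoImplicit false

open Finset

namespace Pool.Agent.ANQ

open Pool.Agent.ANP

variable {Λ X : Type} [Fintype Λ] [DecidableEq Λ] [Fintype X] [DecidableEq X]
variable {w : Λ → X → ℝ}

/-- one family of transversals -/
theorem cover_one (hw : IsLaw w) {K : Λ → Set X} {ι : Type} [Fintype ι] [DecidableEq ι]
    (σ : ι → Finset Λ) (hσ : ∀ i j, i ≠ j → Disjoint (σ i) (σ j))
    (E : Set (Λ → X)) (l : ι → ℝ) (hl : ∀ i, 0 ≤ l i)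
    (HS : ∀ u ∈ Bx K, u ∈ E → ∃ H : ι → Set (Λ → X), (∀ i, Dep K (σ i) (H i)) ∧
      (∀ i, Pr w (H i ∩ Bx K) ≤ l i * Pr w (Bx K)) ∧
      ∀ v ∈ Bx K, (∀ x, (∀ i, x ∉ σ i) → v x = u x) → v ∈ E → ∀ i, v ∈ H i) :
    Pr w (E ∩ Bx K) ≤ (∏ i, l i) * Pr w (Bx K) := by
  classical
  set s : Finset Λ := univ.biUnion σ with hs
  have hmem : ∀ x, x ∉ s ↔ ∀ i, x ∉ σ i := by
    intro x
    simp [hs]
  set r : (Λ → X) → (Λ → X) → Prop := fun v v' =>
    (v ∈ Bx K ↔ v' ∈ Bx K) ∧ ∀ x, x ∉ s → v x = v' x with hr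
  have hreq : Equivalence r := by
    refine ⟨fun v => ⟨Iff.rfl, fun _ _ => rfl⟩, ?_, ?_⟩
    · rintro v v' ⟨h1, h2⟩
      exact ⟨h1.symm, fun x hx => (h2 x hx).symm⟩
    · rintro v v' v'' ⟨h1, h2⟩ ⟨h3, h4⟩
      exact ⟨h1.trans h3, fun x hx => (h2 x hx).trans (h4 x hx)⟩
  have hpl : 0 ≤ ∏ i, l i := prod_nonneg fun i _ => hl i
  refine cond_le r hreq (Bx K) E ?_ (∏ i, l i) ?_
  · rintro v hv v' ⟨h1, -⟩
    exact h1.1 hv
  · intro u hu
    have hcls : {v' | r u v'} = Bx (sec K s u) := by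
      rw [Bx_sec hu]
      ext v
      constructor
      · rintro ⟨h1, h2⟩
        exact ⟨fun x hx => (h2 x hx).symm, h1.1 hu⟩
      · rintro ⟨h1, h2⟩
        exact ⟨⟨fun _ => h2, fun _ => hu⟩, fun x hx => (h1 x hx).symm⟩
    rw [hcls]
    by_cases hne : ∃ u', u' ∈ E ∩ Bx (sec K s u)
    · obtain ⟨u', hu'E, hu's⟩ := hne
      have hu's' := hu's
      rw [Bx_sec hu] at hu's'
      obtain ⟨hoff, hu'K⟩ := hu's'
      have hsec : sec K s u' = sec K s u := by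
        funext x
        unfold sec
        split_ifs with hx
        · rfl
        · rw [hoff x hx]
      rw [← hsec]
      obtain ⟨H, hH1, hH2, hH3⟩ := HS u' hu'K hu'E
      have hsub : E ∩ Bx (sec K s u') ⊆ {v | ∀ i ∈ (univ : Finset ι), v ∈ H i} ∩
          Bx (sec K s u') := by
        rintro v ⟨hv1, hv2⟩
        refine ⟨fun i _ => ?_, hv2⟩
        rw [Bx_sec hu'K] at hv2
        exact hH3 v hv2.2 (fun x hx => hv2.1 x ((hmem x).2 hx)) hv1 i
      refine (Pr_mono hw hsub).trans ?_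
      refine Pr_prod_box hw univ σ H l (fun i _ => hl i) (fun i _ j _ hij => hσ i j hij)
        (fun i _ => Dep_sec hu'K (hH1 i)) fun i _ => ?_
      exact Pr_sec_le hw (subset_biUnion_of_mem σ (mem_univ i)) hu'K (hH1 i) (hH2 i)
    · have h0 : E ∩ Bx (sec K s u) = ∅ := by
        ext v
        simp only [Set.mem_empty_iff_false, iff_false]
        exact fun hv => hne ⟨v, hv⟩
      rw [h0, Pr_empty]
      exact mul_nonneg hpl (Pr_nonneg hw _)

theorem cover (hw : IsLaw w) {K : Λ → Set X} {ι : Type} [Fintype ι] [DecidableEq ι]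
    (Z : ι → Finset Λ) (hZ : ∀ i j, i ≠ j → Disjoint (Z i) (Z j))
    (Tr : ι → Finset (Finset Λ)) (hTr : ∀ i, ∀ s ∈ Tr i, s ⊆ Z i)
    (Ev : ι → Finset Λ → Set (Λ → X)) (l : ι → ℝ) (hl : ∀ i, 0 ≤ l i)
    (HS : ∀ σ : ι → Finset Λ, (∀ i, σ i ∈ Tr i) → ∀ u ∈ Bx K, (∀ i, u ∈ Ev i (σ i)) →
      ∃ H : ι → Set (Λ → X), (∀ i, Dep K (σ i) (H i)) ∧
      (∀ i, Pr w (H i ∩ Bx K) ≤ l i * Pr w (Bx K)) ∧
      ∀ v ∈ Bx K, (∀ x, (∀ i, x ∉ σ i) → v x = u x) → (∀ i, v ∈ Ev i (σ i)) →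
        ∀ i, v ∈ H i) :
    Pr w ({v | ∀ i, ∃ s ∈ Tr i, v ∈ Ev i s} ∩ Bx K) ≤
      (∏ i, ((Tr i).card : ℝ) * l i) * Pr w (Bx K) := by
  classical
  have hsub : ({v : Λ → X | ∀ i, ∃ s ∈ Tr i, v ∈ Ev i s} ∩ Bx K) ⊆
      ⋃ σ ∈ Fintype.piFinset Tr, ({v | ∀ i, v ∈ Ev i (σ i)} ∩ Bx K) := by
    rintro v ⟨hv, hvK⟩
    choose σ hσ hσE using hv
    exact Set.mem_iUnion₂.2 ⟨σ, Fintype.mem_piFinset.2 hσ, hσE, hvK⟩
  refine (Pr_mono hw hsub).trans ?_
  refine (Pr_iUnion_le hw (Fintype.piFinset Tr)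
    (fun σ => {v | ∀ i, v ∈ Ev i (σ i)} ∩ Bx K)).trans ?_
  have hone : ∀ σ ∈ Fintype.piFinset Tr, Pr w ({v | ∀ i, v ∈ Ev i (σ i)} ∩ Bx K) ≤
      (∏ i, l i) * Pr w (Bx K) := by
    intro σ hσ
    have hσ' := Fintype.mem_piFinset.1 hσ
    refine cover_one hw σ (fun i j hij => ?_) {v | ∀ i, v ∈ Ev i (σ i)} l hl
      fun u hu hE => HS σ hσ' u hu hE
    exact Finset.disjoint_of_subset_left (hTr i _ (hσ' i))
      (Finset.disjoint_of_subset_right (hTr j _ (hσ' j)) (hZ i j hij))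
  refine (sum_le_sum hone).trans ?_
  rw [sum_const, Fintype.card_piFinset, nsmul_eq_mul, prod_mul_distrib]
  push_cast
  exact le_of_eq (by ring)

/-- mixed bound: no independence needed -/
theorem mixed (hw : IsLaw w) {A B C : Set (Λ → X)} {a b : ℝ} (ha : 0 ≤ a) (hb : 0 ≤ b)
    (hA : Pr w (A ∩ C) ≤ a * Pr w C) (hB : Pr w (B ∩ C) ≤ b * Pr w C) :
    Pr w (A ∩ B ∩ C) ≤ (√a * √b) * Pr w C := by
  have hC := Pr_nonneg hw C
  have s1 : A ∩ B ∩ C ⊆ A ∩ C := fun v hv => ⟨hv.1.1, hv.2⟩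
  have s2 : A ∩ B ∩ C ⊆ B ∩ C := fun v hv => ⟨hv.1.2, hv.2⟩
  have h1 : Pr w (A ∩ B ∩ C) ≤ a * Pr w C := (Pr_mono hw s1).trans hA
  have h2 : Pr w (A ∩ B ∩ C) ≤ b * Pr w C := (Pr_mono hw s2).trans hB
  rcases le_total a b with hab | hab
  · refine h1.trans (mul_le_mul_of_nonneg_right ?_ hC)
    calc a = √a * √a := (Real.mul_self_sqrt ha).symm
      _ ≤ √a * √b := mul_le_mul_of_nonneg_left (Real.sqrt_le_sqrt hab) (Real.sqrt_nonneg _)
  · refine h2.trans (mul_le_mul_of_nonneg_right ?_ hC)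
    calc b = √b * √b := (Real.mul_self_sqrt hb).symm
      _ ≤ √a * √b := mul_le_mul_of_nonneg_right (Real.sqrt_le_sqrt hab) (Real.sqrt_nonneg _)

end Pool.Agent.ANQ
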