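import Pool.Agent.ANQ.Box

/-!
# ANQ: Chebyshev for conditional probabilities of local events (Part B: percolation of weak sites)

`cheb`: `F i` depends only on the coordinates in the zone `Z i`, the zones are disjoint,
`Pr (F i) ≤ q`.  The classes of `R` are boxes.  Then the configurations `v` such that for ALL
`i ∈ T` the conditional probability of `F i` given the class of `v` is larger than `s` have
probability at most `(q / s) ^ T.card`.  Nothing is assumed about how the class depends on `v`.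
-/

set_option autoImplicit false

open Finset

namespace Pool.Agent.ANQ

open Pool.Agent.ANP

variable {Λ X : Type} [Fintype Λ] [DecidableEq Λ] [Fintype X] [DecidableEq X]
variable {w : Λ → X → ℝ}

/-- lower product bound inside a box -/
theorem Pr_prod_box_ge (hw : IsLaw w) {K : Λ → Set X} {ι : Type} [DecidableEq ι] (T : Finset ι)
    (zone : ι → Finset Λ) (E : ι → Set (Λ → X)) (s : ℝ) (hs : 0 ≤ s)
    (hz : ∀ i ∈ T, ∀ i' ∈ T, i ≠ i' → Disjoint (zone i) (zone i'))
    (hE : ∀ i ∈ T, Dep K (zone i) (E i))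
    (hpr : ∀ i ∈ T, s * Pr w (Bx K) ≤ Pr w (E i ∩ Bx K)) :
    s ^ T.card * Pr w (Bx K) ≤ Pr w ({u | ∀ i ∈ T, u ∈ E i} ∩ Bx K) := by
  classical
  have hc := Pr_nonneg hw (Bx K)
  rcases hc.eq_or_lt with h0 | h0
  · rw [← h0, mul_zero]
    exact Pr_nonneg hw _
  induction T using Finset.induction_on with
  | empty => simp
  | insert i T hi ih =>
    have ih' := ih (fun a ha b hb => hz a (mem_insert_of_mem ha) b (mem_insert_of_mem hb))
      (fun a ha => hE a (mem_insert_of_mem ha)) fun a ha => hpr a (mem_insert_of_mem ha)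
    have hdep : Dep K (T.biUnion zone) {u | ∀ i ∈ T, u ∈ E i} := by
      intro a ha b hb hab
      refine forall₂_congr fun j hj => ?_
      exact hE j (mem_insert_of_mem hj) a ha b hb fun x hx =>
        hab x (mem_biUnion.2 ⟨j, hj, hx⟩)
    have hdis : Disjoint (zone i) (T.biUnion zone) := by
      rw [disjoint_biUnion_right]
      intro j hj
      exact hz i (mem_insert_self _ _) j (mem_insert_of_mem hj) fun h => hi (h ▸ hj)
    have h1 := Pr_indep_box (w := w) hdis (hE i (mem_insert_self _ _)) hdep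
    have h2 : {u : Λ → X | ∀ k ∈ insert i T, u ∈ E k} = E i ∩ {u | ∀ i ∈ T, u ∈ E i} := by
      ext u
      simp
    rw [h2, card_insert_of_notMem hi]
    have h3 : (s ^ (T.card + 1) * Pr w (Bx K)) * Pr w (Bx K) ≤
        Pr w (E i ∩ {u | ∀ i ∈ T, u ∈ E i} ∩ Bx K) * Pr w (Bx K) := by
      rw [h1]
      calc (s ^ (T.card + 1) * Pr w (Bx K)) * Pr w (Bx K) =
          (s * Pr w (Bx K)) * (s ^ T.card * Pr w (Bx K)) := by ring
        _ ≤ Pr w (E i ∩ Bx K) * Pr w ({u | ∀ i ∈ T, u ∈ E i} ∩ Bx K) :=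
            mul_le_mul (hpr i (mem_insert_self _ _)) ih' (mul_nonneg (pow_nonneg hs _) hc)
              (Pr_nonneg hw _)
    exact le_of_mul_le_mul_right h3 h0

theorem cheb (hw : IsLaw w) (R : (Λ → X) → (Λ → X) → Prop) (hR : Equivalence R)
    (K : (Λ → X) → Λ → Set X) (hK : ∀ v, {v' | R v v'} = Bx (K v))
    {ι : Type} [DecidableEq ι] (T : Finset ι) (Z : ι → Finset Λ)
    (hZ : ∀ i ∈ T, ∀ i' ∈ T, i ≠ i' → Disjoint (Z i) (Z i'))
    (F : ι → Set (Λ → X))
    (hF : ∀ i ∈ T, ∀ v v', (∀ x ∈ Z i, v x = v' x) → (v ∈ F i ↔ v' ∈ F i))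
    {q s : ℝ} (hq : 0 ≤ q) (hs : 0 < s) (hpr : ∀ i ∈ T, Pr w (F i) ≤ q) :
    Pr w {v | ∀ i ∈ T, s * Pr w {v' | R v v'} < Pr w (F i ∩ {v' | R v v'})} ≤
      (q / s) ^ T.card := by
  classical
  set D : Set (Λ → X) := {v | ∀ i ∈ T, s * Pr w {v' | R v v'} < Pr w (F i ∩ {v' | R v v'})}
    with hD
  have hcls : ∀ v v', R v v' → {u | R v u} = {u | R v' u} := by
    intro v v' h
    ext u
    exact ⟨fun hu => hR.trans (hR.symm h) hu, fun hu => hR.trans h hu⟩
  have hDun : ∀ v ∈ D, ∀ v', R v v' → v' ∈ D := by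
    intro v hv v' h i hi
    have := hv i hi
    rwa [hcls v v' h] at this
  have hsp : 0 < s ^ T.card := pow_pos hs _
  have h1 := cond_le' (w := w) R hR D Set.univ {u | ∀ i ∈ T, u ∈ F i} hDun (1 / s ^ T.card) (by
    intro v hv
    rw [Set.univ_inter]
    have h2 := Pr_prod_box_ge hw (K := K v) T Z F s hs.le hZ
      (fun i hi a _ b _ hab => hF i hi a b hab) (fun i hi => by
        have := hv i hi
        rw [hK v] at this
        exact this.le)
    rw [hK v, one_div, inv_mul_eq_div, le_div_iff₀ hsp, mul_comm]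
    exact h2)
  rw [Set.univ_inter] at h1
  have h3 : Pr w ({u | ∀ i ∈ T, u ∈ F i} ∩ D) ≤ q ^ T.card := by
    have hb : Bx (fun _ : Λ => (Set.univ : Set X)) = Set.univ := by
      ext v
      simp [Bx]
    have h4 := Pr_prod_box hw (K := fun _ => Set.univ) T Z F (fun _ => q) (fun _ _ => hq) hZ
      (fun i hi a _ b _ hab => hF i hi a b hab) (fun i hi => by
        rw [hb, Set.inter_univ, Pr_univ hw, mul_one]
        exact hpr i hi)
    rw [hb, Set.inter_univ, Pr_univ hw, mul_one, prod_const] at h4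
    exact (Pr_mono hw Set.inter_subset_left).trans h4
  calc Pr w D ≤ 1 / s ^ T.card * Pr w ({u | ∀ i ∈ T, u ∈ F i} ∩ D) := h1
    _ ≤ 1 / s ^ T.card * q ^ T.card := mul_le_mul_of_nonneg_left h3 (by positivity)
    _ = (q / s) ^ T.card := by
        rw [div_pow]
        ring

end Pool.Agent.ANQ
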