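import Pool.Agent.ANM.GeoPhi

/-! # ANQ / Sepa: separated sets, coverings and clusters (abstract, integer valued distance)

* `greedy`: a finite set contains `n` points with pairwise distances `> r`, or it is covered by fewer
  than `n` balls of radius `r` with centres in the set.
* `path_le`: a path with links `≤ l` inside the union of `n` sets of diameter `≤ ρ` has end points at
  distance `≤ n (ρ + l) - l`.
* `Lk d l B x y`: `x` and `y` are in the same cluster of `B` (links `≤ l`).
* `cluster_le`: if `B ∩ ball x H` is covered by `n` sets of diameter `≤ ρ` and `n (ρ + l) ≤ H`, the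
  cluster of `x` is in the ball of radius `n (ρ + l)` around `x`.
-/

set_option autoImplicit false

namespace Pool.Agent.ANQ

open Finset Pool.Agent.ANM

variable {X : Type*} {d : X → X → ℕ}

/-- pairwise distances larger than `r` -/
def Sp (d : X → X → ℕ) (r : ℕ) (T : Finset X) : Prop := ∀ x ∈ T, ∀ y ∈ T, x ≠ y → r < d x y

lemma Sp.mono {r : ℕ} {T T' : Finset X} (h : Sp d r T) (hT : T' ⊆ T) : Sp d r T' :=
  fun x hx y hy => h x (hT hx) y (hT hy)

theorem greedy [DecidableEq X] (hd : NMet d) (r n : ℕ) (B : Finset X) :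
    (∃ T ⊆ B, T.card = n ∧ Sp d r T) ∨
      ∃ T ⊆ B, T.card < n ∧ Sp d r T ∧ ∀ x ∈ B, ∃ y ∈ T, d x y ≤ r := by
  induction n with
  | zero => exact Or.inl ⟨∅, empty_subset _, rfl, fun x hx => absurd hx (notMem_empty x)⟩
  | succ n ih =>
    rcases ih with ⟨T, h1, h2, h3⟩ | ⟨T, h1, h2, h3, h4⟩
    · by_cases h5 : ∀ x ∈ B, ∃ y ∈ T, d x y ≤ r
      · exact Or.inr ⟨T, h1, by omega, h3, h5⟩
      · push Not at h5
        obtain ⟨x, hx, h6⟩ := h5
        have h7 : x ∉ T := fun h => by
          have := h6 x h
          rw [hd.self] at this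
          omega
        refine Or.inl ⟨insert x T, insert_subset hx h1, by rw [card_insert_of_notMem h7, h2], ?_⟩
        intro a ha b hb hab
        rw [mem_insert] at ha hb
        rcases ha with rfl | ha
        · rcases hb with rfl | hb
          · exact absurd rfl hab
          · exact h6 b hb
        · rcases hb with rfl | hb
          · rw [hd.symm]
            exact h6 a ha
          · exact h3 a ha b hb hab
    · exact Or.inr ⟨T, h1, by omega, h3, h4⟩

/-- paths in the union of few small sets are short -/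
theorem path_le {κ : Type*} [DecidableEq κ] (hd : NMet d) (C : κ → Set X) (ρ l : ℕ)
    (hC : ∀ k, ∀ x ∈ C k, ∀ y ∈ C k, d x y ≤ ρ) (n : ℕ) :
    ∀ (I : Finset κ), I.card ≤ n → ∀ (m : ℕ) (p : ℕ → X), (∀ i < m, d (p i) (p (i + 1)) ≤ l) →
      (∀ i ≤ m, ∃ k ∈ I, p i ∈ C k) → d (p 0) (p m) + l ≤ n * (ρ + l) := by
  classical
  induction n with
  | zero =>
    intro I hI m p _ h2
    obtain ⟨k, hk, _⟩ := h2 0 (Nat.zero_le m)
    have : I = ∅ := card_eq_zero.1 (by omega)
    rw [this] at hk
    exact absurd hk (notMem_empty k)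
  | succ n ih =>
    intro I hI m p h1 h2
    obtain ⟨k, hk, hk0⟩ := h2 0 (Nat.zero_le m)
    -- the last visit of the set `C k`
    let S : Finset ℕ := (range (m + 1)).filter fun i => p i ∈ C k
    have hS : S.Nonempty := ⟨0, mem_filter.2 ⟨mem_range.2 (by omega), hk0⟩⟩
    obtain ⟨hi1, hi2⟩ := mem_filter.1 (S.max'_mem hS)
    set i := S.max' hS with hi
    rw [mem_range] at hi1
    have hmax : ∀ a ≤ m, p a ∈ C k → a ≤ i := fun a ha h =>
      S.le_max' a (mem_filter.2 ⟨mem_range.2 (by omega), h⟩)
    have h3 : d (p 0) (p i) ≤ ρ := hC k _ hk0 _ hi2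
    have h4 : (n + 1) * (ρ + l) = n * (ρ + l) + (ρ + l) := by ring
    rcases Nat.lt_or_ge i m with h5 | h5
    · have h6 := ih (I.erase k) (by rw [card_erase_of_mem hk]; omega) (m - (i + 1))
        (fun a => p (i + 1 + a)) (fun a ha => h1 (i + 1 + a) (by omega)) (fun a ha => by
          obtain ⟨k', hk', h7⟩ := h2 (i + 1 + a) (by omega)
          refine ⟨k', mem_erase.2 ⟨?_, hk'⟩, h7⟩
          rintro rfl
          have := hmax (i + 1 + a) (by omega) h7
          omega)
      have h7 : i + 1 + (m - (i + 1)) = m := by omega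
      simp only [h7, Nat.add_zero] at h6
      have h8 := h1 i h5
      have h9 := hd.tri (p 0) (p i) (p m)
      have h10 := hd.tri (p i) (p (i + 1)) (p m)
      omega
    · have h6 : i = m := by omega
      rw [h6] at h3
      omega

/-- same cluster of the set `B`, links of length at most `l` -/
def Lk (d : X → X → ℕ) (l : ℕ) (B : Set X) : X → X → Prop :=
  Relation.ReflTransGen fun x y => x ∈ B ∧ y ∈ B ∧ d x y ≤ l

lemma Lk.mono {l : ℕ} {B : Set X} {l' : ℕ} {B' : Set X} (hl : l ≤ l') (hB : B ⊆ B') {x y : X}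
    (h : Lk d l B x y) : Lk d l' B' x y :=
  Relation.ReflTransGen.mono (r := fun x y => x ∈ B ∧ y ∈ B ∧ d x y ≤ l)
    (fun _ _ h => ⟨hB h.1, hB h.2.1, h.2.2.trans hl⟩) _ _ h

lemma Lk.symm (hd : NMet d) {l : ℕ} {B : Set X} {x y : X} (h : Lk d l B x y) : Lk d l B y x := by
  induction h with
  | refl => exact Relation.ReflTransGen.refl
  | tail _ h ih => exact Relation.ReflTransGen.head ⟨h.2.1, h.1, by rw [hd.symm]; exact h.2.2⟩ ih

lemma Lk.trans {l : ℕ} {B : Set X} {x y z : X} (h : Lk d l B x y) (h' : Lk d l B y z) :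
    Lk d l B x z := Relation.ReflTransGen.trans h h'

lemma Lk.mem {l : ℕ} {B : Set X} {x y : X} (h : Lk d l B x y) (hx : x ∈ B) : y ∈ B := by
  induction h with
  | refl => exact hx
  | tail _ h _ => exact h.2.1

/-- a cluster is a path -/
lemma Lk.path {l : ℕ} {B : Set X} {x y : X} (h : Lk d l B x y) (hx : x ∈ B) :
    ∃ (m : ℕ) (p : ℕ → X), p 0 = x ∧ p m = y ∧ (∀ i < m, d (p i) (p (i + 1)) ≤ l) ∧
      (∀ i ≤ m, p i ∈ B) ∧ ∀ i ≤ m, Lk d l B x (p i) := by
  classical
  induction h with
  | refl => exact ⟨0, fun _ => x, rfl, rfl, fun i hi => absurd hi (Nat.not_lt_zero i),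
      fun _ _ => hx, fun _ _ => Relation.ReflTransGen.refl⟩
  | @tail b c hxb hbc ih =>
    obtain ⟨m, p, h0, hm, h1, h2, h3⟩ := ih
    refine ⟨m + 1, fun i => if i ≤ m then p i else c, ?_, ?_, ?_, ?_, ?_⟩
    · simp [h0]
    · simp
    · intro i hi
      by_cases h : i + 1 ≤ m
      · simp only [h, show i ≤ m by omega, if_true]
        exact h1 i (by omega)
      · have h4 : i = m := by omega
        subst h4
        simp only [le_refl, if_true, h, if_false, hm]
        exact hbc.2.2
    · intro i hi
      by_cases h : i ≤ m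
      · simp only [h, if_true]
        exact h2 i h
      · simp only [h, if_false]
        exact hbc.2.1
    · intro i hi
      by_cases h : i ≤ m
      · simp only [h, if_true]
        exact h3 i h
      · simp only [h, if_false]
        exact hxb.tail hbc

/-- clusters in a region with few blobs are small -/
theorem cluster_le {κ : Type*} [DecidableEq κ] (hd : NMet d) (C : κ → Set X) (ρ l n H : ℕ)
    (hC : ∀ k, ∀ x ∈ C k, ∀ y ∈ C k, d x y ≤ ρ) (I : Finset κ) (hI : I.card ≤ n) {B : Set X} {x : X}
    (hcov : ∀ y ∈ B, d x y ≤ H → ∃ k ∈ I, y ∈ C k) (hH : n * (ρ + l) ≤ H) (hx : x ∈ B) {y : X}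
    (h : Lk d l B x y) : d x y + l ≤ n * (ρ + l) := by
  obtain ⟨m, p, h0, hm, h1, h2, h3⟩ := h.path hx
  -- all points of the path are in the ball
  have key : ∀ i ≤ m, d x (p i) + l ≤ n * (ρ + l) := by
    intro i
    induction i using Nat.strong_induction_on with
    | _ i ih =>
      intro hi
      have h4 : d (p 0) (p i) + l ≤ n * (ρ + l) := by
        refine path_le hd C ρ l hC n I hI i p (fun a ha => h1 a (by omega)) (fun a ha => ?_)
        refine hcov (p a) (h2 a (by omega)) ?_
        rcases Nat.lt_or_ge a i with h5 | h5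
        · have := ih a h5 (by omega)
          omega
        · obtain rfl : a = i := by omega
          cases a with
          | zero =>
            rw [h0, hd.self]
            omega
          | succ a =>
            have h6 := ih a (by omega) (by omega)
            have h7 := hd.tri x (p a) (p (a + 1))
            have h8 := h1 a (by omega)
            omega
      rwa [h0] at h4
  rw [← hm]
  exact key m le_rfl

end Pool.Agent.ANQ
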