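import Pool.Agent.ANP.Tor
import Pool.Agent.ANQ.Sepa

/-! # ANQ / Grid: the grids on the torus

Cells of side `s` (`s ∣ N`) on `Tor d N`; `cor s x` is the corner of the cell of `x`.
`gd s x y` = distance of the cells of `x` and `y` in units of `s` (neighbours have distance `1`).
`Cel s` = the type of the cells (corners).
-/

set_option autoImplicit false

namespace Pool.Agent.ANQ

open Finset Pool.Agent.ANM Pool.Agent.ANP Pool.Agent.Kin

variable {d N : ℕ}

/-- the grid distance -/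
def gd (s : ℕ) (x y : Tor d N) : ℕ := dT (cor s x) (cor s y) / s

lemma cor1_aux {s t : ℕ} (hs : 0 < s) [NeZero t] [NeZero (s * t)] (a b : ZMod (s * t)) :
    ((((s * (a.val / s) : ℕ) : ZMod (s * t)) - ((s * (b.val / s) : ℕ) : ZMod (s * t))) :
      ZMod (s * t)).valMinAbs.natAbs = s * (cel1 s t a - cel1 s t b).valMinAbs.natAbs := by
  have hv : ∀ c : ZMod (s * t), ((s * (c.val / s) : ℕ) : ZMod (s * t)).val = s * (c.val / s) :=
    fun c => ZMod.val_cast_of_lt (lt_of_le_of_lt (Nat.mul_div_le _ _) (ZMod.val_lt _))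
  have hc : ∀ c : ZMod (s * t), cel1 s t ((s * (c.val / s) : ℕ) : ZMod (s * t)) = cel1 s t c := by
    intro c
    unfold cel1
    rw [hv, Nat.mul_div_cancel_left _ hs]
  have h1 := cel1_le hs ((s * (a.val / s) : ℕ) : ZMod (s * t)) ((s * (b.val / s) : ℕ) : ZMod (s * t))
  have h2 := cel1_ge hs ((s * (a.val / s) : ℕ) : ZMod (s * t)) ((s * (b.val / s) : ℕ) : ZMod (s * t))
  rw [hc, hc] at h1 h2
  set D := ((((s * (a.val / s) : ℕ) : ZMod (s * t)) - ((s * (b.val / s) : ℕ) : ZMod (s * t))) :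
      ZMod (s * t)).valMinAbs with hD
  have h3 : (s : ℤ) ∣ D := by
    have h4 : ((D : ℤ) : ZMod (s * t)) =
        (((s : ℤ) * ((a.val / s : ℕ) : ℤ) - (s : ℤ) * ((b.val / s : ℕ) : ℤ) : ℤ) : ZMod (s * t)) := by
      rw [hD, ZMod.coe_valMinAbs, Int.cast_sub, Int.cast_mul, Int.cast_mul, Int.cast_natCast,
        Int.cast_natCast, Int.cast_natCast, Nat.cast_mul, Nat.cast_mul]
    rw [ZMod.intCast_eq_intCast_iff_dvd_sub] at h4
    have h5 : (s : ℤ) ∣ ((s * t : ℕ) : ℤ) := ⟨t, by push_cast; ring⟩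
    have h6 := h5.trans h4
    have h7 : (s : ℤ) ∣ (s : ℤ) * ((a.val / s : ℕ) : ℤ) - (s : ℤ) * ((b.val / s : ℕ) : ℤ) :=
      ⟨((a.val / s : ℕ) : ℤ) - ((b.val / s : ℕ) : ℤ), by ring⟩
    have h8 := dvd_sub h7 h6
    rwa [sub_sub_cancel] at h8
  obtain ⟨m, hm⟩ := Int.natCast_dvd.1 h3
  rw [hm] at h1 h2 ⊢
  congr 1
  refine le_antisymm ?_ ?_
  · by_contra h
    push Not at h
    have : s * ((cel1 s t a - cel1 s t b).valMinAbs.natAbs + 1) ≤ s * m := Nat.mul_le_mul_left _ h
    rw [Nat.mul_add] at this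
    omega
  · by_contra h
    push Not at h
    have : s * (m + 1) ≤ s * (cel1 s t a - cel1 s t b).valMinAbs.natAbs := Nat.mul_le_mul_left _ h
    rw [Nat.mul_add] at this
    omega

theorem dT_cor_cor {s t : ℕ} (hs : 0 < s) [NeZero t] [NeZero (s * t)] (x y : Tor d (s * t)) :
    dT (cor s x) (cor s y) = s * dT (cel s t x) (cel s t y) := by
  refine le_antisymm ?_ ?_
  · refine (dT_le_iff _ _ _).2 fun j => ?_
    have h1 := cor1_aux hs (x j) (y j)
    have h2 : (cor s x j - cor s y j).valMinAbs.natAbs =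
        s * (cel1 s t (x j) - cel1 s t (y j)).valMinAbs.natAbs := h1
    rw [h2]
    exact Nat.mul_le_mul_left _ (le_tn (cel s t x - cel s t y) j)
  · rw [mul_comm, ← Nat.le_div_iff_mul_le hs]
    refine (dT_le_iff _ _ _).2 fun j => ?_
    rw [Nat.le_div_iff_mul_le hs, mul_comm]
    have h1 := cor1_aux hs (x j) (y j)
    have h2 : s * (cel s t x j - cel s t y j).valMinAbs.natAbs =
        (cor s x j - cor s y j).valMinAbs.natAbs := h1.symm
    rw [h2]
    exact le_tn (cor s x - cor s y) j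

theorem gd_eq {s t : ℕ} (hs : 0 < s) [NeZero t] [NeZero (s * t)] (x y : Tor d (s * t)) :
    gd s x y = dT (cel s t x) (cel s t y) := by
  unfold gd
  rw [dT_cor_cor hs, Nat.mul_div_cancel_left _ hs]

variable [NeZero N] {s s' : ℕ}

theorem mul_gd (hs : 0 < s) (h : s ∣ N) (x y : Tor d N) :
    s * gd s x y = dT (cor s x) (cor s y) := by
  obtain ⟨t, rfl⟩ := h
  have : NeZero t := ⟨fun h => NeZero.ne (s * t) (by rw [h, mul_zero])⟩
  rw [gd_eq hs, dT_cor_cor hs]

theorem nmet_gd (hs : 0 < s) (h : s ∣ N) : NMet (gd s (d := d) (N := N)) := by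
  obtain ⟨t, rfl⟩ := h
  have : NeZero t := ⟨fun h => NeZero.ne (s * t) (by rw [h, mul_zero])⟩
  refine ⟨fun x => ?_, fun x y => ?_, fun x y z => ?_⟩
  · rw [gd_eq hs, nmet_dT.self]
  · rw [gd_eq hs, gd_eq hs, nmet_dT.symm]
  · rw [gd_eq hs, gd_eq hs, gd_eq hs]
    exact nmet_dT.tri _ _ _

/-- `s * gd < dT + s` -/
theorem gd_lt (hs : 0 < s) (h : s ∣ N) (x y : Tor d N) : s * gd s x y < dT x y + s := by
  obtain ⟨t, rfl⟩ := h
  have : NeZero t := ⟨fun h => NeZero.ne (s * t) (by rw [h, mul_zero])⟩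
  rw [gd_eq hs]
  exact cel_lt hs x y

/-- `dT ≤ s * gd + (s - 1)` -/
theorem le_gd (hs : 0 < s) (h : s ∣ N) (x y : Tor d N) : dT x y ≤ s * gd s x y + (s - 1) := by
  obtain ⟨t, rfl⟩ := h
  have : NeZero t := ⟨fun h => NeZero.ne (s * t) (by rw [h, mul_zero])⟩
  rw [gd_eq hs]
  exact cel_ge hs x y _ le_rfl

lemma gd_le_of_dT (hs : 0 < s) (h : s ∣ N) {x y : Tor d N} {r : ℕ} (hr : dT x y ≤ s * r) :
    gd s x y ≤ r := by
  by_contra hc
  push Not at hc
  have h1 := gd_lt hs h x y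
  have h2 : s * (r + 1) ≤ s * gd s x y := Nat.mul_le_mul_left _ hc
  rw [Nat.mul_add] at h2
  omega

lemma gd_cor_left (x y : Tor d N) : gd s (cor s x) y = gd s x y := by
  unfold gd
  rw [cor_idem]

lemma gd_cor_right (x y : Tor d N) : gd s x (cor s y) = gd s x y := by
  unfold gd
  rw [cor_idem]

/-- the corner of a finer grid does not change the coarse grid distance -/
lemma gd_cor_fine (h : s ∣ s') (x y : Tor d N) : gd s' (cor s x) (cor s y) = gd s' x y := by
  unfold gd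
  rw [cor_cor h, cor_cor h]

lemma gd_cor_fine_left (h : s ∣ s') (x y : Tor d N) : gd s' (cor s x) y = gd s' x y := by
  unfold gd
  rw [cor_cor h]

lemma gd_cor_fine_right (h : s ∣ s') (x y : Tor d N) : gd s' x (cor s y) = gd s' x y := by
  unfold gd
  rw [cor_cor h]

theorem gd_eq_zero (hs : 0 < s) (h : s ∣ N) {x y : Tor d N} : gd s x y = 0 ↔ cor s x = cor s y := by
  constructor
  · intro h0
    have h1 := mul_gd hs h x y
    rw [h0, Nat.mul_zero] at h1
    exact sep_dT _ _ h1.symm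
  · intro h0
    unfold gd
    rw [h0, nmet_dT.self, Nat.zero_div]

/-- fine cells at distance `r` are in coarse cells at distance about `r s / s'` -/
theorem gd_coarse (hs : 0 < s) (h : s ∣ s') (hs' : 0 < s') (h' : s' ∣ N) (x y : Tor d N) :
    s' * gd s' x y < s * gd s x y + s' := by
  have h1 := gd_lt hs' h' (cor s x) (cor s y)
  rw [gd_cor_fine h, ← mul_gd hs (h.trans h')] at h1
  exact h1

theorem gd_fine (hs : 0 < s) (h : s ∣ s') (hs' : 0 < s') (h' : s' ∣ N) (x y : Tor d N) :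
    s * gd s x y ≤ s' * gd s' x y + (s' - 1) := by
  have h1 := le_gd hs' h' (cor s x) (cor s y)
  rw [gd_cor_fine h, ← mul_gd hs (h.trans h')] at h1
  exact h1

/-- number of the cells in a ball of the grid -/
theorem card_gd (hs : 0 < s) (h : s ∣ N) (x : Tor d N) (r : ℕ) :
    ((univ.filter fun c : Tor d N => cor s c = c ∧ gd s x c ≤ r)).card ≤ (2 * r + 1) ^ d := by
  obtain ⟨t, rfl⟩ := h
  have : NeZero t := ⟨fun h => NeZero.ne (s * t) (by rw [h, mul_zero])⟩
  refine le_trans ?_ (card_ball (cel s t x) r)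
  refine card_le_card_of_injOn (cel s t) ?_ ?_
  · intro c hc
    rw [mem_coe, mem_filter] at hc ⊢
    rw [gd_eq hs] at hc
    exact ⟨mem_univ _, hc.2.2⟩
  · intro a ha b hb hab
    rw [mem_coe, mem_filter] at ha hb
    have h1 := (cor_eq_iff hs a b).2 hab
    rw [ha.2.1, hb.2.1] at h1
    exact h1

/-- number of the fine cells near a coarse cell -/
theorem card_gd_fine (hs : 0 < s) (h : s ∣ s') (hs' : 0 < s') (h' : s' ∣ N) (x : Tor d N) (r : ℕ) :
    ((univ.filter fun c : Tor d N => cor s c = c ∧ gd s' x c ≤ r)).card ≤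
      (2 * ((r + 1) * (s' / s)) + 1) ^ d := by
  refine le_trans (card_le_card ?_) (card_gd hs (h.trans h') x ((r + 1) * (s' / s)))
  intro c hc
  rw [mem_filter] at hc ⊢
  refine ⟨mem_univ _, hc.2.1, ?_⟩
  have h1 := gd_fine hs h hs' h' x c
  have h2 : s' * gd s' x c ≤ s' * r := Nat.mul_le_mul_left _ hc.2.2
  obtain ⟨m, rfl⟩ := h
  rw [Nat.mul_div_cancel_left _ hs]
  have h3 : s * gd s x c ≤ s * ((r + 1) * m) := by
    have h4 : s * ((r + 1) * m) = s * m * r + s * m := by ring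
    omega
  exact Nat.le_of_mul_le_mul_left h3 hs

/-- number of the sites in a ball of the grid -/
theorem card_gd_sites (hs : 0 < s) (h : s ∣ N) (x : Tor d N) (r : ℕ) :
    (univ.filter fun y : Tor d N => gd s x y ≤ r).card ≤ (2 * r + 1) ^ d * s ^ d := by
  classical
  have h1 : (univ.filter fun y : Tor d N => gd s x y ≤ r) ⊆
      (univ.filter fun c : Tor d N => cor s c = c ∧ gd s x c ≤ r).biUnion
        fun c => univ.filter fun y : Tor d N => cor s y = cor s c := by
    intro y hy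
    rw [mem_filter] at hy
    rw [mem_biUnion]
    refine ⟨cor s y, mem_filter.2 ⟨mem_univ _, cor_idem s y, ?_⟩, mem_filter.2 ⟨mem_univ _, ?_⟩⟩
    · rw [gd_cor_right]
      exact hy.2
    · rw [cor_idem]
  refine (card_le_card h1).trans (card_biUnion_le.trans ?_)
  refine (sum_le_card_nsmul _ _ (s ^ d) fun c _ => card_cell hs c).trans ?_
  rw [smul_eq_mul]
  exact Nat.mul_le_mul_right _ (card_gd hs h x r)

end Pool.Agent.ANQ
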