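import Pool.Agent.ANQ.Markov
import Pool.Agent.ANQ.Geo

/-! # ANQ / HistProc: the history of the process (`Proc`) in the sense of `Geo`

`Geo.hist`: the sets `stat (run j)`, frozen cells, bad cells, candidates, inserted sites of one
configuration form a `Hist`.  Facts about the profiles inside a super-stage:
`fin_far` (profile in the cells which are not frozen), `icur_far` (profile far from the inserted
clusters), `rd_piece` (the read sites are in the pieces of the holes).
-/

set_option autoImplicit false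
set_option linter.unusedSectionVars false

open Finset

namespace Pool.Agent.ANQ

open Pool.Agent.ANP (IsLaw Pr wt)
open Pool.Agent.AND (Prof)
open Pool.Agent.ANM

variable {T X : Type} [Fintype T] [DecidableEq T] [Fintype X] [DecidableEq X]

theorem mem_stat {π : Prof T} {x : T} :
    x ∈ stat π ↔ x ∉ π.act ∧ x ∉ π.rd ∧ x ∉ π.ine := by
  unfold stat
  rw [mem_compl, mem_union, mem_union, not_or, not_or]

namespace Geo

variable {g : Geo T} {A : Ana T X}

/-- the geometric parameters -/
def par (g : Geo T) (W : ℕ → ℕ) (V : ℕ) : GPar T where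
  dist := g.dist
  cor := g.cor
  side := g.side
  R := g.R
  rho := g.rho
  D := g.D
  sep := g.sep
  nbr := g.nbr
  W := W
  J := g.J
  V := V

theorem con_symm (hs : ∀ x y, g.dist x y = g.dist y x) {r : ℕ} {B : Finset T} {x y : T}
    (h : g.Con r B x y) : g.Con r B y x := by
  induction h with
  | refl => exact Relation.ReflTransGen.refl
  | tail _ h ih => exact Relation.ReflTransGen.head ⟨h.2.1, h.1, by rw [hs]; exact h.2.2⟩ ih

theorem mem_clu {j : ℕ} {S : St T} {x y : T} :
    y ∈ g.clu j S x ↔ y ∈ stat S.pi ∧ g.Con (g.rho j) (stat S.pi) x y := by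
  classical
  unfold clu
  rw [mem_filter]

theorem clu_eq (hs : ∀ x y, g.dist x y = g.dist y x) {j : ℕ} {S : St T} {x y : T}
    (h : g.Con (g.rho j) (stat S.pi) x y) : g.clu j S y = g.clu j S x := by
  ext z
  rw [mem_clu, mem_clu]
  exact ⟨fun h1 => ⟨h1.1, h.trans h1.2⟩, fun h1 => ⟨h1.1, (con_symm hs h).trans h1.2⟩⟩

variable [Nonempty T]

theorem mem_keep1 {j : ℕ} {S : St T} {v : T → X} {x : T} : x ∈ g.keep1 A j S v ↔
    x ∈ stat S.pi ∧ ∃ y ∈ g.clu j S x, ∃ z ∈ g.sites j (g.fin A j S v).fz, g.dist y z ≤ g.D j := by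
  classical
  unfold keep1
  rw [mem_filter]

theorem mem_cand {j : ℕ} {S : St T} {v : T → X} {x : T} :
    x ∈ g.cand A j S v ↔ x ∈ stat S.pi ∧ x ∉ g.keep1 A j S v := by
  unfold cand
  rw [mem_sdiff]

theorem cand_con (hs : ∀ x y, g.dist x y = g.dist y x) {j : ℕ} {S : St T} {v : T → X} {x y : T}
    (hx : x ∈ g.cand A j S v) (h : g.Con (g.rho j) (stat S.pi) x y) : y ∈ g.cand A j S v := by
  rw [mem_cand] at hx ⊢
  have hy : y ∈ stat S.pi := by
    cases h with
    | refl => exact hx.1
    | tail _ h => exact h.2.1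
  refine ⟨hy, fun h1 => hx.2 ?_⟩
  rw [mem_keep1] at h1 ⊢
  refine ⟨hx.1, ?_⟩
  rw [clu_eq hs h] at h1
  exact h1.2

/-- the candidates are the sites of the clusters which are tested -/
theorem mem_cand_iff (hs : ∀ x y, g.dist x y = g.dist y x) {j : ℕ} {S : St T} {v : T → X} {x : T} :
    x ∈ g.cand A j S v ↔ ∃ F ∈ g.cands A j S v, x ∈ F := by
  classical
  constructor
  · intro hx
    exact ⟨g.clu j S x, mem_image_of_mem _ hx, mem_clu_self (mem_cand.1 hx).1⟩
  · rintro ⟨F, hF, hx⟩
    obtain ⟨y, hy, rfl⟩ := mem_image.1 hF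
    exact cand_con hs hy (mem_clu.1 hx).2

/-- a tested cluster is the cluster of each of its sites -/
theorem cands_eq (hs : ∀ x y, g.dist x y = g.dist y x) {j : ℕ} {S : St T} {v : T → X}
    {F : Finset T} (hF : F ∈ g.cands A j S v) {x : T} (hx : x ∈ F) : F = g.clu j S x := by
  classical
  obtain ⟨y, -, rfl⟩ := mem_image.1 hF
  exact (clu_eq hs (mem_clu.1 hx).2).symm

theorem fz_corners (hc : ∀ j x, g.cor j (g.cor j x) = g.cor j x) (j : ℕ) (S : St T) (v : T → X)
    (i : ℕ) : (g.cur A j S v i).fz ⊆ g.corners j := by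
  classical
  induction i with
  | zero =>
    have h : g.preS A j S v ⊆ g.corners j := by
      unfold preS
      exact filter_subset _ _
    exact h
  | succ i ih =>
    rw [cur_succ]
    unfold stp
    split_ifs
    · exact ih
    · exact ih
    · exact insert_subset (sL_mem hc j i) ih

/-- the inserted and the kept clusters are different -/
theorem icur_disj (j : ℕ) (S : St T) (v : T → X) (k : ℕ) :
    Disjoint (g.icur A j S v k).don (g.icur A j S v k).fl ∧
      ∀ F ∈ (g.icur A j S v k).don ∪ (g.icur A j S v k).fl,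
        ∃ i, ∃ h : i < (g.ilist A j S v).length, i < k ∧ (g.ilist A j S v)[i] = F := by
  classical
  induction k with
  | zero => exact ⟨disjoint_empty_left _, fun F hF => absurd hF (by
      have : (g.icur A j S v 0).don ∪ (g.icur A j S v 0).fl = ∅ := rfl
      rw [this]
      exact notMem_empty F)⟩
  | succ k ih =>
    by_cases h : k < (g.ilist A j S v).length
    · rw [icur_succ_of_lt j S v k h]
      have hn : (g.ilist A j S v).Nodup := nodup_toList _
      have hnew : (g.ilist A j S v)[k] ∉ (g.icur A j S v k).don ∪ (g.icur A j S v k).fl := by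
        intro h1
        obtain ⟨i, hi, hik, h2⟩ := ih.2 _ h1
        have := (hn.getElem_inj_iff (hi := hi) (hj := h)).1 h2
        omega
      rw [mem_union, not_or] at hnew
      by_cases h' : A.LK j S (g.icur A j S v k).don (g.icur A j S v k).pi
          ((g.ilist A j S v)[k]) v
      · rw [istp_of_pos h']
        refine ⟨?_, fun F hF => ?_⟩
        · rw [disjoint_insert_left]
          exact ⟨hnew.2, ih.1⟩
        · rw [mem_union, mem_insert] at hF
          rcases hF with (rfl | hF) | hF
          · exact ⟨k, h, Nat.lt_succ_self k, rfl⟩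
          · obtain ⟨i, hi, hik, h2⟩ := ih.2 F (mem_union_left _ hF)
            exact ⟨i, hi, by omega, h2⟩
          · obtain ⟨i, hi, hik, h2⟩ := ih.2 F (mem_union_right _ hF)
            exact ⟨i, hi, by omega, h2⟩
      · rw [istp_of_neg h']
        refine ⟨?_, fun F hF => ?_⟩
        · rw [disjoint_insert_right]
          exact ⟨hnew.1, ih.1⟩
        · rw [mem_union, mem_insert] at hF
          rcases hF with hF | rfl | hF
          · obtain ⟨i, hi, hik, h2⟩ := ih.2 F (mem_union_left _ hF)
            exact ⟨i, hi, by omega, h2⟩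
          · exact ⟨k, h, Nat.lt_succ_self k, rfl⟩
          · obtain ⟨i, hi, hik, h2⟩ := ih.2 F (mem_union_right _ hF)
            exact ⟨i, hi, by omega, h2⟩
    · rw [icur_succ_of_not_lt j S v k h]
      refine ⟨ih.1, fun F hF => ?_⟩
      obtain ⟨i, hi, hik, h2⟩ := ih.2 F hF
      exact ⟨i, hi, by omega, h2⟩

/-- the inserted sites are candidates -/
theorem ins_sub (hs : ∀ x y, g.dist x y = g.dist y x) (j : ℕ) (S : St T) (v : T → X) :
    g.ins A j S v ⊆ g.cand A j S v := by
  intro x hx
  obtain ⟨F, hF, hxF⟩ := mem_biUnion.1 hx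
  exact (mem_cand_iff hs).2 ⟨F, (icur_sub j S v _).1 hF, hxF⟩

theorem keep2_sub (hs : ∀ x y, g.dist x y = g.dist y x) (j : ℕ) (S : St T) (v : T → X) :
    g.keep2 A j S v ⊆ g.cand A j S v := by
  intro x hx
  obtain ⟨F, hF, hxF⟩ := mem_biUnion.1 hx
  exact (mem_cand_iff hs).2 ⟨F, (icur_sub j S v _).2 hF, hxF⟩

/-- a candidate is inserted or kept -/
theorem cand_cases (hs : ∀ x y, g.dist x y = g.dist y x) {j : ℕ} {S : St T} {v : T → X} {x : T}
    (hx : x ∈ g.cand A j S v) : x ∈ g.ins A j S v ∨ x ∈ g.keep2 A j S v := by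
  obtain ⟨F, hF, hxF⟩ := (mem_cand_iff hs).1 hx
  rcases ifin_done j S v hF with h | h
  · exact Or.inl (mem_biUnion.2 ⟨F, h, hxF⟩)
  · exact Or.inr (mem_biUnion.2 ⟨F, h, hxF⟩)

theorem ins_keep2 (hs : ∀ x y, g.dist x y = g.dist y x) {j : ℕ} {S : St T} {v : T → X} {x : T}
    (hx : x ∈ g.ins A j S v) : x ∉ g.keep2 A j S v := by
  intro hx'
  obtain ⟨F, hF, hxF⟩ := mem_biUnion.1 hx
  obtain ⟨F', hF', hxF'⟩ := mem_biUnion.1 hx'
  have h1 := cands_eq hs ((icur_sub j S v _).1 hF) hxF
  have h2 := cands_eq hs ((icur_sub j S v _).2 hF') hxF'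
  have h3 : F = F' := h1.trans h2.symm
  subst h3
  exact Finset.disjoint_left.1 (icur_disj j S v _).1 hF hF'

/-! ### profiles inside a super-stage -/

/-- sites which are not active at the start keep their data during the reading -/
theorem cur_old (j : ℕ) (S : St T) (v : T → X) (i : ℕ) {x : T} (hx : x ∉ S.pi.act) :
    x ∉ (g.cur A j S v i).pi.act ∧ (g.cur A j S v i).pi.lev x = S.pi.lev x ∧
      (g.cur A j S v i).pi.sg x = S.pi.sg x ∧
      (x ∈ (g.cur A j S v i).pi.ine ↔ x ∈ S.pi.ine) := by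
  classical
  induction i with
  | zero =>
    refine ⟨fun h => hx (cur_act_sub j S v 0 h), rfl, ?_, Iff.rfl⟩
    have h : (g.cur A j S v 0).pi.sg x = if x ∈ S.pi.act ∧ x ∉ (g.sites j (g.preS A j S v))ᶜ then
      A.sgv S.pi v x else S.pi.sg x := rfl
    rw [h, if_neg fun h1 => hx h1.1]
  | succ i ih =>
    obtain ⟨h1, h2, h3, h4⟩ := ih
    refine ⟨fun h => hx (cur_act_sub j S v (i + 1) h), ?_⟩
    rw [cur_succ]
    by_cases hf : g.sL j i ∈ (g.cur A j S v i).fz
    · rw [stp_of_mem hf]
      exact ⟨h2, h3, h4⟩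
    · by_cases ha : A.ACC j i (g.cur A j S v i).pi v
      · rw [stp_of_acc hf ha]
        have hn : x ∉ (g.cur A j S v i).pi.act ∩ g.cell j (g.sL j i) := fun h =>
          h1 (mem_inter.1 h).1
        refine ⟨?_, h3, ?_⟩
        · have h5 : (g.up A j i (g.cur A j S v i).pi v).lev x =
            if x ∈ (g.cur A j S v i).pi.act ∩ g.cell j (g.sL j i) then g.sn j i + 1 else
              (g.cur A j S v i).pi.lev x := rfl
          simp only
          rw [h5, if_neg hn, h2]
        · have h5 : (g.up A j i (g.cur A j S v i).pi v).ine = (g.cur A j S v i).pi.ine ∪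
            weak A (g.sn j i + 1) v ((g.cur A j S v i).pi.act ∩ g.cell j (g.sL j i)) := rfl
          simp only
          rw [h5, mem_union, h4]
          constructor
          · rintro (h | h)
            · exact h
            · exact absurd (mem_filter.1 h).1 hn
          · exact Or.inl
      · rw [stp_of_rej hf ha]
        refine ⟨h2, ?_, h4⟩
        have h5 : (freeze A (g.cur A j S v i).pi v (g.cell j (g.sL j i))ᶜ).sg x =
          if x ∈ (g.cur A j S v i).pi.act ∧ x ∉ (g.cell j (g.sL j i))ᶜ then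
            A.sgv (g.cur A j S v i).pi v x else (g.cur A j S v i).pi.sg x := rfl
        simp only
        rw [h5, if_neg fun h => h1 h.1, h3]

/-- sites which are active at the start and in cells which are not frozen -/
theorem cur_new (j : ℕ) (S : St T) (v : T → X) (i : ℕ) {x : T} (hx : x ∈ S.pi.act)
    (hf : g.cor j x ∉ (g.cur A j S v i).fz) :
    (x ∈ (g.cur A j S v i).pi.act ∨ x ∈ (g.cur A j S v i).pi.ine) ∧
      (g.cur A j S v i).pi.sg x = S.pi.sg x := by
  classical
  induction i with
  | zero =>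
    have hf' : x ∉ g.sites j (g.preS A j S v) := fun h => hf (mem_sites.1 h)
    refine ⟨Or.inl (mem_inter.2 ⟨hx, mem_compl.2 hf'⟩), ?_⟩
    have h : (g.cur A j S v 0).pi.sg x = if x ∈ S.pi.act ∧ x ∉ (g.sites j (g.preS A j S v))ᶜ then
      A.sgv S.pi v x else S.pi.sg x := rfl
    rw [h, if_neg fun h1 => h1.2 (mem_compl.2 hf')]
  | succ i ih =>
    have hf0 : g.cor j x ∉ (g.cur A j S v i).fz := fun h =>
      hf (cur_fz_mono j S v (Nat.le_succ i) h)
    obtain ⟨h1, h2⟩ := ih hf0
    rw [cur_succ] at hf ⊢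
    by_cases hL : g.sL j i ∈ (g.cur A j S v i).fz
    · rw [stp_of_mem hL]
      exact ⟨h1, h2⟩
    · by_cases ha : A.ACC j i (g.cur A j S v i).pi v
      · rw [stp_of_acc hL ha]
        refine ⟨?_, h2⟩
        have h5 : (g.up A j i (g.cur A j S v i).pi v).ine = (g.cur A j S v i).pi.ine ∪
          weak A (g.sn j i + 1) v ((g.cur A j S v i).pi.act ∩ g.cell j (g.sL j i)) := rfl
        have h6 : (g.up A j i (g.cur A j S v i).pi v).act = (g.cur A j S v i).pi.act \
          weak A (g.sn j i + 1) v ((g.cur A j S v i).pi.act ∩ g.cell j (g.sL j i)) := rfl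
        simp only
        rw [h5, h6, mem_union, mem_sdiff]
        by_cases hw : x ∈ weak A (g.sn j i + 1) v
            ((g.cur A j S v i).pi.act ∩ g.cell j (g.sL j i))
        · exact Or.inr (Or.inr hw)
        · rcases h1 with h1 | h1
          · exact Or.inl ⟨h1, hw⟩
          · exact Or.inr (Or.inl h1)
      · rw [stp_of_rej hL ha] at hf ⊢
        have h3 : g.cor j x ≠ g.sL j i := fun h => hf (by
          simp only
          rw [h]
          exact mem_insert_self _ _)
        have h4 : x ∈ (g.cell j (g.sL j i))ᶜ := mem_compl.2 fun h => h3 (mem_cell.1 h)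
        refine ⟨?_, ?_⟩
        · rcases h1 with h1 | h1
          · exact Or.inl (mem_inter.2 ⟨h1, h4⟩)
          · exact Or.inr h1
        · have h5 : (freeze A (g.cur A j S v i).pi v (g.cell j (g.sL j i))ᶜ).sg x =
            if x ∈ (g.cur A j S v i).pi.act ∧ x ∉ (g.cell j (g.sL j i))ᶜ then
              A.sgv (g.cur A j S v i).pi v x else (g.cur A j S v i).pi.sg x := rfl
          simp only
          rw [h5, if_neg fun h => h.2 h4, h2]

/-- new static sites are in frozen cells -/
theorem cur_stat (j : ℕ) (S : St T) (v : T → X) (i : ℕ) {x : T}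
    (hx : x ∈ stat (g.cur A j S v i).pi) : x ∈ stat S.pi ∨ g.cor j x ∈ (g.cur A j S v i).fz := by
  by_contra hc
  push Not at hc
  obtain ⟨h1, h2, h3⟩ := mem_stat.1 hx
  rw [cur_rd] at h2
  by_cases ha : x ∈ S.pi.act
  · rcases (cur_new j S v i ha hc.2).1 with h | h
    · exact h1 h
    · exact h3 h
  · exact hc.1 (mem_stat.2 ⟨ha, h2, fun h => h3 ((cur_old j S v i ha).2.2.2.2 h)⟩)

/-- the profile during the insertions -/
theorem icur_prof (j : ℕ) (S : St T) (v : T → X) (k : ℕ) :
    (g.icur A j S v k).pi.rd = (g.fin A j S v).pi.rd ∪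
        (g.icur A j S v k).don.biUnion (g.nbhd (g.R j)) ∧
      (g.icur A j S v k).pi.act = (g.fin A j S v).pi.act \
        (g.icur A j S v k).don.biUnion (g.nbhd (g.R j)) ∧
      (g.icur A j S v k).pi.ine = (g.fin A j S v).pi.ine \
        (g.icur A j S v k).don.biUnion (g.nbhd (g.R j)) ∧
      ∀ x, x ∉ (g.icur A j S v k).don.biUnion (g.nbhd (g.R j)) →
        (g.icur A j S v k).pi.lev x = (g.fin A j S v).pi.lev x ∧
        (g.icur A j S v k).pi.sg x = (g.fin A j S v).pi.sg x := by
  classical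
  induction k with
  | zero =>
    have h : (g.icur A j S v 0).don = ∅ := rfl
    rw [h, biUnion_empty]
    refine ⟨?_, ?_, ?_, fun x _ => ⟨rfl, rfl⟩⟩
    · rw [union_empty]
      rfl
    · rw [sdiff_empty]
      rfl
    · rw [sdiff_empty]
      rfl
  | succ k ih =>
    by_cases h : k < (g.ilist A j S v).length
    · rw [icur_succ_of_lt j S v k h]
      by_cases h' : A.LK j S (g.icur A j S v k).don (g.icur A j S v k).pi
          ((g.ilist A j S v)[k]) v
      · rw [istp_of_pos h']
        obtain ⟨h1, h2, h3, h4⟩ := ih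
        set F := (g.ilist A j S v)[k]
        simp only [biUnion_insert]
        refine ⟨?_, ?_, ?_, fun x hx => ?_⟩
        · have h5 : (read (g.icur A j S v k).pi g.nf (g.nbhd (g.R j) F)).rd =
            (g.icur A j S v k).pi.rd ∪ g.nbhd (g.R j) F := rfl
          rw [h5, h1, union_assoc, union_comm ((g.icur A j S v k).don.biUnion (g.nbhd (g.R j)))]
        · have h5 : (read (g.icur A j S v k).pi g.nf (g.nbhd (g.R j) F)).act =
            (g.icur A j S v k).pi.act \ g.nbhd (g.R j) F := rfl
          rw [h5, h2, sdiff_sdiff_left, sup_eq_union,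
            union_comm ((g.icur A j S v k).don.biUnion (g.nbhd (g.R j)))]
        · have h5 : (read (g.icur A j S v k).pi g.nf (g.nbhd (g.R j) F)).ine =
            (g.icur A j S v k).pi.ine \ g.nbhd (g.R j) F := rfl
          rw [h5, h3, sdiff_sdiff_left, sup_eq_union,
            union_comm ((g.icur A j S v k).don.biUnion (g.nbhd (g.R j)))]
        · rw [mem_union, not_or] at hx
          have h5 : (read (g.icur A j S v k).pi g.nf (g.nbhd (g.R j) F)).lev x =
            if x ∈ g.nbhd (g.R j) F then g.nf else (g.icur A j S v k).pi.lev x := rfl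
          have h6 : (read (g.icur A j S v k).pi g.nf (g.nbhd (g.R j) F)).sg x =
            if x ∈ g.nbhd (g.R j) F then 0 else (g.icur A j S v k).pi.sg x := rfl
          rw [h5, h6, if_neg hx.1, if_neg hx.1]
          exact h4 x hx.2
      · rw [istp_of_neg h']
        exact ih
    · rw [icur_succ_of_not_lt j S v k h]
      exact ih

/-- the static sites at the start of the next super-stage -/
theorem next_stat (hd : ∀ x, g.dist x x = 0) (hs : ∀ x y, g.dist x y = g.dist y x)
    (j : ℕ) (S : St T) (v : T → X) {x : T} (hx : x ∈ stat (g.next A j S v).pi) :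
    g.cor j x ∈ (g.fin A j S v).fz ∨
      ∃ y ∈ stat S.pi, y ∉ g.ins A j S v ∧ g.dist x y ≤ g.R j := by
  classical
  obtain ⟨h1, h2, h3⟩ := mem_stat.1 hx
  obtain ⟨p1, p2, p3, -⟩ := icur_prof (g := g) (A := A) j S v (g.ni A j S v)
  have e1 : (g.next A j S v).pi.act = (g.ifin A j S v).pi.act ∩
    (g.nbhd (g.R j) (g.keep1 A j S v ∪ g.keep2 A j S v))ᶜ := rfl
  have e2 : (g.next A j S v).pi.rd = (g.ifin A j S v).pi.rd := rfl
  have e3 : (g.next A j S v).pi.ine = (g.ifin A j S v).pi.ine := rfl
  have ei : g.ifin A j S v = g.icur A j S v (g.ni A j S v) := rfl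
  by_cases hn : x ∈ g.nbhd (g.R j) (g.keep1 A j S v ∪ g.keep2 A j S v)
  · obtain ⟨y, hy, hxy⟩ := mem_nbhd.1 hn
    right
    rcases mem_union.1 hy with hy | hy
    · exact ⟨y, (mem_keep1.1 hy).1, fun h => (mem_cand.1 (ins_sub hs j S v h)).2 hy, hxy⟩
    · exact ⟨y, (mem_cand.1 (keep2_sub hs j S v hy)).1, fun h => ins_keep2 hs h hy, hxy⟩
  · rw [e1, mem_inter, mem_compl, ei, p2, mem_sdiff] at h1
    rw [e2, ei, p1, mem_union, not_or] at h2
    rw [e3, ei, p3, mem_sdiff] at h3
    have h4 : x ∈ stat (g.fin A j S v).pi := mem_stat.2 ⟨fun h => h1 ⟨⟨h, h2.2⟩, hn⟩, h2.1,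
      fun h => h3 ⟨h, h2.2⟩⟩
    rcases cur_stat j S v _ h4 with h | h
    · right
      refine ⟨x, h, fun hi => ?_, by rw [hd]; exact Nat.zero_le _⟩
      obtain ⟨F, hF, hxF⟩ := mem_biUnion.1 hi
      exact h2.2 (mem_biUnion.2 ⟨F, hF, mem_nbhd.2 ⟨x, hxF, by rw [hd]; exact Nat.zero_le _⟩⟩)
    · exact Or.inl h

variable (g A)

/-- the history of the configuration `v` -/
noncomputable def hist (hc : ∀ j x, g.cor j (g.cor j x) = g.cor j x) (hd : ∀ x, g.dist x x = 0)
    (hs : ∀ x y, g.dist x y = g.dist y x) (W : ℕ → ℕ) (V : ℕ) (v : T → X) :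
    Hist (g.par W V) where
  st j := stat (g.run A j v).pi
  fz j := (g.fin A j (g.run A j v) v).fz
  bd j := g.bad A j (g.run A j v) v
  cand j := g.cand A j (g.run A j v) v
  ins j := g.ins A j (g.run A j v) v
  st0 := by
    have h : stat (g.run A 0 v).pi = ((univ \ weak A (g.lv 0) v univ) ∪
      (∅ ∪ weak A (g.lv 0) v univ))ᶜ := rfl
    rw [h, empty_union, sdiff_union_self_eq_union]
    simp
  bdc j c hc' := by
    classical
    rcases mem_union.1 hc' with h | h
    · exact mem_corners.1 (fz_corners hc j _ v _ h)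
    · exact mem_corners.1 ((filter_subset _ _) h)
  fzbd j := subset_union_left
  pre j c hcc hcf B hB hn hsp hcard := by
    classical
    have h1 : c ∉ g.preS A (j + 1) (g.run A (j + 1) v) v := fun h =>
      hcf (cur_fz_mono (j + 1) _ v (Nat.zero_le _) h)
    refine h1 (mem_filter.2 ⟨mem_corners.2 hcc, Or.inr ⟨B, hB, hcard, ?_, fun a ha => ?_⟩⟩)
    · intro a ha b hb hab
      rw [Nat.add_sub_cancel]
      exact hsp a ha b hb hab
    · rw [hs]
      exact hn a ha
  cst j := sdiff_subset
  ic j := ins_sub hs j _ v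
  cl j x y hx h := cand_con hs hx h
  icl j x y hx h := by
    obtain ⟨F, hF, hxF⟩ := mem_biUnion.1 hx
    refine mem_biUnion.2 ⟨F, hF, ?_⟩
    have h1 := cands_eq hs ((icur_sub j _ v _).1 hF) hxF
    rw [h1]
    exact mem_clu.2 ⟨(mem_cand.1 (cand_con hs (ins_sub hs j _ v hx) h)).1, h⟩
  near j x hx hxc := by
    have h1 : x ∈ g.keep1 A j (g.run A j v) v := by
      by_contra h
      exact hxc (mem_cand.2 ⟨hx, h⟩)
    obtain ⟨-, y, hy, z, hz, hyz⟩ := mem_keep1.1 h1
    exact ⟨y, z, (mem_clu.1 hy).2, mem_sites.1 hz, hyz⟩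
  far j x hx z hz := by
    by_contra h
    push Not at h
    obtain ⟨h1, h2⟩ := mem_cand.1 hx
    exact h2 (mem_keep1.2 ⟨h1, x, mem_clu_self h1, z, mem_sites.2 hz, h⟩)
  fail j x hx hxi := by
    classical
    rcases cand_cases hs hx with h | h
    · exact absurd h hxi
    · exact mem_union_right _ (mem_filter.2 ⟨cor_mem hc j x, x, h, rfl⟩)
  succ j x hx := next_stat hd hs j _ v hx

end Geo

end Pool.Agent.ANQ
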