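import Pool.Agent.ANQ.Box

/-!
# ANQ: the recursion for the probability of marked cells (and_seq_h47, section 5)

`Seq`: super-stages `j`, cells `Cell j` with a distance, `rej j L`: the cell `L` is rejected at some
step of super-stage `j`; `lk j L`: a leak test near `L` fails; `marked (j+1) L`: within distance
`rad` of `L` there is a cell which is rejected, or has a failed leak test, or has `m` marked cells
of super-stage `j`, pairwise at distance `> s0 + 2 rad`, in its neighbourhood `nb`.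
`R j`: same information at the start of super-stage `j`.
-/

set_option autoImplicit false

open Finset

namespace Pool.Agent.ANQ

open Pool.Agent.ANP

variable {Λ X : Type} [Fintype Λ] [DecidableEq Λ] [Fintype X] [DecidableEq X]
variable {w : Λ → X → ℝ}

structure Seq (Λ X : Type) [Fintype Λ] [DecidableEq Λ] [Fintype X] [DecidableEq X] where
  Cell : ℕ → Type
  [cf : ∀ j, Fintype (Cell j)]
  [cd : ∀ j, DecidableEq (Cell j)]
  dist : ∀ {j : ℕ}, Cell j → Cell j → ℕ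
  nb : ∀ {j : ℕ}, Cell (j + 1) → Finset (Cell j)
  rej : ∀ j, Cell j → Set (Λ → X)
  lk : ∀ j, Cell j → Set (Λ → X)
  R : ℕ → (Λ → X) → (Λ → X) → Prop
  m : ℕ
  rad : ℕ
  s0 : ℕ

attribute [instance] Seq.cf Seq.cd

namespace Seq

variable (G : Seq Λ X)

/-- pairwise distances larger than `r` -/
def Sep (r : ℕ) {j : ℕ} (T : Finset (G.Cell j)) : Prop :=
  ∀ L ∈ T, ∀ L' ∈ T, L ≠ L' → r < G.dist L L'

/-- the marked cells -/
def marked : ∀ j : ℕ, G.Cell j → Set (Λ → X)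
  | 0, L => {v | ∃ L', G.dist L L' ≤ G.rad ∧ (v ∈ G.rej 0 L' ∨ v ∈ G.lk 0 L')}
  | j + 1, L => {v | ∃ L', G.dist L L' ≤ G.rad ∧ (v ∈ G.rej (j + 1) L' ∨ v ∈ G.lk (j + 1) L' ∨
      ∃ T : Finset (G.Cell j), T ⊆ G.nb L' ∧ T.card = G.m ∧ G.Sep (G.s0 + 2 * G.rad) T ∧
        ∀ L'' ∈ T, v ∈ marked j L'')}

/-- `m` marked cells of the previous super-stage near `L` -/
def pr (j : ℕ) (L : G.Cell (j + 1)) : Set (Λ → X) :=
  {v | ∃ T : Finset (G.Cell j), T ⊆ G.nb L ∧ T.card = G.m ∧ G.Sep (G.s0 + 2 * G.rad) T ∧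
    ∀ L' ∈ T, v ∈ G.marked j L'}

theorem marked_succ (j : ℕ) (L : G.Cell (j + 1)) :
    G.marked (j + 1) L = {v | ∃ L', G.dist L L' ≤ G.rad ∧
      (v ∈ G.rej (j + 1) L' ∨ v ∈ G.lk (j + 1) L' ∨ v ∈ G.pr j L')} := rfl

/-- the rules -/
structure Rules (w : Λ → X → ℝ) (B : ℝ) (r l nn : ℕ → ℝ) : Prop where
  dself : ∀ {j : ℕ} (L : G.Cell j), G.dist L L = 0
  dsymm : ∀ {j : ℕ} (L L' : G.Cell j), G.dist L L' = G.dist L' L
  dtri : ∀ {j : ℕ} (L L' L'' : G.Cell j), G.dist L L'' ≤ G.dist L L' + G.dist L' L''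
  ball : ∀ {j : ℕ} (L : G.Cell j),
    ((univ.filter fun L' => G.dist L L' ≤ G.rad).card : ℝ) ≤ B
  nbc : ∀ {j : ℕ} (L : G.Cell (j + 1)), (((G.nb L).powersetCard G.m).card : ℝ) ≤ nn (j + 1)
  far : ∀ {j : ℕ} (L L' : G.Cell (j + 1)), G.s0 < G.dist L L' → ∀ a ∈ G.nb L, ∀ b ∈ G.nb L',
    G.s0 + 2 * G.rad < G.dist a b
  eqv : ∀ j, Equivalence (G.R j)
  anti : ∀ j v v', G.R (j + 1) v v' → G.R j v v'
  mrej : ∀ j L v v', G.R (j + 1) v v' → v ∈ G.rej j L → v' ∈ G.rej j L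
  mlk : ∀ j L v v', G.R (j + 1) v v' → v ∈ G.lk j L → v' ∈ G.lk j L
  r0 : ∀ j, 0 ≤ r j
  l0 : ∀ j, 0 ≤ l j
  prob : ∀ j v (A C : Finset (G.Cell j)), Disjoint A C → G.Sep G.s0 (A ∪ C) →
    Pr w ({u | (∀ L ∈ A, u ∈ G.rej j L) ∧ ∀ L ∈ C, u ∈ G.lk j L} ∩ {v' | G.R j v v'}) ≤
      r j ^ A.card * l j ^ C.card * Pr w {v' | G.R j v v'}

/-- the bound -/
def qq (B : ℝ) (r l nn : ℕ → ℝ) (m : ℕ) : ℕ → ℝ
  | 0 => B * (r 0 + l 0)
  | j + 1 => B * (r (j + 1) + l (j + 1) + nn (j + 1) * qq B r l nn m j ^ m)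

variable {G}
variable {B : ℝ} {r l nn : ℕ → ℝ}

theorem B_nonneg (hG : G.Rules w B r l nn) {j : ℕ} (L : G.Cell j) : 0 ≤ B :=
  le_trans (Nat.cast_nonneg _) (hG.ball L)

theorem nn_nonneg (hG : G.Rules w B r l nn) {j : ℕ} (L : G.Cell (j + 1)) : 0 ≤ nn (j + 1) :=
  le_trans (Nat.cast_nonneg _) (hG.nbc L)

/-- marked cells of the past -/
theorem marked_past (hG : G.Rules w B r l nn) (j : ℕ) (L : G.Cell j) (v v' : Λ → X)
    (h : G.R (j + 1) v v') (hv : v ∈ G.marked j L) : v' ∈ G.marked j L := by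
  induction j with
  | zero =>
    obtain ⟨L', h1, h2⟩ := hv
    refine ⟨L', h1, ?_⟩
    rcases h2 with h2 | h2
    · exact Or.inl (hG.mrej _ _ _ _ h h2)
    · exact Or.inr (hG.mlk _ _ _ _ h h2)
  | succ j ih =>
    obtain ⟨L', h1, h2⟩ := hv
    refine ⟨L', h1, ?_⟩
    rcases h2 with h2 | h2 | ⟨T, hT1, hT2, hT3, hT4⟩
    · exact Or.inl (hG.mrej _ _ _ _ h h2)
    · exact Or.inr (Or.inl (hG.mlk _ _ _ _ h h2))
    · exact Or.inr (Or.inr ⟨T, hT1, hT2, hT3, fun L'' hL'' =>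
        ih L'' (hG.anti _ _ _ h) (hT4 L'' hL'')⟩)

/-- the events of type `pr` alone -/
theorem Pr_pr_le (hw : IsLaw w) (hG : G.Rules w B r l nn) {j : ℕ} {q : ℝ} (hq : 0 ≤ q)
    (ih : ∀ T : Finset (G.Cell j), G.Sep (G.s0 + 2 * G.rad) T →
      Pr w {u | ∀ L ∈ T, u ∈ G.marked j L} ≤ q ^ T.card)
    (S : Finset (G.Cell (j + 1))) (hS : G.Sep G.s0 S) :
    Pr w {u | ∀ L ∈ S, u ∈ G.pr j L} ≤ (nn (j + 1) * q ^ G.m) ^ S.card := by
  classical
  set P : ∀ L : ↥S, Finset (Finset (G.Cell j)) := fun L =>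
    ((G.nb L.1).powersetCard G.m).filter fun T => G.Sep (G.s0 + 2 * G.rad) T with hP
  have hsub : {u : Λ → X | ∀ L ∈ S, u ∈ G.pr j L} ⊆
      ⋃ τ ∈ Fintype.piFinset P, {u | ∀ L ∈ (univ.biUnion τ : Finset (G.Cell j)),
        u ∈ G.marked j L} := by
    intro u hu
    have h1 : ∀ L : ↥S, ∃ T : Finset (G.Cell j), T ⊆ G.nb L.1 ∧ T.card = G.m ∧
        G.Sep (G.s0 + 2 * G.rad) T ∧ ∀ L' ∈ T, u ∈ G.marked j L' := fun L => hu L.1 L.2
    choose τ h2 h3 h4 h5 using h1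
    refine Set.mem_iUnion₂.2 ⟨τ, Fintype.mem_piFinset.2 fun L => ?_, ?_⟩
    · exact mem_filter.2 ⟨mem_powersetCard.2 ⟨h2 L, h3 L⟩, h4 L⟩
    · intro L' hL'
      obtain ⟨L, -, hL⟩ := mem_biUnion.1 hL'
      exact h5 L L' hL
  refine (Pr_mono hw hsub).trans ?_
  refine (Pr_iUnion_le hw (Fintype.piFinset P)
    (fun τ => {u | ∀ L ∈ (univ.biUnion τ : Finset (G.Cell j)), u ∈ G.marked j L})).trans ?_
  have hone : ∀ τ ∈ Fintype.piFinset P,
      Pr w {u | ∀ L ∈ (univ.biUnion τ : Finset (G.Cell j)), u ∈ G.marked j L} ≤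
        (q ^ G.m) ^ S.card := by
    intro τ hτ
    have hτ' : ∀ L : ↥S, τ L ⊆ G.nb L.1 ∧ (τ L).card = G.m ∧ G.Sep (G.s0 + 2 * G.rad) (τ L) := by
      intro L
      have h1 := mem_filter.1 (Fintype.mem_piFinset.1 hτ L)
      have h2 := mem_powersetCard.1 h1.1
      exact ⟨h2.1, h2.2, h1.2⟩
    have hcross : ∀ L L' : ↥S, L ≠ L' → ∀ a ∈ τ L, ∀ b ∈ τ L', G.s0 + 2 * G.rad < G.dist a b := by
      intro L L' hne a ha b hb
      exact hG.far L.1 L'.1 (hS L.1 L.2 L'.1 L'.2 fun h => hne (Subtype.ext h)) a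
        ((hτ' L).1 ha) b ((hτ' L').1 hb)
    have hsep : G.Sep (G.s0 + 2 * G.rad) (univ.biUnion τ : Finset (G.Cell j)) := by
      intro a ha b hb hab
      obtain ⟨L, -, hL⟩ := mem_biUnion.1 ha
      obtain ⟨L', -, hL'⟩ := mem_biUnion.1 hb
      by_cases hLL : L = L'
      · subst hLL
        exact (hτ' L).2.2 a hL b hL' hab
      · exact hcross L L' hLL a hL b hL'
    have hcard : (univ.biUnion τ : Finset (G.Cell j)).card = G.m * S.card := by
      rw [card_biUnion]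
      · rw [sum_congr rfl fun L _ => (hτ' L).2.1, sum_const, card_univ, Fintype.card_coe,
          smul_eq_mul, mul_comm]
      · intro L _ L' _ hne
        rw [Function.onFun, Finset.disjoint_left]
        intro a ha ha'
        have := hcross L L' hne a ha a ha'
        rw [hG.dself] at this
        exact absurd this (Nat.not_lt_zero _)
    have h1 := ih _ hsep
    rw [hcard, pow_mul] at h1
    exact h1
  refine (sum_le_sum hone).trans ?_
  rw [sum_const, Fintype.card_piFinset, nsmul_eq_mul, mul_pow]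
  apply mul_le_mul_of_nonneg_right _ (by positivity)
  push_cast
  rw [← Fintype.card_coe S, ← card_univ, ← prod_const]
  refine prod_le_prod (fun _ _ => Nat.cast_nonneg _) fun L _ => ?_
  refine le_trans ?_ (hG.nbc L.1)
  exact_mod_cast card_filter_le _ _

/-- one choice of witnesses -/
theorem Pr_choice_le (hw : IsLaw w) (hG : G.Rules w B r l nn) {j : ℕ} {q : ℝ} (hq : 0 ≤ q)
    (ih : ∀ T : Finset (G.Cell j), G.Sep (G.s0 + 2 * G.rad) T →
      Pr w {u | ∀ L ∈ T, u ∈ G.marked j L} ≤ q ^ T.card)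
    (A C S : Finset (G.Cell (j + 1))) (hAC : Disjoint A C) (hsep : G.Sep G.s0 (A ∪ C ∪ S)) :
    Pr w {u | (∀ L ∈ A, u ∈ G.rej (j + 1) L) ∧ (∀ L ∈ C, u ∈ G.lk (j + 1) L) ∧
        ∀ L ∈ S, u ∈ G.pr j L} ≤
      r (j + 1) ^ A.card * l (j + 1) ^ C.card * (nn (j + 1) * q ^ G.m) ^ S.card := by
  classical
  have hS : G.Sep G.s0 S := fun a ha b hb hab =>
    hsep a (mem_union_right _ ha) b (mem_union_right _ hb) hab
  have hACs : G.Sep G.s0 (A ∪ C) := fun a ha b hb hab =>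
    hsep a (mem_union_left _ ha) b (mem_union_left _ hb) hab
  have h1 := Pr_pr_le hw hG hq ih S hS
  have h2 : Pr w ({u | (∀ L ∈ A, u ∈ G.rej (j + 1) L) ∧ ∀ L ∈ C, u ∈ G.lk (j + 1) L} ∩
      {u | ∀ L ∈ S, u ∈ G.pr j L}) ≤
      (r (j + 1) ^ A.card * l (j + 1) ^ C.card) * Pr w {u | ∀ L ∈ S, u ∈ G.pr j L} := by
    refine cond_le (G.R (j + 1)) (hG.eqv _) _ _ ?_ _ fun v _ => hG.prob (j + 1) v A C hAC hACs
    intro v hv v' hvv' L hL
    obtain ⟨T, hT1, hT2, hT3, hT4⟩ := hv L hL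
    exact ⟨T, hT1, hT2, hT3, fun L' hL' => marked_past hG j L' v v' hvv' (hT4 L' hL')⟩
  have h3 : {u : Λ → X | (∀ L ∈ A, u ∈ G.rej (j + 1) L) ∧ (∀ L ∈ C, u ∈ G.lk (j + 1) L) ∧
        ∀ L ∈ S, u ∈ G.pr j L} =
      {u | (∀ L ∈ A, u ∈ G.rej (j + 1) L) ∧ ∀ L ∈ C, u ∈ G.lk (j + 1) L} ∩
      {u | ∀ L ∈ S, u ∈ G.pr j L} := by
    ext u
    simp [and_assoc]
  rw [h3]
  refine h2.trans (mul_le_mul_of_nonneg_left h1 ?_)
  exact mul_nonneg (pow_nonneg (hG.r0 _) _) (pow_nonneg (hG.l0 _) _)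

/-- union over the witnesses -/
theorem union_step (hw : IsLaw w) (hG : G.Rules w B r l nn) {j : ℕ}
    (ev : Fin 3 → G.Cell j → Set (Λ → X)) (wg : Fin 3 → ℝ) (hwg : ∀ t, 0 ≤ wg t)
    (hprob : ∀ A C S : Finset (G.Cell j), Disjoint A C → G.Sep G.s0 (A ∪ C ∪ S) →
      Pr w {u | (∀ L ∈ A, u ∈ ev 0 L) ∧ (∀ L ∈ C, u ∈ ev 1 L) ∧ ∀ L ∈ S, u ∈ ev 2 L} ≤
        wg 0 ^ A.card * wg 1 ^ C.card * wg 2 ^ S.card)
    (Mk : G.Cell j → Set (Λ → X))
    (hM : ∀ L, ∀ u ∈ Mk L, ∃ L', G.dist L L' ≤ G.rad ∧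
      (u ∈ ev 0 L' ∨ u ∈ ev 1 L' ∨ u ∈ ev 2 L'))
    (T : Finset (G.Cell j)) (hT : G.Sep (G.s0 + 2 * G.rad) T) :
    Pr w {u | ∀ L ∈ T, u ∈ Mk L} ≤ (B * (wg 0 + wg 1 + wg 2)) ^ T.card := by
  classical
  set W : ↥T → Finset (G.Cell j × Fin 3) := fun L =>
    (univ.filter fun L' => G.dist L.1 L' ≤ G.rad) ×ˢ univ with hW
  have hsub : {u : Λ → X | ∀ L ∈ T, u ∈ Mk L} ⊆
      ⋃ φ ∈ Fintype.piFinset W, {u | ∀ L : ↥T, u ∈ ev (φ L).2 (φ L).1} := by
    intro u hu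
    have h1 : ∀ L : ↥T, ∃ x : G.Cell j × Fin 3, x ∈ W L ∧ u ∈ ev x.2 x.1 := by
      intro L
      obtain ⟨L', h2, h3⟩ := hM L.1 u (hu L.1 L.2)
      rcases h3 with h3 | h3 | h3
      · exact ⟨(L', 0), mem_product.2 ⟨mem_filter.2 ⟨mem_univ _, h2⟩, mem_univ _⟩, h3⟩
      · exact ⟨(L', 1), mem_product.2 ⟨mem_filter.2 ⟨mem_univ _, h2⟩, mem_univ _⟩, h3⟩
      · exact ⟨(L', 2), mem_product.2 ⟨mem_filter.2 ⟨mem_univ _, h2⟩, mem_univ _⟩, h3⟩
    choose φ h2 h3 using h1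
    exact Set.mem_iUnion₂.2 ⟨φ, Fintype.mem_piFinset.2 h2, h3⟩
  refine (Pr_mono hw hsub).trans ?_
  refine (Pr_iUnion_le hw (Fintype.piFinset W)
    (fun φ => {u | ∀ L : ↥T, u ∈ ev (φ L).2 (φ L).1})).trans ?_
  have hone : ∀ φ ∈ Fintype.piFinset W, Pr w {u | ∀ L : ↥T, u ∈ ev (φ L).2 (φ L).1} ≤
      ∏ L : ↥T, wg (φ L).2 := by
    intro φ hφ
    have hd : ∀ L : ↥T, G.dist L.1 (φ L).1 ≤ G.rad := fun L =>
      (mem_filter.1 (mem_product.1 (Fintype.mem_piFinset.1 hφ L)).1).2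
    have hfar : ∀ L L' : ↥T, L ≠ L' → G.s0 < G.dist (φ L).1 (φ L').1 := by
      intro L L' hne
      have h1 := hT L.1 L.2 L'.1 L'.2 fun h => hne (Subtype.ext h)
      have h2 := hG.dtri L.1 (φ L).1 L'.1
      have h3 := hG.dtri (φ L).1 (φ L').1 L'.1
      have h4 := hG.dsymm (φ L').1 L'.1
      have h5 := hd L
      have h6 := hd L'
      omega
    have hinj : ∀ L L' : ↥T, (φ L).1 = (φ L').1 → L = L' := by
      intro L L' h
      by_contra hne
      have h1 := hfar L L' hne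
      rw [h, hG.dself] at h1
      exact absurd h1 (Nat.not_lt_zero _)
    set F : Fin 3 → Finset (G.Cell j) := fun t =>
      (univ.filter fun L : ↥T => (φ L).2 = t).image fun L => (φ L).1 with hF
    have hmemF : ∀ t a, a ∈ F t ↔ ∃ L : ↥T, (φ L).2 = t ∧ (φ L).1 = a := by
      intro t a
      simp [hF]
    have hcard : ∀ t, (F t).card = (univ.filter fun L : ↥T => (φ L).2 = t).card := by
      intro t
      exact card_image_of_injective _ fun L L' h => hinj L L' h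
    have hdisj : Disjoint (F 0) (F 1) := by
      rw [Finset.disjoint_left]
      intro a h0 h1
      obtain ⟨L, h2, h3⟩ := (hmemF 0 a).1 h0
      obtain ⟨L', h4, h5⟩ := (hmemF 1 a).1 h1
      have h6 := hinj L L' (h3.trans h5.symm)
      rw [h6, h4] at h2
      exact absurd h2 (by decide)
    have hsep : G.Sep G.s0 (F 0 ∪ F 1 ∪ F 2) := by
      intro a ha b hb hab
      have hmem : ∀ a, a ∈ F 0 ∪ F 1 ∪ F 2 → ∃ L : ↥T, (φ L).1 = a := by
        intro a ha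
        rcases mem_union.1 ha with ha | ha
        · rcases mem_union.1 ha with ha | ha
          · obtain ⟨L, -, h⟩ := (hmemF 0 a).1 ha
            exact ⟨L, h⟩
          · obtain ⟨L, -, h⟩ := (hmemF 1 a).1 ha
            exact ⟨L, h⟩
        · obtain ⟨L, -, h⟩ := (hmemF 2 a).1 ha
          exact ⟨L, h⟩
      obtain ⟨L, hL⟩ := hmem a ha
      obtain ⟨L', hL'⟩ := hmem b hb
      rw [← hL, ← hL']
      exact hfar L L' fun h => hab (by rw [← hL, ← hL', h])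
    have h1 := hprob (F 0) (F 1) (F 2) hdisj hsep
    have h2 : {u : Λ → X | ∀ L : ↥T, u ∈ ev (φ L).2 (φ L).1} ⊆
        {u | (∀ L ∈ F 0, u ∈ ev 0 L) ∧ (∀ L ∈ F 1, u ∈ ev 1 L) ∧ ∀ L ∈ F 2, u ∈ ev 2 L} := by
      intro u hu
      refine ⟨fun a ha => ?_, fun a ha => ?_, fun a ha => ?_⟩
      · obtain ⟨L, h3, h4⟩ := (hmemF 0 a).1 ha
        have := hu L
        rwa [h3, h4] at this
      · obtain ⟨L, h3, h4⟩ := (hmemF 1 a).1 ha
        have := hu L
        rwa [h3, h4] at this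
      · obtain ⟨L, h3, h4⟩ := (hmemF 2 a).1 ha
        have := hu L
        rwa [h3, h4] at this
    refine (Pr_mono hw h2).trans (h1.trans (le_of_eq ?_))
    rw [← Finset.prod_fiberwise univ (fun L : ↥T => (φ L).2) (fun L => wg (φ L).2),
      Fin.prod_univ_three]
    have h3 : ∀ t : Fin 3, ∏ L ∈ univ.filter (fun L : ↥T => (φ L).2 = t), wg (φ L).2 =
        wg t ^ (F t).card := by
      intro t
      rw [hcard t, prod_congr rfl fun L hL => by rw [(mem_filter.1 hL).2], prod_const]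
    rw [h3, h3, h3]
  refine (sum_le_sum hone).trans ?_
  have h1 : ∑ φ ∈ Fintype.piFinset W, ∏ L : ↥T, wg (φ L).2 =
      ∏ L : ↥T, ∑ x ∈ W L, wg x.2 := by
    rw [prod_univ_sum]
  rw [h1]
  have h2 : ∀ L : ↥T, ∑ x ∈ W L, wg x.2 =
      ((univ.filter fun L' => G.dist L.1 L' ≤ G.rad).card : ℝ) * (wg 0 + wg 1 + wg 2) := by
    intro L
    rw [hW, sum_product]
    simp only [Fin.sum_univ_three, sum_const, nsmul_eq_mul]
  rw [prod_congr rfl fun L _ => h2 L]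
  have h3 : 0 ≤ wg 0 + wg 1 + wg 2 := add_nonneg (add_nonneg (hwg 0) (hwg 1)) (hwg 2)
  calc ∏ L : ↥T, ((univ.filter fun L' => G.dist L.1 L' ≤ G.rad).card : ℝ) *
        (wg 0 + wg 1 + wg 2) ≤ ∏ _L : ↥T, B * (wg 0 + wg 1 + wg 2) := by
        refine prod_le_prod (fun L _ => mul_nonneg (Nat.cast_nonneg _) h3) fun L _ => ?_
        exact mul_le_mul_of_nonneg_right (hG.ball L.1) h3
    _ = (B * (wg 0 + wg 1 + wg 2)) ^ T.card := by
        rw [prod_const, card_univ, Fintype.card_coe]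

theorem qq_nonneg (hB : 0 ≤ B) (hr : ∀ j, 0 ≤ r j) (hl : ∀ j, 0 ≤ l j) (hn : ∀ j, 0 ≤ nn j)
    (m : ℕ) (j : ℕ) : 0 ≤ qq B r l nn m j := by
  induction j with
  | zero => exact mul_nonneg hB (add_nonneg (hr 0) (hl 0))
  | succ j ih =>
    exact mul_nonneg hB (add_nonneg (add_nonneg (hr _) (hl _)) (mul_nonneg (hn _) (pow_nonneg ih _)))

/-- THE RECURSION: `m`-tuples of marked cells which are far from each other -/
theorem Pr_marked_le (hw : IsLaw w) (hG : G.Rules w B r l nn) (hB : 0 ≤ B)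
    (hn : ∀ j, 0 ≤ nn j) (j : ℕ) (T : Finset (G.Cell j)) (hT : G.Sep (G.s0 + 2 * G.rad) T) :
    Pr w {u | ∀ L ∈ T, u ∈ G.marked j L} ≤ qq B r l nn G.m j ^ T.card := by
  classical
  induction j with
  | zero =>
    have h := union_step hw hG (j := 0)
      (fun t L => if t = 0 then G.rej 0 L else if t = 1 then G.lk 0 L else ∅)
      (fun t => if t = 0 then r 0 else if t = 1 then l 0 else 0)
      (fun t => by
        by_cases h0 : t = 0
        · simpa [h0] using hG.r0 0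
        · by_cases h1 : t = 1
          · simpa [h1] using hG.l0 0
          · simp [h0, h1])
      ?_ (G.marked 0) ?_ T hT
    · refine h.trans (le_of_eq ?_)
      simp [qq]
    · intro A C S hAC hsep
      rcases S.eq_empty_or_nonempty with hS | ⟨a, ha⟩
      · subst hS
        have h1 := cond_le (w := w) (G.R 0) (hG.eqv 0) Set.univ
          {u | (∀ L ∈ A, u ∈ G.rej 0 L) ∧ ∀ L ∈ C, u ∈ G.lk 0 L} (fun _ _ _ _ => Set.mem_univ _)
          (r 0 ^ A.card * l 0 ^ C.card) (fun v _ => hG.prob 0 v A C hAC (by simpa using hsep))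
        rw [Set.inter_univ, Pr_univ hw, mul_one] at h1
        simpa using h1
      · have h2 : {u : Λ → X | (∀ L ∈ A, u ∈ (if (0 : Fin 3) = 0 then G.rej 0 L else
            if (0 : Fin 3) = 1 then G.lk 0 L else ∅)) ∧
            (∀ L ∈ C, u ∈ (if (1 : Fin 3) = 0 then G.rej 0 L else
            if (1 : Fin 3) = 1 then G.lk 0 L else ∅)) ∧
            ∀ L ∈ S, u ∈ (if (2 : Fin 3) = 0 then G.rej 0 L else
            if (2 : Fin 3) = 1 then G.lk 0 L else (∅ : Set (Λ → X)))} = ∅ := by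
          ext u
          rw [Set.mem_empty_iff_false, iff_false]
          rintro ⟨-, -, h3⟩
          have h4 := h3 a ha
          simp at h4
        refine le_trans (le_of_eq ?_) (mul_nonneg (mul_nonneg (pow_nonneg ?_ _)
          (pow_nonneg ?_ _)) (pow_nonneg ?_ _))
        · exact (congrArg (Pr w) h2).trans Pr_empty
        · simpa using hG.r0 0
        · simpa using hG.l0 0
        · simp
    · rintro L u ⟨L', h1, h2⟩
      refine ⟨L', h1, ?_⟩
      rcases h2 with h2 | h2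
      · exact Or.inl (by simpa using h2)
      · exact Or.inr (Or.inl (by simpa using h2))
  | succ j ih =>
    have hq := qq_nonneg hB hG.r0 hG.l0 hn G.m j
    have h := union_step hw hG (j := j + 1)
      (fun t L => if t = 0 then G.rej (j + 1) L else if t = 1 then G.lk (j + 1) L else G.pr j L)
      (fun t => if t = 0 then r (j + 1) else if t = 1 then l (j + 1) else
        nn (j + 1) * qq B r l nn G.m j ^ G.m)
      (fun t => by
        by_cases h0 : t = 0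
        · simpa [h0] using hG.r0 (j + 1)
        · by_cases h1 : t = 1
          · simpa [h1] using hG.l0 (j + 1)
          · simpa [h0, h1] using mul_nonneg (hn (j + 1)) (pow_nonneg hq _))
      ?_ (G.marked (j + 1)) ?_ T hT
    · refine h.trans (le_of_eq ?_)
      simp [qq]
    · intro A C S hAC hsep
      have h1 := Pr_choice_le hw hG hq ih A C S hAC hsep
      simpa using h1
    · intro L u hu
      rw [marked_succ] at hu
      obtain ⟨L', h1, h2⟩ := hu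
      refine ⟨L', h1, ?_⟩
      rcases h2 with h2 | h2 | h2
      · exact Or.inl (by simpa using h2)
      · exact Or.inr (Or.inl (by simpa using h2))
      · exact Or.inr (Or.inr (by simpa using h2))

/-- one marked cell -/
theorem Pr_marked_one (hw : IsLaw w) (hG : G.Rules w B r l nn) (hB : 0 ≤ B)
    (hn : ∀ j, 0 ≤ nn j) (j : ℕ) (L : G.Cell j) :
    Pr w (G.marked j L) ≤ qq B r l nn G.m j := by
  have h := Pr_marked_le hw hG hB hn j {L} (fun a ha b hb hab => by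
    rw [mem_singleton] at ha hb
    exact absurd (ha.trans hb.symm) hab)
  simpa using h

/-- numerical form: `y j` is a bound -/
theorem qq_le (hB : 0 ≤ B) (hr : ∀ j, 0 ≤ r j) (hl : ∀ j, 0 ≤ l j) (hn : ∀ j, 0 ≤ nn j) {m : ℕ}
    (y : ℕ → ℝ) (J : ℕ) (h0 : ∀ j, j ≤ J → B * (r j + l j) ≤ y j / 2)
    (h1 : ∀ j, j + 1 ≤ J → B * (nn (j + 1) * y j ^ m) ≤ y (j + 1) / 2) (hy : ∀ j, 0 ≤ y j)
    (j : ℕ) (hj : j ≤ J) : qq B r l nn m j ≤ y j := by
  induction j with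
  | zero =>
    have := h0 0 hj
    have h2 := hy 0
    unfold qq
    linarith
  | succ j ih =>
    have ih' := ih (by omega)
    have hq := qq_nonneg (m := m) hB hr hl hn j
    have h2 := h0 (j + 1) hj
    have h3 := h1 j hj
    have h4 : nn (j + 1) * qq B r l nn m j ^ m ≤ nn (j + 1) * y j ^ m :=
      mul_le_mul_of_nonneg_left (pow_le_pow_left₀ hq ih' m) (hn _)
    have h5 := mul_le_mul_of_nonneg_left h4 hB
    unfold qq
    calc B * (r (j + 1) + l (j + 1) + nn (j + 1) * qq B r l nn m j ^ m) =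
        B * (r (j + 1) + l (j + 1)) + B * (nn (j + 1) * qq B r l nn m j ^ m) := by ring
      _ ≤ y (j + 1) := by linarith

/-- some cell of some `N j` is marked in some super-stage `j ≤ J` -/
theorem Pr_some_marked (hw : IsLaw w) (hG : G.Rules w B r l nn) (hB : 0 ≤ B)
    (hn : ∀ j, 0 ≤ nn j) (J : ℕ) (N : ∀ j, Finset (G.Cell j)) :
    Pr w {u | ∃ j ≤ J, ∃ L ∈ N j, u ∈ G.marked j L} ≤
      ∑ j ∈ range (J + 1), ((N j).card : ℝ) * qq B r l nn G.m j := by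
  classical
  have hsub : {u : Λ → X | ∃ j ≤ J, ∃ L ∈ N j, u ∈ G.marked j L} ⊆
      ⋃ j ∈ range (J + 1), ⋃ L ∈ N j, G.marked j L := by
    rintro u ⟨j, hj, L, hL, hu⟩
    exact Set.mem_iUnion₂.2 ⟨j, mem_range.2 (by omega), Set.mem_iUnion₂.2 ⟨L, hL, hu⟩⟩
  refine (Pr_mono hw hsub).trans ?_
  refine (Pr_iUnion_le hw (range (J + 1)) (fun j => ⋃ L ∈ N j, G.marked j L)).trans ?_
  refine sum_le_sum fun j _ => ?_
  refine (Pr_iUnion_le hw (N j) (fun L => G.marked j L)).trans ?_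
  refine (sum_le_sum fun L _ => Pr_marked_one hw hG hB hn j L).trans (le_of_eq ?_)
  rw [sum_const, nsmul_eq_mul]

end Seq

end Pool.Agent.ANQ
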